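import Pool.Agent.Helper933.TR.Defs

/-!
Definitions for the 4-linear simplex Hilbert form with logarithmic growth.
-/

set_option autoImplicit false
set_option linter.unusedVariables false

open MeasureTheory

namespace TH71

/-- truncated Hilbert kernel -/
noncomputable def kap (ε N s : ℝ) : ℝ := if ε < |s| ∧ |s| < N then 1 / s else 0

/-- size of the product kernel -/
noncomputable def rho (ε N v : ℝ) : ℝ :=
  if |v| < 2 * ε then 1 / ε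
  else if |v| < 2 * N then (if |v| ≤ N / 2 then 1 / |v| else (1 + Real.log (N / ε)) / |v|)
  else 0

/-- product slices -/
noncomputable def G2 (g : ℝ → ℝ → ℝ → ℝ) (w w' : ℝ) : ℝ → ℝ → ℝ := fun y z => g y z w * g y z w'
/-- product slices -/
noncomputable def H2 (h : ℝ → ℝ → ℝ → ℝ) (w w' : ℝ) : ℝ → ℝ → ℝ := fun z x => h z w x * h z w' x
/-- product slices -/
noncomputable def K2 (k : ℝ → ℝ → ℝ → ℝ) (w w' : ℝ) : ℝ → ℝ → ℝ := fun x y => k w x y * k w' x y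

/-- the form without `f` -/
noncomputable def MM (g h k : ℝ → ℝ → ℝ → ℝ) (ε N : ℝ) (x : ℝ × ℝ × ℝ) : ℝ :=
  ∫ w : ℝ, kap ε N (x.1 + x.2.1 + x.2.2 + w) *
    (g x.2.1 x.2.2 w * h x.2.2 w x.1 * k w x.1 x.2.1)

/-- sixth moment -/
noncomputable def N6 (f : ℝ → ℝ → ℝ → ℝ) : ℝ := ∫ p : ℝ × ℝ × ℝ, |f p.1 p.2.1 p.2.2| ^ 6

/-- second moment -/
noncomputable def N2 (f : ℝ → ℝ → ℝ → ℝ) : ℝ := ∫ p : ℝ × ℝ × ℝ, |f p.1 p.2.1 p.2.2| ^ 2

/-- fourth moment -/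
noncomputable def N4 (f : ℝ → ℝ → ℝ → ℝ) : ℝ := ∫ p : ℝ × ℝ × ℝ, |f p.1 p.2.1 p.2.2| ^ 4

/-- clamp at level `2^i` -/
noncomputable def cl (i : ℤ) (u : ℝ) : ℝ := max (-(2:ℝ) ^ i) (min u ((2:ℝ) ^ i))

/-- part of size `2^i` -/
noncomputable def piece (i : ℤ) (f : ℝ → ℝ → ℝ → ℝ) : ℝ → ℝ → ℝ → ℝ :=
  fun x y z => cl (i + 1) (f x y z) - cl i (f x y z)

/-- low part -/
noncomputable def low (i : ℤ) (f : ℝ → ℝ → ℝ → ℝ) : ℝ → ℝ → ℝ → ℝ := fun x y z => cl i (f x y z)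

/-- weighted distribution function -/
noncomputable def aa (i : ℤ) (f : ℝ → ℝ → ℝ → ℝ) : ℝ :=
  ((2:ℝ) ^ i) ^ 4 * (volume {p : ℝ × ℝ × ℝ | (2:ℝ) ^ i < |f p.1 p.2.1 p.2.2|}).toReal

end TH71
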