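import Pool.Agent.Helper933.TY.Defs

set_option autoImplicit false
set_option linter.unusedVariables false

open MeasureTheory

namespace TH71


theorem TT_shift1 (f g h : ℝ → ℝ → ℝ) (a s : ℝ) :
    tzTT f g h (s - a) = tzTT (fun x y => f (x - a) y) g (fun z x => h z (x - a)) s := by
  unfold tzTT
  rw [← MeasureTheory.integral_sub_right_eq_self
    (fun p : ℝ × ℝ => f p.1 p.2 * g p.2 (s - a - p.1 - p.2) * h (s - a - p.1 - p.2) p.1)
    ((a, 0) : ℝ × ℝ)]
  congr 1
  funext q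
  have h1 : (q - ((a, 0) : ℝ × ℝ)).1 = q.1 - a := rfl
  have h2 : (q - ((a, 0) : ℝ × ℝ)).2 = q.2 := by simp
  have h3 : s - a - (q.1 - a) - q.2 = s - q.1 - q.2 := by ring
  rw [h1, h2, h3]

end TH71
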