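import Pool.Agent.Helper933.TY.Defs
import Pool.Agent.Helper933.TY.P_L3
import Pool.Agent.Helper933.TY.P_TT_shift1

set_option autoImplicit false
set_option linter.unusedVariables false

open MeasureTheory

namespace TH71


theorem tzT_shift (f : ℝ → ℝ → ℝ) (hf : tzT f) (a b : ℝ) :
    tzT (fun x y => f (x - a) (y - b)) := by
  obtain ⟨hc, hs⟩ := hf
  refine ⟨?_, ?_⟩
  · exact hc.comp (by fun_prop : Continuous (fun p : ℝ × ℝ => (p.1 - a, p.2 - b)))
  · have := hs.comp_homeomorph (Homeomorph.subRight ((a, b) : ℝ × ℝ))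
    exact this

theorem tzN_shift (f : ℝ → ℝ → ℝ) (a b : ℝ) :
    tzN (fun x y => f (x - a) (y - b)) = tzN f := by
  unfold tzN
  exact integral_sub_right_eq_self (fun p : ℝ × ℝ => |f p.1 p.2| ^ 3) ((a, b) : ℝ × ℝ)

theorem L3sh (f g h : ℝ → ℝ → ℝ) (hf : tzT f) (hg : tzT g) (hh : tzT h)
    (ε N : ℝ) (hε : 0 < ε) (hN : ε < N) (a : ℝ) :
    |∫ s in {s : ℝ | ε < |s| ∧ |s| < N}, tzTT f g h (s - a) / s| ≤
      300000000 * (tzN f + tzN g + tzN h) := by
  have h1 : tzT (fun x y => f (x - a) y) := by simpa using tzT_shift f hf a 0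
  have h2 : tzT (fun z x => h z (x - a)) := by simpa using tzT_shift h hh 0 a
  have e1 : tzN (fun x y => f (x - a) y) = tzN f := by simpa using tzN_shift f a 0
  have e2 : tzN (fun z x => h z (x - a)) = tzN h := by simpa using tzN_shift h 0 a
  have key := L3 (fun x y => f (x - a) y) g (fun z x => h z (x - a)) h1 hg h2 ε N hε hN
  rw [e1, e2] at key
  unfold tzL at key
  simp only [TT_shift1]
  exact key

end TH71
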