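import Pool.Agent.Helper933.TY.Defs

set_option autoImplicit false
set_option linter.unusedVariables false

open MeasureTheory

namespace TH71


theorem homog4 (A a b c d K : ℝ) (ha : 0 ≤ a) (hb : 0 ≤ b) (hc : 0 ≤ c) (hd : 0 ≤ d)
    (hK : 0 ≤ K)
    (h : ∀ t u v w : ℝ, 0 < t → 0 < u → 0 < v → 0 < w → t ^ 4 * a ≤ 1 → u ^ 4 * b ≤ 1 →
      v ^ 4 * c ≤ 1 → w ^ 4 * d ≤ 1 → |t * u * v * w * A| ≤ K) :
    |A| ≤ K * (a ^ ((1:ℝ)/4) * b ^ ((1:ℝ)/4) * c ^ ((1:ℝ)/4) * d ^ ((1:ℝ)/4)) := by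
  have hδ : ∀ δ : ℝ, 0 < δ → |A| ≤ K * ((a + δ) ^ ((1:ℝ)/4) * (b + δ) ^ ((1:ℝ)/4) *
      (c + δ) ^ ((1:ℝ)/4) * (d + δ) ^ ((1:ℝ)/4)) := by
    intro δ hδ
    have hr : ∀ x : ℝ, 0 ≤ x → 0 < (x + δ) ^ ((1:ℝ)/4) := fun x hx =>
      Real.rpow_pos_of_pos (by linarith) _
    have hp : ∀ x : ℝ, 0 ≤ x → (((x + δ) ^ ((1:ℝ)/4))⁻¹) ^ 4 * x ≤ 1 := by
      intro x hx
      have h4 : ((x + δ) ^ ((1:ℝ)/4)) ^ 4 = x + δ := by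
        rw [← Real.rpow_natCast, ← Real.rpow_mul (by linarith)]
        norm_num
      rw [inv_pow, h4, inv_mul_le_iff₀ (by linarith)]
      linarith
    have h1 := h _ _ _ _ (inv_pos.mpr (hr a ha)) (inv_pos.mpr (hr b hb)) (inv_pos.mpr (hr c hc))
      (inv_pos.mpr (hr d hd)) (hp a ha) (hp b hb) (hp c hc) (hp d hd)
    obtain ⟨p, hpd⟩ : ∃ p, p = (a + δ) ^ ((1:ℝ)/4) := ⟨_, rfl⟩
    obtain ⟨q, hqd⟩ : ∃ q, q = (b + δ) ^ ((1:ℝ)/4) := ⟨_, rfl⟩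
    obtain ⟨r, hrd⟩ : ∃ r, r = (c + δ) ^ ((1:ℝ)/4) := ⟨_, rfl⟩
    obtain ⟨s, hsd⟩ : ∃ s, s = (d + δ) ^ ((1:ℝ)/4) := ⟨_, rfl⟩
    have hp0 : 0 < p := hpd ▸ hr a ha
    have hq0 : 0 < q := hqd ▸ hr b hb
    have hr0 : 0 < r := hrd ▸ hr c hc
    have hs0 : 0 < s := hsd ▸ hr d hd
    rw [← hpd, ← hqd, ← hrd, ← hsd] at h1 ⊢
    have h2 : |p⁻¹ * q⁻¹ * r⁻¹ * s⁻¹ * A| = |A| / (p * q * r * s) := by
      rw [abs_mul, abs_of_pos (by positivity : 0 < p⁻¹ * q⁻¹ * r⁻¹ * s⁻¹)]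
      field_simp
    rw [h2, div_le_iff₀ (by positivity)] at h1
    exact h1
  have hcont : Continuous (fun δ : ℝ => K * ((a + δ) ^ ((1:ℝ)/4) * (b + δ) ^ ((1:ℝ)/4) *
      (c + δ) ^ ((1:ℝ)/4) * (d + δ) ^ ((1:ℝ)/4))) := by
    have hx : ∀ x : ℝ, Continuous (fun δ : ℝ => (x + δ) ^ ((1:ℝ)/4)) := fun x =>
      (Real.continuous_rpow_const (by norm_num)).comp (continuous_const.add continuous_id)
    exact continuous_const.mul ((((hx a).mul (hx b)).mul (hx c)).mul (hx d))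
  have hlim : Filter.Tendsto (fun δ : ℝ => K * ((a + δ) ^ ((1:ℝ)/4) * (b + δ) ^ ((1:ℝ)/4) *
      (c + δ) ^ ((1:ℝ)/4) * (d + δ) ^ ((1:ℝ)/4))) (nhdsWithin 0 (Set.Ioi 0))
      (nhds (K * ((a + 0) ^ ((1:ℝ)/4) * (b + 0) ^ ((1:ℝ)/4) *
      (c + 0) ^ ((1:ℝ)/4) * (d + 0) ^ ((1:ℝ)/4)))) :=
    (hcont.tendsto 0).mono_left nhdsWithin_le_nhds
  simp only [add_zero] at hlim
  refine ge_of_tendsto hlim ?_
  filter_upwards [self_mem_nhdsWithin] with δ hδ'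
  exact hδ δ hδ'

end TH71
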