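import Pool.Agent.Helper933.TY.Defs

set_option autoImplicit false
set_option linter.unusedVariables false

open MeasureTheory

namespace TH71

theorem add1_cont (f g h k : ℝ → ℝ → ℝ → ℝ) (hf : tzT3 f) (hg : tzT3 g)
    (hh : tzT3 h) (hk : tzT3 k) :
    Continuous (fun x : ℝ × ℝ × ℝ × ℝ => f x.1 x.2.1 x.2.2.1 * g x.2.1 x.2.2.1 x.2.2.2 *
      h x.2.2.1 x.2.2.2 x.1 * k x.2.2.2 x.1 x.2.1) := by
  have a : Continuous (fun x : ℝ × ℝ × ℝ × ℝ => f x.1 x.2.1 x.2.2.1) :=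
    hf.1.comp (g := fun p : ℝ × ℝ × ℝ => f p.1 p.2.1 p.2.2)
      (f := fun x : ℝ × ℝ × ℝ × ℝ => (x.1, x.2.1, x.2.2.1)) (by fun_prop)
  have b : Continuous (fun x : ℝ × ℝ × ℝ × ℝ => g x.2.1 x.2.2.1 x.2.2.2) :=
    hg.1.comp (g := fun p : ℝ × ℝ × ℝ => g p.1 p.2.1 p.2.2)
      (f := fun x : ℝ × ℝ × ℝ × ℝ => (x.2.1, x.2.2.1, x.2.2.2)) (by fun_prop)
  have c : Continuous (fun x : ℝ × ℝ × ℝ × ℝ => h x.2.2.1 x.2.2.2 x.1) :=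
    hh.1.comp (g := fun p : ℝ × ℝ × ℝ => h p.1 p.2.1 p.2.2)
      (f := fun x : ℝ × ℝ × ℝ × ℝ => (x.2.2.1, x.2.2.2, x.1)) (by fun_prop)
  have d : Continuous (fun x : ℝ × ℝ × ℝ × ℝ => k x.2.2.2 x.1 x.2.1) :=
    hk.1.comp (g := fun p : ℝ × ℝ × ℝ => k p.1 p.2.1 p.2.2)
      (f := fun x : ℝ × ℝ × ℝ × ℝ => (x.2.2.2, x.1, x.2.1)) (by fun_prop)
  exact ((a.mul b).mul c).mul d

theorem add1_int (f g h k : ℝ → ℝ → ℝ → ℝ) (hf : tzT3 f) (hg : tzT3 g)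
    (hh : tzT3 h) (hk : tzT3 k) :
    Integrable (fun x : ℝ × ℝ × ℝ × ℝ => f x.1 x.2.1 x.2.2.1 * g x.2.1 x.2.2.1 x.2.2.2 *
      h x.2.2.1 x.2.2.2 x.1 * k x.2.2.2 x.1 x.2.1) := by
  refine (add1_cont f g h k hf hg hh hk).integrable_of_hasCompactSupport ?_
  have hK : IsCompact ((Prod.fst '' tsupport (fun p : ℝ × ℝ × ℝ => f p.1 p.2.1 p.2.2)) ×ˢ
      tsupport (fun p : ℝ × ℝ × ℝ => g p.1 p.2.1 p.2.2)) :=
    (IsCompact.image hf.2 continuous_fst).prod hg.2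
  refine HasCompactSupport.intro hK ?_
  rintro ⟨x, y, z, w⟩ hx
  by_cases hy : (y, z, w) ∈ tsupport (fun p : ℝ × ℝ × ℝ => g p.1 p.2.1 p.2.2)
  · have hxy : (x, y, z) ∉ tsupport (fun p : ℝ × ℝ × ℝ => f p.1 p.2.1 p.2.2) := by
      intro hc
      exact hx ⟨⟨(x, y, z), hc, rfl⟩, hy⟩
    have : f x y z = 0 :=
      image_eq_zero_of_notMem_tsupport (f := fun p : ℝ × ℝ × ℝ => f p.1 p.2.1 p.2.2) hxy
    simp [this]
  · have : g y z w = 0 :=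
      image_eq_zero_of_notMem_tsupport (f := fun p : ℝ × ℝ × ℝ => g p.1 p.2.1 p.2.2) hy
    simp [this]

theorem add1_meas (ε N : ℝ) :
    MeasurableSet {x : ℝ × ℝ × ℝ × ℝ | ε < |x.1 + x.2.1 + x.2.2.1 + x.2.2.2| ∧
      |x.1 + x.2.1 + x.2.2.1 + x.2.2.2| < N} := by
  have hc : Continuous (fun x : ℝ × ℝ × ℝ × ℝ => |x.1 + x.2.1 + x.2.2.1 + x.2.2.2|) := by
    fun_prop
  exact ((isOpen_lt continuous_const hc).inter (isOpen_lt hc continuous_const)).measurableSet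

theorem add1_intOn (f g h k : ℝ → ℝ → ℝ → ℝ) (hf : tzT3 f) (hg : tzT3 g)
    (hh : tzT3 h) (hk : tzT3 k) (ε N : ℝ) (hε : 0 < ε) :
    IntegrableOn (fun x : ℝ × ℝ × ℝ × ℝ => f x.1 x.2.1 x.2.2.1 * g x.2.1 x.2.2.1 x.2.2.2 *
      h x.2.2.1 x.2.2.2 x.1 * k x.2.2.2 x.1 x.2.1 / (x.1 + x.2.1 + x.2.2.1 + x.2.2.2))
      {x : ℝ × ℝ × ℝ × ℝ | ε < |x.1 + x.2.1 + x.2.2.1 + x.2.2.2| ∧
      |x.1 + x.2.1 + x.2.2.1 + x.2.2.2| < N} := by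
  have hm : Measurable (fun x : ℝ × ℝ × ℝ × ℝ => f x.1 x.2.1 x.2.2.1 * g x.2.1 x.2.2.1 x.2.2.2 *
      h x.2.2.1 x.2.2.2 x.1 * k x.2.2.2 x.1 x.2.1 / (x.1 + x.2.1 + x.2.2.1 + x.2.2.2)) :=
    (add1_cont f g h k hf hg hh hk).measurable.div (by fun_prop)
  refine Integrable.mono' (((add1_int f g h k hf hg hh hk).norm.div_const ε).integrableOn)
    hm.aestronglyMeasurable ?_
  refine (ae_restrict_mem (add1_meas ε N)).mono fun x hx => ?_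
  rw [norm_div]
  have h1 : ε < ‖x.1 + x.2.1 + x.2.2.1 + x.2.2.2‖ := hx.1
  exact div_le_div_of_nonneg_left (norm_nonneg _) hε h1.le

theorem add1 (f f' g h k : ℝ → ℝ → ℝ → ℝ) (hf : tzT3 f) (hf' : tzT3 f') (hg : tzT3 g)
    (hh : tzT3 h) (hk : tzT3 k) (ε N : ℝ) (hε : 0 < ε) (hN : ε < N) :
    Lam4 (fun x y z => f x y z + f' x y z) g h k ε N = Lam4 f g h k ε N + Lam4 f' g h k ε N := by
  unfold Lam4
  rw [← integral_add (add1_intOn f g h k hf hg hh hk ε N hε)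
    (add1_intOn f' g h k hf' hg hh hk ε N hε)]
  congr 1
  funext x
  ring

end TH71
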