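import Pool.Agent.Helper933.TY.Defs

set_option autoImplicit false
set_option linter.unusedVariables false

open MeasureTheory

namespace TH71


def cycEquiv : ℝ × ℝ × ℝ × ℝ ≃ᵐ ℝ × ℝ × ℝ × ℝ :=
  (MeasurableEquiv.prodComm.trans MeasurableEquiv.prodAssoc).trans
    (MeasurableEquiv.prodCongr (MeasurableEquiv.refl ℝ) MeasurableEquiv.prodAssoc)

theorem cycEquiv_apply (x : ℝ × ℝ × ℝ × ℝ) : cycEquiv x = (x.2.1, x.2.2.1, x.2.2.2, x.1) := rfl

theorem cycEquiv_mp : MeasurePreserving cycEquiv (volume : Measure (ℝ × ℝ × ℝ × ℝ)) volume := by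
  have h1 : MeasurePreserving (Prod.swap : ℝ × (ℝ × ℝ × ℝ) → (ℝ × ℝ × ℝ) × ℝ)
      ((volume : Measure ℝ).prod (volume : Measure (ℝ × ℝ × ℝ)))
      ((volume : Measure (ℝ × ℝ × ℝ)).prod (volume : Measure ℝ)) := Measure.measurePreserving_swap
  have h2 : MeasurePreserving (MeasurableEquiv.prodAssoc : (ℝ × (ℝ × ℝ)) × ℝ ≃ᵐ ℝ × ((ℝ × ℝ) × ℝ))
      (((volume : Measure ℝ).prod (volume : Measure (ℝ × ℝ))).prod (volume : Measure ℝ))
      ((volume : Measure ℝ).prod ((volume : Measure (ℝ × ℝ)).prod (volume : Measure ℝ))) :=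
    measurePreserving_prodAssoc _ _ _
  have h3 : MeasurePreserving (MeasurableEquiv.prodAssoc : (ℝ × ℝ) × ℝ ≃ᵐ ℝ × (ℝ × ℝ))
      (((volume : Measure ℝ).prod (volume : Measure ℝ)).prod (volume : Measure ℝ))
      ((volume : Measure ℝ).prod ((volume : Measure ℝ).prod (volume : Measure ℝ))) :=
    measurePreserving_prodAssoc _ _ _
  have h4 := (MeasurePreserving.id (volume : Measure ℝ)).prod h3
  exact (h4.comp h2).comp h1

theorem cyc (f g h k : ℝ → ℝ → ℝ → ℝ) (ε N : ℝ) : Lam4 f g h k ε N = Lam4 g h k f ε N := by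
  unfold Lam4
  symm
  rw [← cycEquiv_mp.setIntegral_preimage_emb cycEquiv.measurableEmbedding]
  have hs : cycEquiv ⁻¹' {x : ℝ × ℝ × ℝ × ℝ | ε < |x.1 + x.2.1 + x.2.2.1 + x.2.2.2| ∧
      |x.1 + x.2.1 + x.2.2.1 + x.2.2.2| < N} = {x : ℝ × ℝ × ℝ × ℝ |
      ε < |x.1 + x.2.1 + x.2.2.1 + x.2.2.2| ∧ |x.1 + x.2.1 + x.2.2.1 + x.2.2.2| < N} := by
    ext x
    simp only [Set.mem_preimage, Set.mem_setOf_eq, cycEquiv_apply]
    rw [show x.2.1 + x.2.2.1 + x.2.2.2 + x.1 = x.1 + x.2.1 + x.2.2.1 + x.2.2.2 by ring]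
  rw [hs]
  refine integral_congr_ae (Filter.Eventually.of_forall fun x => ?_)
  simp only [cycEquiv_apply]
  rw [show x.2.1 + x.2.2.1 + x.2.2.2 + x.1 = x.1 + x.2.1 + x.2.2.1 + x.2.2.2 by ring]
  ring

end TH71

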