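import Pool.Agent.Helper933.TY.Defs

set_option autoImplicit false
set_option linter.unusedVariables false

open MeasureTheory

namespace TH71


theorem decomp_tel (L : ℤ) (u : ℝ) (n : ℕ) :
    ∑ i ∈ Finset.Ico L (L + n), (cl (i + 1) u - cl i u) = cl (L + n) u - cl L u := by
  induction n with
  | zero => simp
  | succ n ih =>
    have h : Finset.Ico L (L + ((n + 1 : ℕ) : ℤ)) = insert (L + n) (Finset.Ico L (L + n)) := by
      ext x
      simp only [Finset.mem_Ico, Finset.mem_insert]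
      push_cast
      omega
    rw [h, Finset.sum_insert (by simp), ih]
    push_cast
    rw [← add_assoc]
    ring

theorem decomp (f : ℝ → ℝ → ℝ → ℝ) (hf : tzT3 f) :
    ∃ I0 : ℤ, ∀ I : ℤ, I0 ≤ I → ∀ L : ℤ, L ≤ I → ∀ x y z, f x y z =
      low L f x y z + ∑ i ∈ Finset.Ico L I, piece i f x y z := by
  obtain ⟨B, hB⟩ := hf.2.exists_bound_of_continuous hf.1
  obtain ⟨n, hn⟩ := pow_unbounded_of_one_lt B (one_lt_two : (1:ℝ) < 2)
  refine ⟨n, fun I hI L hL x y z => ?_⟩
  obtain ⟨m, rfl⟩ : ∃ m : ℕ, I = L + m := ⟨(I - L).toNat, by omega⟩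
  unfold low piece
  rw [decomp_tel]
  have h1 : |f x y z| ≤ B := hB (x, y, z)
  have h2 : ((2:ℝ) ^ n) ≤ (2:ℝ) ^ (L + (m : ℤ)) := by
    rw [← zpow_natCast]
    exact zpow_le_zpow_right₀ (by norm_num) hI
  have h3 := abs_le.mp h1
  have h4 : cl (L + m) (f x y z) = f x y z := by
    unfold cl
    rw [min_eq_left (by linarith), max_eq_right (by linarith)]
  rw [h4]
  ring

end TH71
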