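import Pool.Agent.Helper933.TY.Defs

set_option autoImplicit false
set_option linter.unusedVariables false

open MeasureTheory

namespace TH71


theorem Lam4_MM_kap_meas (ε N : ℝ) : Measurable (kap ε N) := by
  have h1 : MeasurableSet {s : ℝ | ε < |s|} :=
    measurableSet_lt measurable_const (continuous_abs.measurable)
  have h2 : MeasurableSet {s : ℝ | |s| < N} :=
    measurableSet_lt (continuous_abs.measurable) measurable_const
  unfold kap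
  exact Measurable.ite (h1.inter h2) (measurable_const.div measurable_id) measurable_const

theorem Lam4_MM_kap_bdd (ε N : ℝ) (hε : 0 < ε) (s : ℝ) : ‖kap ε N s‖ ≤ 1 / ε := by
  unfold kap
  split_ifs with h
  · rw [Real.norm_eq_abs, abs_div, abs_one]
    exact one_div_le_one_div_of_le hε h.1.le
  · simp; positivity

theorem Lam4_MM_int (f g h k : ℝ → ℝ → ℝ → ℝ) (hf : tzT3 f) (hg : tzT3 g) (hh : tzT3 h)
    (hk : tzT3 k) (ε N : ℝ) (hε : 0 < ε) :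
    Integrable (fun q : (ℝ × ℝ × ℝ) × ℝ => kap ε N (q.1.1 + q.1.2.1 + q.1.2.2 + q.2) *
      (f q.1.1 q.1.2.1 q.1.2.2 *
        (g q.1.2.1 q.1.2.2 q.2 * h q.1.2.2 q.2 q.1.1 * k q.2 q.1.1 q.1.2.1))) := by
  have c1 : Continuous (fun q : (ℝ × ℝ × ℝ) × ℝ => f q.1.1 q.1.2.1 q.1.2.2) :=
    hf.1.comp continuous_fst
  have c2 : Continuous (fun q : (ℝ × ℝ × ℝ) × ℝ => g q.1.2.1 q.1.2.2 q.2) := by
    have : Continuous (fun q : (ℝ × ℝ × ℝ) × ℝ => ((q.1.2.1, q.1.2.2, q.2) : ℝ × ℝ × ℝ)) := by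
      fun_prop
    exact hg.1.comp this
  have c3 : Continuous (fun q : (ℝ × ℝ × ℝ) × ℝ => h q.1.2.2 q.2 q.1.1) := by
    have : Continuous (fun q : (ℝ × ℝ × ℝ) × ℝ => ((q.1.2.2, q.2, q.1.1) : ℝ × ℝ × ℝ)) := by
      fun_prop
    exact hh.1.comp this
  have c4 : Continuous (fun q : (ℝ × ℝ × ℝ) × ℝ => k q.2 q.1.1 q.1.2.1) := by
    have : Continuous (fun q : (ℝ × ℝ × ℝ) × ℝ => ((q.2, q.1.1, q.1.2.1) : ℝ × ℝ × ℝ)) := by
      fun_prop
    exact hk.1.comp this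
  have hc : Continuous (fun q : (ℝ × ℝ × ℝ) × ℝ => f q.1.1 q.1.2.1 q.1.2.2 *
        (g q.1.2.1 q.1.2.2 q.2 * h q.1.2.2 q.2 q.1.1 * k q.2 q.1.1 q.1.2.1)) :=
    c1.mul ((c2.mul c3).mul c4)
  have hs : HasCompactSupport (fun q : (ℝ × ℝ × ℝ) × ℝ => f q.1.1 q.1.2.1 q.1.2.2 *
        (g q.1.2.1 q.1.2.2 q.2 * h q.1.2.2 q.2 q.1.1 * k q.2 q.1.1 q.1.2.1)) := by
    have hKf : IsCompact (tsupport (fun p : ℝ × ℝ × ℝ => f p.1 p.2.1 p.2.2)) := hf.2
    have hKg : IsCompact ((fun p : ℝ × ℝ × ℝ => p.2.2) ''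
        (tsupport (fun p : ℝ × ℝ × ℝ => g p.1 p.2.1 p.2.2))) :=
      IsCompact.image hg.2 (by fun_prop)
    refine HasCompactSupport.intro (hKf.prod hKg) ?_
    intro q hq
    by_contra hne
    apply hq
    have n1 : f q.1.1 q.1.2.1 q.1.2.2 ≠ 0 := left_ne_zero_of_mul hne
    have n2 : g q.1.2.1 q.1.2.2 q.2 ≠ 0 :=
      left_ne_zero_of_mul (left_ne_zero_of_mul (right_ne_zero_of_mul hne))
    refine ⟨subset_tsupport _ n1, ?_⟩
    refine ⟨(q.1.2.1, q.1.2.2, q.2), ?_, rfl⟩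
    exact subset_tsupport _ n2
  have hi := hc.integrable_of_hasCompactSupport (μ := volume) hs
  refine hi.bdd_mul (c := 1 / ε) ?_ ?_
  · refine Measurable.aestronglyMeasurable ?_
    exact (Lam4_MM_kap_meas ε N).comp (by fun_prop)
  · exact Filter.Eventually.of_forall fun q => Lam4_MM_kap_bdd ε N hε _

theorem Lam4_MM (f g h k : ℝ → ℝ → ℝ → ℝ) (hf : tzT3 f) (hg : tzT3 g) (hh : tzT3 h)
    (hk : tzT3 k) (ε N : ℝ) (hε : 0 < ε) (hN : ε < N) :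
    Lam4 f g h k ε N = ∫ x : ℝ × ℝ × ℝ, f x.1 x.2.1 x.2.2 * MM g h k ε N x := by
  have hint := Lam4_MM_int f g h k hf hg hh hk ε N hε
  -- the reassociation map
  have hmp : MeasurePreserving
      (fun q : (ℝ × ℝ × ℝ) × ℝ => ((q.1.1, q.1.2.1, q.1.2.2, q.2) : ℝ × ℝ × ℝ × ℝ))
      volume volume := by
    have h1 : MeasurePreserving (MeasurableEquiv.prodAssoc : (ℝ × (ℝ × ℝ)) × ℝ ≃ᵐ _)
      (volume : Measure ((ℝ × (ℝ × ℝ)) × ℝ)) (volume : Measure (ℝ × ((ℝ × ℝ) × ℝ))) :=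
      measurePreserving_prodAssoc volume volume volume
    have h2 : MeasurePreserving (MeasurableEquiv.prodAssoc : (ℝ × ℝ) × ℝ ≃ᵐ _)
      (volume : Measure ((ℝ × ℝ) × ℝ)) (volume : Measure (ℝ × (ℝ × ℝ))) :=
      measurePreserving_prodAssoc volume volume volume
    exact ((MeasurePreserving.id (volume : Measure ℝ)).prod h2).comp h1
  have m1 : Measurable
      (fun q : (ℝ × ℝ × ℝ) × ℝ => ((q.1.1, q.1.2.1, q.1.2.2, q.2) : ℝ × ℝ × ℝ × ℝ)) := by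
    fun_prop
  have m2 : Measurable
      (fun r : ℝ × ℝ × ℝ × ℝ => (((r.1, r.2.1, r.2.2.1), r.2.2.2) : (ℝ × ℝ × ℝ) × ℝ)) := by
    fun_prop
  let e : (ℝ × ℝ × ℝ) × ℝ ≃ᵐ ℝ × ℝ × ℝ × ℝ :=
    { toFun := fun q => (q.1.1, q.1.2.1, q.1.2.2, q.2)
      invFun := fun r => ((r.1, r.2.1, r.2.2.1), r.2.2.2)
      left_inv := fun q => rfl
      right_inv := fun q => rfl
      measurable_toFun := m1
      measurable_invFun := m2 }
  have hemb : MeasurableEmbedding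
      (fun q : (ℝ × ℝ × ℝ) × ℝ => ((q.1.1, q.1.2.1, q.1.2.2, q.2) : ℝ × ℝ × ℝ × ℝ)) :=
    e.measurableEmbedding
  have hS : MeasurableSet {x : ℝ × ℝ × ℝ × ℝ | ε < |x.1 + x.2.1 + x.2.2.1 + x.2.2.2| ∧
      |x.1 + x.2.1 + x.2.2.1 + x.2.2.2| < N} := by
    have h1 : MeasurableSet {x : ℝ × ℝ × ℝ × ℝ | ε < |x.1 + x.2.1 + x.2.2.1 + x.2.2.2|} :=
      (isOpen_lt continuous_const (by fun_prop)).measurableSet
    have h2 : MeasurableSet {x : ℝ × ℝ × ℝ × ℝ | |x.1 + x.2.1 + x.2.2.1 + x.2.2.2| < N} :=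
      (isOpen_lt (by fun_prop) continuous_const).measurableSet
    exact h1.inter h2
  unfold Lam4
  rw [← integral_indicator hS, ← hmp.integral_comp hemb]
  have hcongr : ∀ q : (ℝ × ℝ × ℝ) × ℝ,
      ({x : ℝ × ℝ × ℝ × ℝ | ε < |x.1 + x.2.1 + x.2.2.1 + x.2.2.2| ∧
        |x.1 + x.2.1 + x.2.2.1 + x.2.2.2| < N}.indicator
        (fun x : ℝ × ℝ × ℝ × ℝ => f x.1 x.2.1 x.2.2.1 * g x.2.1 x.2.2.1 x.2.2.2 *
          h x.2.2.1 x.2.2.2 x.1 * k x.2.2.2 x.1 x.2.1 / (x.1 + x.2.1 + x.2.2.1 + x.2.2.2)))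
        (q.1.1, q.1.2.1, q.1.2.2, q.2) =
      kap ε N (q.1.1 + q.1.2.1 + q.1.2.2 + q.2) *
      (f q.1.1 q.1.2.1 q.1.2.2 *
        (g q.1.2.1 q.1.2.2 q.2 * h q.1.2.2 q.2 q.1.1 * k q.2 q.1.1 q.1.2.1)) := by
    intro q
    by_cases hq : ε < |q.1.1 + q.1.2.1 + q.1.2.2 + q.2| ∧
        |q.1.1 + q.1.2.1 + q.1.2.2 + q.2| < N
    · rw [Set.indicator_of_mem (by exact hq)]
      unfold kap
      rw [if_pos hq]
      ring
    · rw [Set.indicator_of_notMem (by exact hq)]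
      unfold kap
      rw [if_neg hq]
      ring
  rw [integral_congr_ae (Filter.Eventually.of_forall hcongr)]
  rw [Measure.volume_eq_prod, integral_prod _ hint]
  refine integral_congr_ae (Filter.Eventually.of_forall fun x => ?_)
  unfold MM
  simp only []
  rw [← integral_const_mul]
  refine integral_congr_ae (Filter.Eventually.of_forall fun w => ?_)
  simp only []
  ring

end TH71
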