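import Pool.Agent.Helper933.TY.Defs

set_option autoImplicit false
set_option linter.unusedVariables false

open MeasureTheory

namespace TH71


theorem kap_measurable_aux (ε N : ℝ) : Measurable (kap ε N) := by
  unfold kap
  refine Measurable.ite ?_ (by fun_prop) measurable_const
  exact (measurableSet_lt measurable_const measurable_id.abs).inter
    (measurableSet_lt measurable_id.abs measurable_const)

theorem kap_bound_aux (ε N : ℝ) (hε : 0 < ε) (u : ℝ) :
    |kap ε N u| ≤ (Set.Icc (-N) N).indicator (fun _ => 1 / ε) u := by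
  unfold kap
  split_ifs with h
  · have hu : u ∈ Set.Icc (-N) N := by
      have := abs_lt.mp h.2
      exact ⟨this.1.le, this.2.le⟩
    rw [Set.indicator_of_mem hu, abs_div, abs_one]
    exact one_div_le_one_div_of_le hε h.1.le
  · rw [abs_zero]
    exact Set.indicator_nonneg (fun _ _ => by positivity) _

theorem MM_test (g h k : ℝ → ℝ → ℝ → ℝ) (hg : tzT3 g) (hh : tzT3 h) (hk : tzT3 k)
    (ε N : ℝ) (hε : 0 < ε) (hN : ε < N) :
    Continuous (MM g h k ε N) ∧ HasCompactSupport (MM g h k ε N) := by
  obtain ⟨Cg, hCg⟩ := hg.2.exists_bound_of_continuous hg.1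
  obtain ⟨Ch, hCh⟩ := hh.2.exists_bound_of_continuous hh.1
  obtain ⟨Ck, hCk⟩ := hk.2.exists_bound_of_continuous hk.1
  have hgc : ∀ {X : Type} [TopologicalSpace X] (a b c : X → ℝ), Continuous a → Continuous b →
      Continuous c → Continuous fun t => g (a t) (b t) (c t) := by
    intro X _ a b c ha hb hc
    exact hg.1.comp (ha.prodMk (hb.prodMk hc))
  have hhc : ∀ {X : Type} [TopologicalSpace X] (a b c : X → ℝ), Continuous a → Continuous b →
      Continuous c → Continuous fun t => h (a t) (b t) (c t) := by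
    intro X _ a b c ha hb hc
    exact hh.1.comp (ha.prodMk (hb.prodMk hc))
  have hkc : ∀ {X : Type} [TopologicalSpace X] (a b c : X → ℝ), Continuous a → Continuous b →
      Continuous c → Continuous fun t => k (a t) (b t) (c t) := by
    intro X _ a b c ha hb hc
    exact hk.1.comp (ha.prodMk (hb.prodMk hc))
  constructor
  · have heq : MM g h k ε N = fun x : ℝ × ℝ × ℝ => ∫ u : ℝ, kap ε N u *
        (g x.2.1 x.2.2 (u - (x.1 + x.2.1 + x.2.2)) * h x.2.2 (u - (x.1 + x.2.1 + x.2.2)) x.1 *
          k (u - (x.1 + x.2.1 + x.2.2)) x.1 x.2.1) := by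
      funext x
      unfold MM
      rw [← integral_sub_right_eq_self (fun w => kap ε N (x.1 + x.2.1 + x.2.2 + w) *
        (g x.2.1 x.2.2 w * h x.2.2 w x.1 * k w x.1 x.2.1)) (x.1 + x.2.1 + x.2.2)]
      congr 1
      funext u
      have : x.1 + x.2.1 + x.2.2 + (u - (x.1 + x.2.1 + x.2.2)) = u := by ring
      rw [this]
    rw [heq]
    refine continuous_of_dominated (bound := fun u =>
      (Set.Icc (-N) N).indicator (fun _ => 1 / ε) u * (Cg * Ch * Ck)) ?_ ?_ ?_ ?_
    · intro x
      refine ((kap_measurable_aux ε N).aestronglyMeasurable).mul ?_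
      refine Continuous.aestronglyMeasurable ?_
      refine Continuous.mul (Continuous.mul ?_ ?_) ?_
      · exact hgc _ _ _ continuous_const continuous_const (by fun_prop)
      · exact hhc _ _ _ continuous_const (by fun_prop) continuous_const
      · exact hkc _ _ _ (by fun_prop) continuous_const continuous_const
    · intro x
      refine Filter.Eventually.of_forall fun u => ?_
      rw [norm_mul]
      refine mul_le_mul ?_ ?_ (norm_nonneg _) (Set.indicator_nonneg (fun _ _ => by positivity) _)
      · exact kap_bound_aux ε N hε u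
      · rw [norm_mul, norm_mul]
        have a1 := hCg (x.2.1, x.2.2, u - (x.1 + x.2.1 + x.2.2))
        have a2 := hCh (x.2.2, u - (x.1 + x.2.1 + x.2.2), x.1)
        have a3 := hCk (u - (x.1 + x.2.1 + x.2.2), x.1, x.2.1)
        have b1 : 0 ≤ Cg := (norm_nonneg _).trans a1
        have b2 : 0 ≤ Ch := (norm_nonneg _).trans a2
        exact mul_le_mul (mul_le_mul a1 a2 (norm_nonneg _) b1) a3 (norm_nonneg _) (mul_nonneg b1 b2)
    · refine Integrable.mul_const ?_ _
      rw [integrable_indicator_iff measurableSet_Icc]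
      exact integrableOn_const (by simp)
    · refine Filter.Eventually.of_forall fun u => ?_
      refine continuous_const.mul (Continuous.mul (Continuous.mul ?_ ?_) ?_)
      · exact hgc _ _ _ (by fun_prop) (by fun_prop) (by fun_prop)
      · exact hhc _ _ _ (by fun_prop) (by fun_prop) (by fun_prop)
      · exact hkc _ _ _ (by fun_prop) (by fun_prop) (by fun_prop)
  · obtain ⟨R1, hR1⟩ := (Metric.isBounded_iff_subset_closedBall (0 : ℝ × ℝ × ℝ)).mp hg.2.isCompact.isBounded
    obtain ⟨R2, hR2⟩ := (Metric.isBounded_iff_subset_closedBall (0 : ℝ × ℝ × ℝ)).mp hh.2.isCompact.isBounded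
    refine HasCompactSupport.of_support_subset_isCompact
      (isCompact_closedBall (0 : ℝ × ℝ × ℝ) (max R1 R2)) ?_
    intro x hx
    rw [Function.mem_support] at hx
    have hex : ∃ w : ℝ, g x.2.1 x.2.2 w ≠ 0 ∧ h x.2.2 w x.1 ≠ 0 := by
      by_contra hcon
      push Not at hcon
      apply hx
      unfold MM
      rw [← integral_zero ℝ ℝ]
      congr 1
      funext w
      by_cases hgw : g x.2.1 x.2.2 w = 0
      · simp [hgw]
      · simp [hcon w hgw]
    obtain ⟨w, hgw, hhw⟩ := hex
    have m1 : (x.2.1, x.2.2, w) ∈ Metric.closedBall (0 : ℝ × ℝ × ℝ) R1 :=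
      hR1 (subset_tsupport _ hgw)
    have m2 : (x.2.2, w, x.1) ∈ Metric.closedBall (0 : ℝ × ℝ × ℝ) R2 :=
      hR2 (subset_tsupport _ hhw)
    rw [mem_closedBall_zero_iff, Prod.norm_def, Prod.norm_def] at m1 m2 ⊢
    simp only [sup_le_iff] at m1 m2 ⊢
    exact ⟨m2.2.2.trans (le_max_right _ _), m1.1.trans (le_max_left _ _),
      m1.2.1.trans (le_max_left _ _)⟩

end TH71
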