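import Pool.Agent.Helper933.TY.Defs

set_option autoImplicit false
set_option linter.unusedVariables false

open MeasureTheory

namespace TH71


theorem integ_of_bdd {E : Type*} [NormedAddCommGroup E] [MeasurableSpace E] [BorelSpace E]
    [ProperSpace E] (μ : Measure E) [IsFiniteMeasureOnCompacts μ] (f : E → ℝ) (hm : Measurable f)
    (C R : ℝ) (hC : ∀ x, |f x| ≤ C) (hR : ∀ x, f x ≠ 0 → ‖x‖ ≤ R) : Integrable f μ := by
  have hs : Function.support f ⊆ Metric.closedBall (0 : E) R := by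
    intro x hx
    rw [mem_closedBall_zero_iff]
    exact hR x hx
  refine (integrableOn_iff_integrable_of_support_subset hs).1 ?_
  exact Measure.integrableOn_of_bounded (isCompact_closedBall (0 : E) R).measure_lt_top.ne
    hm.aestronglyMeasurable (ae_of_all _ fun x => hC x)

/-- the integrand of `MM` -/
noncomputable def FFw (g h k : ℝ → ℝ → ℝ → ℝ) (ε N : ℝ) (x : ℝ × ℝ × ℝ) (w : ℝ) : ℝ :=
  kap ε N (x.1 + x.2.1 + x.2.2 + w) * (g x.2.1 x.2.2 w * h x.2.2 w x.1 * k w x.1 x.2.1)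

theorem kap_meas (ε N : ℝ) : Measurable (kap ε N) := by
  unfold kap
  refine Measurable.ite ?_ (measurable_const.div measurable_id) measurable_const
  have h1 : Measurable (fun s : ℝ => |s|) := continuous_abs.measurable
  exact (measurableSet_lt measurable_const h1).inter (measurableSet_lt h1 measurable_const)

theorem kap_le (ε N : ℝ) (hε : 0 < ε) (s : ℝ) : |kap ε N s| ≤ 1 / ε := by
  unfold kap
  split_ifs with h
  · rw [abs_div, abs_one]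
    exact one_div_le_one_div_of_le hε h.1.le
  · rw [abs_zero]
    positivity

theorem FFw_meas (g h k : ℝ → ℝ → ℝ → ℝ) (hg : tzT3 g) (hh : tzT3 h) (hk : tzT3 k) (ε N : ℝ) :
    Measurable (fun p : (ℝ × ℝ × ℝ) × ℝ => FFw g h k ε N p.1 p.2) := by
  unfold FFw
  have h1 : Measurable (fun p : (ℝ × ℝ × ℝ) × ℝ => g p.1.2.1 p.1.2.2 p.2) :=
    (hg.1.comp (by fun_prop : Continuous fun p : (ℝ × ℝ × ℝ) × ℝ =>
      (p.1.2.1, p.1.2.2, p.2))).measurable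
  have h2 : Measurable (fun p : (ℝ × ℝ × ℝ) × ℝ => h p.1.2.2 p.2 p.1.1) :=
    (hh.1.comp (by fun_prop : Continuous fun p : (ℝ × ℝ × ℝ) × ℝ =>
      (p.1.2.2, p.2, p.1.1))).measurable
  have h3 : Measurable (fun p : (ℝ × ℝ × ℝ) × ℝ => k p.2 p.1.1 p.1.2.1) :=
    (hk.1.comp (by fun_prop : Continuous fun p : (ℝ × ℝ × ℝ) × ℝ =>
      (p.2, p.1.1, p.1.2.1))).measurable
  have h4 : Measurable (fun p : (ℝ × ℝ × ℝ) × ℝ => kap ε N (p.1.1 + p.1.2.1 + p.1.2.2 + p.2)) :=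
    (kap_meas ε N).comp (by fun_prop)
  exact h4.mul ((h1.mul h2).mul h3)

theorem T3_bd (g : ℝ → ℝ → ℝ → ℝ) (hg : tzT3 g) : ∃ C R : ℝ, 0 ≤ C ∧ (∀ a b c, |g a b c| ≤ C) ∧
    ∀ a b c, g a b c ≠ 0 → |a| ≤ R ∧ |b| ≤ R ∧ |c| ≤ R := by
  obtain ⟨C, hC⟩ := hg.2.exists_bound_of_continuous hg.1
  obtain ⟨R, hR⟩ := hg.2.isCompact.isBounded.subset_closedBall 0
  refine ⟨C, R, (norm_nonneg _).trans (hC (0, 0, 0)), fun a b c => hC (a, b, c), ?_⟩
  intro a b c habc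
  have h1 : (a, b, c) ∈ tsupport (fun p : ℝ × ℝ × ℝ => g p.1 p.2.1 p.2.2) :=
    subset_tsupport _ habc
  have h2 := hR h1
  rw [mem_closedBall_zero_iff, Prod.norm_def, Prod.norm_def] at h2
  simp only [Real.norm_eq_abs] at h2
  refine ⟨(le_max_left _ _).trans h2, ?_, ?_⟩
  · exact (le_max_left _ _).trans ((le_max_right _ _).trans h2)
  · exact (le_max_right _ _).trans ((le_max_right _ _).trans h2)

theorem FFw_bd (g h k : ℝ → ℝ → ℝ → ℝ) (hg : tzT3 g) (hh : tzT3 h) (hk : tzT3 k) (ε N : ℝ)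
    (hε : 0 < ε) : ∃ C R : ℝ, 0 ≤ C ∧ 0 ≤ R ∧ (∀ x w, |FFw g h k ε N x w| ≤ C) ∧
    ∀ x w, FFw g h k ε N x w ≠ 0 → |x.1| ≤ R ∧ |x.2.1| ≤ R ∧ |x.2.2| ≤ R ∧ |w| ≤ R := by
  obtain ⟨C1, R1, hC1, hb1, hs1⟩ := T3_bd g hg
  obtain ⟨C2, R2, hC2, hb2, hs2⟩ := T3_bd h hh
  obtain ⟨C3, R3, hC3, hb3, hs3⟩ := T3_bd k hk
  refine ⟨1 / ε * (C1 * C2 * C3), max 0 (max R1 R2), by positivity, le_max_left _ _, ?_, ?_⟩
  · intro x w
    unfold FFw
    rw [abs_mul, abs_mul, abs_mul]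
    have a1 := kap_le ε N hε (x.1 + x.2.1 + x.2.2 + w)
    have a2 := hb1 x.2.1 x.2.2 w
    have a3 := hb2 x.2.2 w x.1
    have a4 := hb3 w x.1 x.2.1
    gcongr
  · intro x w hne
    unfold FFw at hne
    have h1 : g x.2.1 x.2.2 w ≠ 0 := by
      intro h0; apply hne; rw [h0]; ring
    have h2 : h x.2.2 w x.1 ≠ 0 := by
      intro h0; apply hne; rw [h0]; ring
    obtain ⟨b1, b2, b3⟩ := hs1 _ _ _ h1
    obtain ⟨c1, c2, c3⟩ := hs2 _ _ _ h2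
    have m1 : R1 ≤ max 0 (max R1 R2) := (le_max_left _ _).trans (le_max_right _ _)
    have m2 : R2 ≤ max 0 (max R1 R2) := (le_max_right _ _).trans (le_max_right _ _)
    exact ⟨c3.trans m2, b1.trans m1, b2.trans m1, b3.trans m1⟩

set_option maxHeartbeats 1000000 in
theorem MMsq (g h k : ℝ → ℝ → ℝ → ℝ) (hg : tzT3 g) (hh : tzT3 h) (hk : tzT3 k)
    (ε N : ℝ) (hε : 0 < ε) (hN : ε < N) :
    ∫ x : ℝ × ℝ × ℝ, (MM g h k ε N x) ^ 2 = ∫ q : ℝ × ℝ, ∫ s : ℝ,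
      kap ε N (s + q.1) * kap ε N (s + q.2) *
        tzTT (K2 k q.1 q.2) (G2 g q.1 q.2) (H2 h q.1 q.2) s := by
  obtain ⟨C, R, hC0, hR0, hC, hR⟩ := FFw_bd g h k hg hh hk ε N hε
  have hm := FFw_meas g h k hg hh hk ε N
  set Φ : (ℝ × ℝ × ℝ) → (ℝ × ℝ) → ℝ := fun x q => FFw g h k ε N x q.1 * FFw g h k ε N x q.2 with hΦ
  have hΦC : ∀ x q, |Φ x q| ≤ C * C := by
    intro x q
    rw [hΦ]
    simp only
    rw [abs_mul]
    exact mul_le_mul (hC _ _) (hC _ _) (abs_nonneg _) hC0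
  have hΦR : ∀ x q, Φ x q ≠ 0 → |x.1| ≤ R ∧ |x.2.1| ≤ R ∧ |x.2.2| ≤ R ∧ |q.1| ≤ R ∧ |q.2| ≤ R := by
    intro x q hne
    have h1 := left_ne_zero_of_mul hne
    have h2 := right_ne_zero_of_mul hne
    obtain ⟨a1, a2, a3, a4⟩ := hR _ _ h1
    obtain ⟨b1, b2, b3, b4⟩ := hR _ _ h2
    exact ⟨a1, a2, a3, a4, b4⟩
  have hΦm : Measurable (fun p : (ℝ × ℝ × ℝ) × (ℝ × ℝ) => Φ p.1 p.2) := by
    have e1 : Measurable (fun p : (ℝ × ℝ × ℝ) × (ℝ × ℝ) => (p.1, p.2.1)) := by fun_prop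
    have e2 : Measurable (fun p : (ℝ × ℝ × ℝ) × (ℝ × ℝ) => (p.1, p.2.2)) := by fun_prop
    exact (hm.comp e1).mul (hm.comp e2)
  have step1 : ∀ x : ℝ × ℝ × ℝ, (MM g h k ε N x) ^ 2 = ∫ q : ℝ × ℝ, Φ x q := by
    intro x
    have := integral_prod_mul (μ := (volume : Measure ℝ)) (ν := (volume : Measure ℝ))
      (fun w => FFw g h k ε N x w) (fun w => FFw g h k ε N x w)
    rw [sq]
    exact this.symm
  simp only [step1]
  have hI1 : Integrable (fun p : (ℝ × ℝ × ℝ) × (ℝ × ℝ) => Φ p.1 p.2)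
      ((volume : Measure (ℝ × ℝ × ℝ)).prod (volume : Measure (ℝ × ℝ))) := by
    refine integ_of_bdd _ _ hΦm (C * C) R (fun p => hΦC _ _) ?_
    intro p hp
    obtain ⟨a1, a2, a3, a4, a5⟩ := hΦR _ _ hp
    simp only [Prod.norm_def, Real.norm_eq_abs]
    exact max_le (max_le a1 (max_le a2 a3)) (max_le a4 a5)
  rw [integral_integral_swap hI1]
  congr 1
  funext q
  -- fixed q
  have hA : ∫ x : ℝ × ℝ × ℝ, Φ x q = ∫ y : (ℝ × ℝ) × ℝ, Φ (y.1.1, y.1.2, y.2) q := by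
    have hmp := (volume_preserving_prodAssoc : MeasurePreserving
      (MeasurableEquiv.prodAssoc : (ℝ × ℝ) × ℝ ≃ᵐ ℝ × ℝ × ℝ) volume volume)
    rw [← hmp.integral_comp' (g := fun x : ℝ × ℝ × ℝ => Φ x q)]
    rfl
  have hqm : Measurable (fun x : ℝ × ℝ × ℝ => Φ x q) := hΦm.comp (by fun_prop :
    Measurable fun x : ℝ × ℝ × ℝ => (x, q))
  have hI2 : Integrable (fun y : (ℝ × ℝ) × ℝ => Φ (y.1.1, y.1.2, y.2) q)
      ((volume : Measure (ℝ × ℝ)).prod (volume : Measure ℝ)) := by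
    refine integ_of_bdd _ _ (hqm.comp (by fun_prop : Measurable fun y : (ℝ × ℝ) × ℝ =>
      (y.1.1, y.1.2, y.2))) (C * C) R (fun p => hΦC _ _) ?_
    intro p hp
    obtain ⟨a1, a2, a3, a4, a5⟩ := hΦR _ _ hp
    simp only [Prod.norm_def, Real.norm_eq_abs]
    exact max_le (max_le a1 a2) a3
  have hB : ∫ y : (ℝ × ℝ) × ℝ, Φ (y.1.1, y.1.2, y.2) q
      = ∫ p : ℝ × ℝ, ∫ s : ℝ, Φ (p.1, p.2, s - p.1 - p.2) q := by
    have h1 : ∫ y : (ℝ × ℝ) × ℝ, Φ (y.1.1, y.1.2, y.2) q = ∫ p : ℝ × ℝ, ∫ z : ℝ, Φ (p.1, p.2, z) q :=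
      integral_prod _ hI2
    rw [h1]
    congr 1
    funext p
    have h2 := integral_sub_right_eq_self (μ := (volume : Measure ℝ))
      (fun z : ℝ => Φ (p.1, p.2, z) q) (p.1 + p.2)
    rw [← h2]
    congr 1
    funext s
    rw [sub_sub]
  have hI3 : Integrable (fun y : (ℝ × ℝ) × ℝ => Φ (y.1.1, y.1.2, y.2 - y.1.1 - y.1.2) q)
      ((volume : Measure (ℝ × ℝ)).prod (volume : Measure ℝ)) := by
    refine integ_of_bdd _ _ (hqm.comp (by fun_prop : Measurable fun y : (ℝ × ℝ) × ℝ =>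
      (y.1.1, y.1.2, y.2 - y.1.1 - y.1.2))) (C * C) (3 * R) (fun p => hΦC _ _) ?_
    intro p hp
    obtain ⟨a1, a2, a3, a4, a5⟩ := hΦR _ _ hp
    simp only at a1 a2 a3
    simp only [Prod.norm_def, Real.norm_eq_abs]
    refine max_le (max_le ?_ ?_) ?_
    · linarith
    · linarith
    · rw [abs_le] at a1 a2 a3 ⊢
      constructor <;> linarith [a1.1, a1.2, a2.1, a2.2, a3.1, a3.2]
  rw [hA, hB, integral_integral_swap hI3]
  congr 1
  funext s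
  unfold tzTT
  rw [← integral_const_mul]
  congr 1
  funext p
  simp only [hΦ, FFw, K2, G2, H2]
  have e1 : p.1 + p.2 + (s - p.1 - p.2) = s := by ring
  rw [e1]
  ring

end TH71
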