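import Pool.Agent.Helper933.TY.Defs

set_option autoImplicit false
set_option linter.unusedVariables false

open MeasureTheory

namespace TH71


theorem tyA_meas (ε N : ℝ) : Measurable (kap ε N) := by
  unfold kap
  have h : MeasurableSet {s : ℝ | ε < |s| ∧ |s| < N} :=
    (measurableSet_lt measurable_const measurable_id.abs).inter
      (measurableSet_lt measurable_id.abs measurable_const)
  exact Measurable.ite h (measurable_const.div measurable_id) measurable_const

theorem tyA_bd (ε N : ℝ) (hε : 0 < ε) (s : ℝ) : |kap ε N s| ≤ 1 / ε := by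
  unfold kap
  split_ifs with h
  · rw [abs_div, abs_one]
    exact one_div_le_one_div_of_le hε h.1.le
  · rw [abs_zero]; positivity

theorem tyA_supp (ε N : ℝ) (s : ℝ) (h : kap ε N s ≠ 0) : ε < |s| ∧ |s| < N := by
  unfold kap at h
  by_contra hc
  rw [if_neg hc] at h
  exact h rfl

theorem tyA_abs (ε N s : ℝ) :
    |kap ε N s| = (Set.Ioo ε N).indicator (fun x => 1 / x) |s| := by
  unfold kap
  by_cases h : ε < |s| ∧ |s| < N
  · rw [if_pos h, Set.indicator_of_mem (show |s| ∈ Set.Ioo ε N from h), abs_div, abs_one]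
  · rw [if_neg h, Set.indicator_of_notMem (show |s| ∉ Set.Ioo ε N from h), abs_zero]

theorem tyA_sq (ε N s : ℝ) :
    kap ε N s ^ 2 = (Set.Ioo ε N).indicator (fun x => x ^ (-2 : ℤ)) |s| := by
  unfold kap
  by_cases h : ε < |s| ∧ |s| < N
  · rw [if_pos h, Set.indicator_of_mem (show |s| ∈ Set.Ioo ε N from h)]
    show (1 / s) ^ 2 = |s| ^ (-2 : ℤ)
    rw [zpow_neg, show ((2:ℤ)) = ((2:ℕ):ℤ) from rfl, zpow_natCast, sq_abs, div_pow, one_pow, one_div]
  · rw [if_neg h, Set.indicator_of_notMem (show |s| ∉ Set.Ioo ε N from h)]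
    simp

theorem tyA_int_gen (ε N : ℝ) (F : ℝ → ℝ) (hF : Measurable F) (C : ℝ)
    (hC : ∀ s, |F s| ≤ C) (hs : ∀ s, F s ≠ 0 → |s| < N) : Integrable F := by
  have h1 : Integrable ((Set.Ioo (-N) N).indicator (fun _ : ℝ => C)) := by
    rw [integrable_indicator_iff measurableSet_Ioo]
    exact integrableOn_const (by simp) (by simp)
  refine h1.mono' hF.aestronglyMeasurable (Filter.Eventually.of_forall fun s => ?_)
  by_cases h : |s| < N
  · rw [Set.indicator_of_mem (show s ∈ Set.Ioo (-N) N from abs_lt.mp h)]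
    exact hC s
  · have : F s = 0 := by
      by_contra hc
      exact h (hs s hc)
    rw [this, norm_zero]
    exact Set.indicator_nonneg (fun x _ => (abs_nonneg _).trans (hC x)) s

theorem tyA_intAbs (ε N : ℝ) (hε : 0 < ε) : Integrable (fun s => |kap ε N s|) := by
  refine tyA_int_gen ε N _ (tyA_meas ε N).abs (1 / ε) (fun s => ?_) (fun s h => ?_)
  · rw [abs_abs]; exact tyA_bd ε N hε s
  · exact (tyA_supp ε N s (by simpa using h)).2

theorem tyA_intSq (ε N : ℝ) (hε : 0 < ε) : Integrable (fun s => kap ε N s ^ 2) := by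
  refine tyA_int_gen ε N _ ((tyA_meas ε N).pow_const 2) ((1 / ε) ^ 2) (fun s => ?_) (fun s h => ?_)
  · rw [abs_pow]; exact pow_le_pow_left₀ (abs_nonneg _) (tyA_bd ε N hε s) 2
  · exact (tyA_supp ε N s (by intro h0; apply h; simp [h0])).2

theorem tyA_I1 (ε N : ℝ) (hε : 0 < ε) (hN : ε < N) :
    ∫ s, |kap ε N s| = 2 * Real.log (N / ε) := by
  have h1 : (fun s => |kap ε N s|) =
      fun s => ((Set.Ioo ε N).indicator (fun x => 1 / x)) |s| := by
    funext s; exact tyA_abs ε N s
  rw [h1, integral_comp_abs, setIntegral_indicator measurableSet_Ioo]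
  have h2 : Set.Ioi (0:ℝ) ∩ Set.Ioo ε N = Set.Ioo ε N := by
    apply Set.inter_eq_right.mpr
    intro x hx
    exact hε.trans hx.1
  rw [h2, ← integral_Ioc_eq_integral_Ioo, ← intervalIntegral.integral_of_le hN.le,
    integral_one_div_of_pos hε (hε.trans hN)]

theorem tyA_I2 (ε N : ℝ) (hε : 0 < ε) (hN : ε < N) :
    ∫ s, kap ε N s ^ 2 ≤ 2 / ε := by
  have h1 : (fun s => kap ε N s ^ 2) =
      fun s => ((Set.Ioo ε N).indicator (fun x => x ^ (-2 : ℤ))) |s| := by
    funext s; exact tyA_sq ε N s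
  rw [h1, integral_comp_abs, setIntegral_indicator measurableSet_Ioo]
  have h2 : Set.Ioi (0:ℝ) ∩ Set.Ioo ε N = Set.Ioo ε N := by
    apply Set.inter_eq_right.mpr
    intro x hx
    exact hε.trans hx.1
  have hN0 : 0 < N := hε.trans hN
  rw [h2, ← integral_Ioc_eq_integral_Ioo, ← intervalIntegral.integral_of_le hN.le,
    integral_zpow (Or.inr ⟨by norm_num, by
      rw [Set.uIcc_of_le hN.le]
      intro h
      exact absurd h.1 (not_le.mpr hε)⟩)]
  have e1 : ((-2 : ℤ) + 1) = -1 := by norm_num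
  rw [e1, zpow_neg_one, zpow_neg_one]
  have : (N⁻¹ - ε⁻¹) / (((-2 : ℤ) : ℝ) + 1) = ε⁻¹ - N⁻¹ := by
    push_cast
    ring
  rw [this]
  have h3 : 0 < N⁻¹ := inv_pos.mpr hN0
  rw [div_eq_mul_inv]
  linarith

theorem kerA (ε N : ℝ) (hε : 0 < ε) (hN : ε < N) (w w' : ℝ) :
    Integrable (fun s : ℝ => kap ε N (s + w) * kap ε N (s + w')) ∧
    (|w - w'| < 2 * ε → ∫ s : ℝ, |kap ε N (s + w) * kap ε N (s + w')| ≤ 2 / ε) ∧
    (2 * ε ≤ |w - w'| → ∫ s : ℝ, |kap ε N (s + w) * kap ε N (s + w')| ≤
      4 * Real.log (N / ε) / |w - w'|) ∧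
    (2 * N ≤ |w - w'| → ∀ s : ℝ, kap ε N (s + w) * kap ε N (s + w') = 0) := by
  have hm1 : Measurable (fun s : ℝ => kap ε N (s + w)) :=
    (tyA_meas ε N).comp (measurable_id.add_const w)
  have hm2 : Measurable (fun s : ℝ => kap ε N (s + w')) :=
    (tyA_meas ε N).comp (measurable_id.add_const w')
  have hA : Integrable (fun s : ℝ => |kap ε N (s + w)|) := (tyA_intAbs ε N hε).comp_add_right w
  have hA' : Integrable (fun s : ℝ => |kap ε N (s + w')|) := (tyA_intAbs ε N hε).comp_add_right w'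
  have hS : Integrable (fun s : ℝ => kap ε N (s + w) ^ 2) := (tyA_intSq ε N hε).comp_add_right w
  have hS' : Integrable (fun s : ℝ => kap ε N (s + w') ^ 2) :=
    (tyA_intSq ε N hε).comp_add_right w'
  have eA : ∫ s : ℝ, |kap ε N (s + w)| = 2 * Real.log (N / ε) := by
    rw [integral_add_right_eq_self (fun s => |kap ε N s|) w]; exact tyA_I1 ε N hε hN
  have eA' : ∫ s : ℝ, |kap ε N (s + w')| = 2 * Real.log (N / ε) := by
    rw [integral_add_right_eq_self (fun s => |kap ε N s|) w']; exact tyA_I1 ε N hε hN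
  have eS : ∫ s : ℝ, kap ε N (s + w) ^ 2 ≤ 2 / ε := by
    rw [integral_add_right_eq_self (fun s => kap ε N s ^ 2) w]; exact tyA_I2 ε N hε hN
  have eS' : ∫ s : ℝ, kap ε N (s + w') ^ 2 ≤ 2 / ε := by
    rw [integral_add_right_eq_self (fun s => kap ε N s ^ 2) w']; exact tyA_I2 ε N hε hN
  have hI : Integrable (fun s : ℝ => kap ε N (s + w) * kap ε N (s + w')) := by
    refine (hA.const_mul (1 / ε)).mono' (hm1.mul hm2).aestronglyMeasurable
      (Filter.Eventually.of_forall fun s => ?_)
    rw [Real.norm_eq_abs, abs_mul, mul_comm]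
    exact mul_le_mul_of_nonneg_right (tyA_bd ε N hε _) (abs_nonneg _)
  refine ⟨hI, fun _ => ?_, fun hv => ?_, fun hv s => ?_⟩
  · have h1 : ∫ s : ℝ, |kap ε N (s + w) * kap ε N (s + w')| ≤
        ∫ s : ℝ, (1 / 2 * kap ε N (s + w) ^ 2 + 1 / 2 * kap ε N (s + w') ^ 2) := by
      refine integral_mono hI.abs ((hS.const_mul _).add (hS'.const_mul _)) fun s => ?_
      show |kap ε N (s + w) * kap ε N (s + w')| ≤
        1 / 2 * kap ε N (s + w) ^ 2 + 1 / 2 * kap ε N (s + w') ^ 2
      rw [abs_mul]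
      nlinarith [sq_nonneg (|kap ε N (s + w)| - |kap ε N (s + w')|), sq_abs (kap ε N (s + w)),
        sq_abs (kap ε N (s + w'))]
    rw [integral_add (hS.const_mul _) (hS'.const_mul _), integral_const_mul,
      integral_const_mul] at h1
    linarith
  · have hv0 : 0 < |w - w'| := by linarith
    have h1 : ∫ s : ℝ, |kap ε N (s + w) * kap ε N (s + w')| ≤
        ∫ s : ℝ, (1 / |w - w'| * |kap ε N (s + w)| + 1 / |w - w'| * |kap ε N (s + w')|) := by
      refine integral_mono hI.abs ((hA.const_mul _).add (hA'.const_mul _)) fun s => ?_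
      show |kap ε N (s + w) * kap ε N (s + w')| ≤
        1 / |w - w'| * |kap ε N (s + w)| + 1 / |w - w'| * |kap ε N (s + w')|
      by_cases h0 : kap ε N (s + w) = 0
      · rw [h0, zero_mul, abs_zero]; positivity
      by_cases h0' : kap ε N (s + w') = 0
      · rw [h0', mul_zero, abs_zero]; positivity
      have ha := tyA_supp ε N _ h0
      have hb := tyA_supp ε N _ h0'
      unfold kap
      rw [if_pos ha, if_pos hb]
      have pa : 0 < |s + w| := hε.trans ha.1
      have pb : 0 < |s + w'| := hε.trans hb.1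
      have htri : |w - w'| ≤ |s + w| + |s + w'| := by
        have := abs_sub (s + w) (s + w')
        rwa [show s + w - (s + w') = w - w' by ring] at this
      rw [abs_mul, abs_div, abs_div, abs_one]
      have e : 1 / |w - w'| * (1 / |s + w|) + 1 / |w - w'| * (1 / |s + w'|) -
          1 / |s + w| * (1 / |s + w'|) =
          (|s + w| + |s + w'| - |w - w'|) / (|w - w'| * |s + w| * |s + w'|) := by
        field_simp
        ring
      have : 0 ≤ (|s + w| + |s + w'| - |w - w'|) / (|w - w'| * |s + w| * |s + w'|) :=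
        div_nonneg (by linarith) (by positivity)
      linarith
    rw [integral_add (hA.const_mul _) (hA'.const_mul _), integral_const_mul,
      integral_const_mul, eA, eA'] at h1
    refine h1.trans (le_of_eq ?_)
    ring
  · by_contra hc
    have ha := tyA_supp ε N _ (left_ne_zero_of_mul hc)
    have hb := tyA_supp ε N _ (right_ne_zero_of_mul hc)
    have htri : |w - w'| ≤ |s + w| + |s + w'| := by
      have := abs_sub (s + w) (s + w')
      rwa [show s + w - (s + w') = w - w' by ring] at this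
    linarith [ha.2, hb.2]

end TH71
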