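import Pool.Agent.Helper933.TY.Defs
import Pool.Agent.Helper933.TY.P_kerA

set_option autoImplicit false
set_option linter.unusedVariables false

open MeasureTheory

namespace TH71


theorem kerB_set (ε N : ℝ) : MeasurableSet {s : ℝ | ε < |s| ∧ |s| < N} := by
  have h1 : MeasurableSet {s : ℝ | ε < |s|} := measurableSet_lt measurable_const measurable_norm
  have h2 : MeasurableSet {s : ℝ | |s| < N} := measurableSet_lt measurable_norm measurable_const
  exact h1.inter h2

theorem kerB_kap_eq (ε N : ℝ) : kap ε N = Set.indicator {s : ℝ | ε < |s| ∧ |s| < N} (fun s => 1 / s) := by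
  funext s
  unfold kap
  by_cases h : ε < |s| ∧ |s| < N
  · rw [if_pos h, Set.indicator_of_mem (show s ∈ {s : ℝ | ε < |s| ∧ |s| < N} from h)]
  · rw [if_neg h, Set.indicator_of_notMem (show s ∉ {s : ℝ | ε < |s| ∧ |s| < N} from h)]

theorem kerB_kap_meas (ε N : ℝ) : Measurable (kap ε N) := by
  rw [kerB_kap_eq]
  refine Measurable.indicator ?_ (kerB_set ε N)
  simp only [one_div]
  exact measurable_inv

theorem kerB_kap_le (ε N : ℝ) (hε : 0 < ε) (s : ℝ) : |kap ε N s| ≤ 1 / ε := by
  unfold kap
  split_ifs with h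
  · rw [abs_div, abs_one]
    exact one_div_le_one_div_of_le hε h.1.le
  · rw [abs_zero]; positivity

theorem kerB_half (T : ℝ → ℝ) (hT : Continuous T) (R : ℝ) (hR : ∀ s, R < |s| → T s = 0) (B : ℝ)
    (hB : ∀ s, |T s| ≤ B) (ε N : ℝ) (hε : 0 < ε) (hN : ε < N)
    (hL : ∀ a : ℝ, |∫ s in {s : ℝ | ε < |s| ∧ |s| < N}, T (s - a) / s| ≤ B) (a b : ℝ)
    (h2 : |a - b| ≤ N / 2) :
    Integrable (fun s => (if ε < |s + a| ∧ |s + a| < N then (1 : ℝ) else 0) *
      (kap ε N (s + b) * T s)) ∧
    |∫ s : ℝ, (if ε < |s + a| ∧ |s + a| < N then (1 : ℝ) else 0) * (kap ε N (s + b) * T s)| ≤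
      4 * B := by
  have hB0 : 0 ≤ B := (abs_nonneg _).trans (hB 0)
  have hNpos : 0 < N := hε.trans hN
  have hTs : HasCompactSupport T := by
    refine HasCompactSupport.intro (isCompact_Icc (a := -R) (b := R)) (fun s hs => hR s ?_)
    by_contra hc
    push Not at hc
    exact hs (abs_le.1 hc)
  have hTi : Integrable T := hT.integrable_of_hasCompactSupport hTs
  have hkm : Measurable (fun s : ℝ => kap ε N (s + b)) :=
    (kerB_kap_meas ε N).comp (measurable_id.add_const b)
  have hg : Integrable (fun s => kap ε N (s + b) * T s) := by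
    refine hTi.bdd_mul (c := 1 / ε) hkm.aestronglyMeasurable (Filter.Eventually.of_forall (fun s => ?_))
    exact kerB_kap_le ε N hε _
  have hset : MeasurableSet {s : ℝ | ε < |s + a| ∧ |s + a| < N} :=
    (measurable_id.add_const a) (kerB_set ε N)
  have hchi : ∀ s : ℝ, (if ε < |s + a| ∧ |s + a| < N then (1 : ℝ) else 0) * (kap ε N (s + b) * T s) =
      Set.indicator {s : ℝ | ε < |s + a| ∧ |s + a| < N} (fun s => kap ε N (s + b) * T s) s := by
    intro s
    by_cases h : ε < |s + a| ∧ |s + a| < N
    · rw [if_pos h, one_mul,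
        Set.indicator_of_mem (show s ∈ {s : ℝ | ε < |s + a| ∧ |s + a| < N} from h)]
    · rw [if_neg h, zero_mul,
        Set.indicator_of_notMem (show s ∉ {s : ℝ | ε < |s + a| ∧ |s + a| < N} from h)]
  have hci : Integrable (fun s => (if ε < |s + a| ∧ |s + a| < N then (1 : ℝ) else 0) *
      (kap ε N (s + b) * T s)) := by
    rw [funext hchi]
    exact hg.indicator hset
  refine ⟨hci, ?_⟩
  have hgint : |∫ s : ℝ, kap ε N (s + b) * T s| ≤ B := by
    have e1 : ∫ s : ℝ, kap ε N (s + b) * T s = ∫ s : ℝ, kap ε N s * T (s - b) := by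
      rw [← integral_add_right_eq_self (fun s => kap ε N s * T (s - b)) b]
      simp only [add_sub_cancel_right]
    have e2 : ∫ s : ℝ, kap ε N s * T (s - b) =
        ∫ s in {s : ℝ | ε < |s| ∧ |s| < N}, T (s - b) / s := by
      rw [← integral_indicator (kerB_set ε N)]
      refine integral_congr_ae (Filter.Eventually.of_forall (fun s => ?_))
      simp only [kerB_kap_eq]
      by_cases h : s ∈ {s : ℝ | ε < |s| ∧ |s| < N}
      · rw [Set.indicator_of_mem h, Set.indicator_of_mem h]
        ring
      · rw [Set.indicator_of_notMem h, Set.indicator_of_notMem h, zero_mul]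
    rw [e1, e2]
    exact hL b
  set v : ℝ := a - b with hv
  set c : ℝ := if 0 ≤ v then N - a else -N - a + v with hc
  set H : ℝ → ℝ := fun s => Set.indicator (Set.Icc (-a - ε) (-a + ε)) (fun _ => B / ε) s +
    Set.indicator (Set.Icc c (c + |v|)) (fun _ => 2 * B / N) s with hH
  have hHi1 : Integrable (Set.indicator (Set.Icc (-a - ε) (-a + ε)) (fun _ : ℝ => B / ε)) :=
    (integrable_indicator_iff measurableSet_Icc).2 (integrableOn_const (by simp))
  have hHi2 : Integrable (Set.indicator (Set.Icc c (c + |v|)) (fun _ : ℝ => 2 * B / N)) :=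
    (integrable_indicator_iff measurableSet_Icc).2 (integrableOn_const (by simp))
  have hHint : ∫ s, H s ≤ 3 * B := by
    rw [hH, integral_add hHi1 hHi2, integral_indicator_const _ measurableSet_Icc,
      integral_indicator_const _ measurableSet_Icc, Real.volume_real_Icc_of_le (by linarith),
      Real.volume_real_Icc_of_le (by linarith [abs_nonneg v]), smul_eq_mul, smul_eq_mul]
    have e1 : (-a + ε - (-a - ε)) * (B / ε) = 2 * B := by field_simp; ring
    have e2 : (c + |v| - c) * (2 * B / N) ≤ B := by
      have : (c + |v| - c) = |v| := by ring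
      rw [this]
      calc |v| * (2 * B / N) ≤ (N / 2) * (2 * B / N) :=
            mul_le_mul_of_nonneg_right h2 (by positivity)
        _ = B := by field_simp
    linarith
  have hdiff : |∫ s : ℝ, (kap ε N (s + b) * T s -
      (if ε < |s + a| ∧ |s + a| < N then (1 : ℝ) else 0) * (kap ε N (s + b) * T s))| ≤ 3 * B := by
    refine le_trans ?_ hHint
    rw [← Real.norm_eq_abs]
    refine norm_integral_le_of_norm_le (hHi1.add hHi2) (Filter.Eventually.of_forall (fun s => ?_))
    show ‖_‖ ≤ H s
    have hk1 := kerB_kap_le ε N hε (s + b)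
    have hTB := hB s
    have hgB : |kap ε N (s + b) * T s| ≤ B / ε := by
      rw [abs_mul]
      calc |kap ε N (s + b)| * |T s| ≤ (1 / ε) * B :=
            mul_le_mul hk1 hTB (abs_nonneg _) (by positivity)
        _ = B / ε := by ring
    have hn1 : 0 ≤ Set.indicator (Set.Icc (-a - ε) (-a + ε)) (fun _ : ℝ => B / ε) s :=
      Set.indicator_nonneg (fun _ _ => by positivity) _
    have hn2 : 0 ≤ Set.indicator (Set.Icc c (c + |v|)) (fun _ : ℝ => 2 * B / N) s :=
      Set.indicator_nonneg (fun _ _ => by positivity) _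
    by_cases h : ε < |s + a| ∧ |s + a| < N
    · rw [if_pos h, one_mul, sub_self, norm_zero]
      exact add_nonneg hn1 hn2
    · rw [if_neg h, zero_mul, sub_zero, Real.norm_eq_abs]
      by_cases h3 : |s + a| ≤ ε
      · have h4 := abs_le.1 h3
        have h5 : s ∈ Set.Icc (-a - ε) (-a + ε) := ⟨by linarith [h4.1], by linarith [h4.2]⟩
        have h6 : Set.indicator (Set.Icc (-a - ε) (-a + ε)) (fun _ : ℝ => B / ε) s = B / ε :=
          Set.indicator_of_mem h5 _
        simp only [hH]
        rw [h6]
        linarith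
      · push Not at h3
        have h4 : N ≤ |s + a| := by
          by_contra hc'
          push Not at hc'
          exact h ⟨h3, hc'⟩
        by_cases h5 : ε < |s + b| ∧ |s + b| < N
        · have hkap : kap ε N (s + b) = 1 / (s + b) := by unfold kap; exact if_pos h5
          have e0 : s + a = (s + b) + v := by rw [hv]; ring
          have h6 : N / 2 ≤ |s + b| := by
            have := abs_add_le (s + b) v
            rw [← e0] at this
            linarith
          have h7 : |kap ε N (s + b) * T s| ≤ 2 * B / N := by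
            rw [abs_mul, hkap, abs_div, abs_one]
            have h8 : 1 / |s + b| ≤ 2 / N := by
              rw [div_le_div_iff₀ (by linarith) hNpos]
              linarith
            calc 1 / |s + b| * |T s| ≤ (2 / N) * B :=
                  mul_le_mul h8 hTB (abs_nonneg _) (by positivity)
              _ = 2 * B / N := by ring
          have h9 := abs_lt.1 h5.2
          have h10 : s ∈ Set.Icc c (c + |v|) := by
            by_cases hv0 : 0 ≤ v
            · rw [hc, if_pos hv0, abs_of_nonneg hv0]
              rcases le_abs.1 h4 with h11 | h11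
              · exact ⟨by linarith, by rw [hv] at *; linarith [h9.2]⟩
              · exfalso
                rw [e0] at h11
                linarith [h9.1]
            · push Not at hv0
              rw [hc, if_neg (not_le.2 hv0), abs_of_neg hv0]
              rcases le_abs.1 h4 with h11 | h11
              · exfalso
                rw [e0] at h11
                linarith [h9.2]
              · refine ⟨?_, by linarith⟩
                rw [hv]
                linarith [h9.1]
          have h12 : Set.indicator (Set.Icc c (c + |v|)) (fun _ : ℝ => 2 * B / N) s = 2 * B / N :=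
            Set.indicator_of_mem h10 _
          simp only [hH]
          rw [h12]
          linarith
        · have hkap : kap ε N (s + b) = 0 := by unfold kap; exact if_neg h5
          rw [hkap, zero_mul, abs_zero]
          exact add_nonneg hn1 hn2
  rw [integral_sub hg hci] at hdiff
  have h13 := abs_sub_abs_le_abs_sub (∫ s : ℝ, (if ε < |s + a| ∧ |s + a| < N then (1 : ℝ) else 0) *
    (kap ε N (s + b) * T s)) (∫ s : ℝ, kap ε N (s + b) * T s)
  rw [abs_sub_comm] at h13
  linarith

theorem kerB (T : ℝ → ℝ) (hT : Continuous T) (R : ℝ) (hR : ∀ s, R < |s| → T s = 0) (B : ℝ)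
    (hB : ∀ s, |T s| ≤ B) (ε N : ℝ) (hε : 0 < ε) (hN : ε < N)
    (hL : ∀ a : ℝ, |∫ s in {s : ℝ | ε < |s| ∧ |s| < N}, T (s - a) / s| ≤ B) (w w' : ℝ)
    (h1 : 2 * ε ≤ |w - w'|) (h2 : |w - w'| ≤ N / 2) :
    |∫ s : ℝ, kap ε N (s + w) * kap ε N (s + w') * T s| ≤ 8 * B / |w - w'| := by
  obtain ⟨i1, b1⟩ := kerB_half T hT R hR B hB ε N hε hN hL w w' h2
  obtain ⟨i2, b2⟩ := kerB_half T hT R hR B hB ε N hε hN hL w' w (by rw [abs_sub_comm]; exact h2)
  have hv0 : 0 < |w - w'| := by linarith
  have hvne : w - w' ≠ 0 := abs_pos.1 hv0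
  have key : ∀ s : ℝ, (w - w') * (kap ε N (s + w) * kap ε N (s + w') * T s) =
      (if ε < |s + w| ∧ |s + w| < N then (1 : ℝ) else 0) * (kap ε N (s + w') * T s) -
      (if ε < |s + w'| ∧ |s + w'| < N then (1 : ℝ) else 0) * (kap ε N (s + w) * T s) := by
    intro s
    unfold kap
    by_cases h3 : ε < |s + w| ∧ |s + w| < N
    · by_cases h4 : ε < |s + w'| ∧ |s + w'| < N
      · rw [if_pos h3, if_pos h4, if_pos h3, if_pos h4]
        have n1 : s + w ≠ 0 := abs_pos.1 (by linarith [h3.1])
        have n2 : s + w' ≠ 0 := abs_pos.1 (by linarith [h4.1])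
        field_simp
        ring
      · rw [if_pos h3, if_neg h4, if_pos h3, if_neg h4]
        ring
    · by_cases h4 : ε < |s + w'| ∧ |s + w'| < N
      · rw [if_neg h3, if_pos h4, if_neg h3, if_pos h4]
        ring
      · rw [if_neg h3, if_neg h4, if_neg h3, if_neg h4]
        ring
  have hint : (w - w') * ∫ s : ℝ, kap ε N (s + w) * kap ε N (s + w') * T s =
      (∫ s : ℝ, (if ε < |s + w| ∧ |s + w| < N then (1 : ℝ) else 0) * (kap ε N (s + w') * T s)) -
      ∫ s : ℝ, (if ε < |s + w'| ∧ |s + w'| < N then (1 : ℝ) else 0) * (kap ε N (s + w) * T s) := by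
    rw [← integral_const_mul, ← integral_sub i1 i2]
    exact integral_congr_ae (Filter.Eventually.of_forall key)
  rw [le_div_iff₀ hv0, mul_comm, ← abs_mul, hint]
  refine (abs_sub _ _).trans ?_
  linarith

end TH71
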