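import Pool.Agent.Helper933.TY.Defs
import Pool.Agent.Helper933.TY.P_kerA
import Pool.Agent.Helper933.TY.P_kerB

set_option autoImplicit false
set_option linter.unusedVariables false

open MeasureTheory

namespace TH71


theorem kern (T : ℝ → ℝ) (hT : Continuous T) (R : ℝ) (hR : ∀ s, R < |s| → T s = 0) (B : ℝ)
    (hB : ∀ s, |T s| ≤ B) (ε N : ℝ) (hε : 0 < ε) (hN : ε < N)
    (hL : ∀ a : ℝ, |∫ s in {s : ℝ | ε < |s| ∧ |s| < N}, T (s - a) / s| ≤ B) (w w' : ℝ) :
    |∫ s : ℝ, kap ε N (s + w) * kap ε N (s + w') * T s| ≤ 8 * B * rho ε N (w - w') := by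
  have hB0 : 0 ≤ B := (abs_nonneg _).trans (hB 0)
  obtain ⟨k1, k2, k3, k4⟩ := kerA ε N hε hN w w'
  have hgen : |∫ s : ℝ, kap ε N (s + w) * kap ε N (s + w') * T s| ≤
      B * ∫ s : ℝ, |kap ε N (s + w) * kap ε N (s + w')| := by
    rw [← integral_const_mul]
    have hk := norm_integral_le_of_norm_le (μ := (volume : Measure ℝ))
      (f := fun s : ℝ => kap ε N (s + w) * kap ε N (s + w') * T s)
      (g := fun s : ℝ => B * |kap ε N (s + w) * kap ε N (s + w')|) (k1.abs.const_mul B)
      (Filter.Eventually.of_forall fun s => by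
        show ‖kap ε N (s + w) * kap ε N (s + w') * T s‖ ≤
          B * |kap ε N (s + w) * kap ε N (s + w')|
        rw [Real.norm_eq_abs, abs_mul, mul_comm]
        exact mul_le_mul_of_nonneg_right (hB s) (abs_nonneg _))
    rw [Real.norm_eq_abs] at hk
    exact hk
  unfold rho
  by_cases c1 : |w - w'| < 2 * ε
  · rw [if_pos c1]
    have h2 := mul_le_mul_of_nonneg_left (k2 c1) hB0
    have h3 : B * (2 / ε) ≤ 8 * B * (1 / ε) := by
      have h4 : B * (2 / ε) = 2 * B * (1 / ε) := by ring
      rw [h4]
      exact mul_le_mul_of_nonneg_right (by linarith) (by positivity)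
    linarith
  · rw [if_neg c1]
    push Not at c1
    have hv : 0 < |w - w'| := by linarith
    by_cases c2 : |w - w'| < 2 * N
    · rw [if_pos c2]
      by_cases c3 : |w - w'| ≤ N / 2
      · rw [if_pos c3]
        have h2 := kerB T hT R hR B hB ε N hε hN hL w w' c1 c3
        rw [mul_one_div]
        exact h2
      · rw [if_neg c3]
        have h2 := mul_le_mul_of_nonneg_left (k3 c1) hB0
        have hlog : 0 ≤ Real.log (N / ε) := by
          refine Real.log_nonneg ?_
          rw [le_div_iff₀ hε]
          linarith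
        have h3 : B * (4 * Real.log (N / ε) / |w - w'|) ≤
            8 * B * ((1 + Real.log (N / ε)) / |w - w'|) := by
          rw [← mul_div_assoc, ← mul_div_assoc]
          refine div_le_div_of_nonneg_right ?_ hv.le
          have h5 := mul_nonneg hB0 hlog
          nlinarith
        linarith
    · rw [if_neg c2, mul_zero]
      push Not at c2
      have h2 : ∀ s : ℝ, kap ε N (s + w) * kap ε N (s + w') * T s = 0 := fun s => by
        rw [k4 c2 s, zero_mul]
      simp only [h2, integral_zero, abs_zero, le_refl]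

end TH71
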