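import Pool.Agent.Helper933.TY.Defs

set_option autoImplicit false
set_option linter.unusedVariables false

open MeasureTheory

namespace TH71


theorem slice_cs (F : ℝ × ℝ × ℝ → ℝ) (hF : HasCompactSupport F) (ι : ℝ × ℝ → ℝ × ℝ × ℝ)
    (π : ℝ × ℝ × ℝ → ℝ × ℝ) (hπ : Continuous π) (h : ∀ p, π (ι p) = p) :
    HasCompactSupport (fun p => F (ι p)) := by
  refine HasCompactSupport.intro (hF.isCompact.image hπ) ?_
  intro p hp
  by_contra hne
  exact hp ⟨ι p, subset_tsupport _ hne, h p⟩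

theorem slice_mul (F : ℝ × ℝ × ℝ → ℝ) (hc : Continuous F) (hF : HasCompactSupport F)
    (ι ι' : ℝ × ℝ → ℝ × ℝ × ℝ) (hι : Continuous ι) (hι' : Continuous ι')
    (π : ℝ × ℝ × ℝ → ℝ × ℝ) (hπ : Continuous π) (h : ∀ p, π (ι p) = p) :
    Continuous (fun p => F (ι p) * F (ι' p)) ∧ HasCompactSupport (fun p => F (ι p) * F (ι' p)) := by
  refine ⟨(hc.comp hι).mul (hc.comp hι'), ?_⟩
  exact (slice_cs F hF ι π hπ h).mul_right

theorem sl2 (g h k : ℝ → ℝ → ℝ → ℝ) (hg : tzT3 g) (hh : tzT3 h) (hk : tzT3 k) (w w' : ℝ) :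
    tzT (K2 k w w') ∧ tzT (G2 g w w') ∧ tzT (H2 h w w') := by
  refine ⟨?_, ?_, ?_⟩
  · exact slice_mul (fun p : ℝ × ℝ × ℝ => k p.1 p.2.1 p.2.2) hk.1 hk.2
      (fun p => (w, p.1, p.2)) (fun p => (w', p.1, p.2)) (by fun_prop) (by fun_prop)
      (fun q => (q.2.1, q.2.2)) (by fun_prop) (fun p => rfl)
  · exact slice_mul (fun p : ℝ × ℝ × ℝ => g p.1 p.2.1 p.2.2) hg.1 hg.2
      (fun p => (p.1, p.2, w)) (fun p => (p.1, p.2, w')) (by fun_prop) (by fun_prop)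
      (fun q => (q.1, q.2.1)) (by fun_prop) (fun p => rfl)
  · exact slice_mul (fun p : ℝ × ℝ × ℝ => h p.1 p.2.1 p.2.2) hh.1 hh.2
      (fun p => (p.1, w, p.2)) (fun p => (p.1, w', p.2)) (by fun_prop) (by fun_prop)
      (fun q => (q.1, q.2.2)) (by fun_prop) (fun p => rfl)

end TH71
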