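import Pool.Agent.Helper933.TY.Defs
import Pool.Agent.Helper933.TY.P_TT_cont
import Pool.Agent.Helper933.TY.P_TT_supp
import Pool.Agent.Helper933.TY.P_TT_bd
import Pool.Agent.Helper933.TY.P_kern
import Pool.Agent.Helper933.TY.P_L3sh
import Pool.Agent.Helper933.TY.P_sl2

set_option autoImplicit false
set_option linter.unusedVariables false

open MeasureTheory

namespace TH71


theorem bw (g h k : ℝ → ℝ → ℝ → ℝ) (hg : tzT3 g) (hh : tzT3 h) (hk : tzT3 k)
    (ε N : ℝ) (hε : 0 < ε) (hN : ε < N) (w w' : ℝ) :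
    |∫ s : ℝ, kap ε N (s + w) * kap ε N (s + w') *
        tzTT (K2 k w w') (G2 g w w') (H2 h w w') s| ≤
      2400000000 * (tzN (K2 k w w') + tzN (G2 g w w') + tzN (H2 h w w')) * rho ε N (w - w') := by
  obtain ⟨hK, hG, hH⟩ := sl2 g h k hg hh hk w w'
  have hS0 : ∀ f : ℝ → ℝ → ℝ, 0 ≤ tzN f := by
    intro f
    unfold tzN
    exact integral_nonneg (fun p => by positivity)
  have h1 := hS0 (K2 k w w')
  have h2 := hS0 (G2 g w w')
  have h3 := hS0 (H2 h w w')
  obtain ⟨R, hR0, hR⟩ := TT_supp _ _ _ hK hG hH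
  have hmain := kern (tzTT (K2 k w w') (G2 g w w') (H2 h w w')) (TT_cont _ _ _ hK hG hH) R hR
    (300000000 * (tzN (K2 k w w') + tzN (G2 g w w') + tzN (H2 h w w')))
    (fun s => (TT_bd _ _ _ hK hG hH s).trans (by linarith)) ε N hε hN
    (fun a => L3sh _ _ _ hK hG hH ε N hε hN a) w w'
  refine hmain.trans (le_of_eq ?_)
  ring

end TH71
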