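import Pool.Agent.Helper933.TY.Defs

set_option autoImplicit false
set_option linter.unusedVariables false

open MeasureTheory

namespace TH71


theorem rhoint (ε N : ℝ) (hε : 0 < ε) (hN : ε < N) :
    (∀ v, 0 ≤ rho ε N v) ∧ Integrable (rho ε N) ∧
    ∫ v : ℝ, rho ε N v ≤ 20 * (1 + Real.log (N / ε)) := by
  have hN0 : 0 < N := hε.trans hN
  have hL : 0 < Real.log (N / ε) := Real.log_pos ((one_lt_div hε).mpr hN)
  obtain ⟨L, hLdef⟩ : ∃ L, L = Real.log (N / ε) := ⟨_, rfl⟩
  rw [← hLdef] at hL ⊢
  have hrho : ∀ v, rho ε N v = if |v| < 2 * ε then 1 / ε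
      else if |v| < 2 * N then (if |v| ≤ N / 2 then 1 / |v| else (1 + L) / |v|) else 0 := by
    intro v; rw [hLdef]; rfl
  have hnn : ∀ v, 0 ≤ rho ε N v := by
    intro v
    rw [hrho]
    split_ifs <;> positivity
  have hmeas : Measurable (rho ε N) := by
    have : rho ε N = fun v => if |v| < 2 * ε then 1 / ε
      else if |v| < 2 * N then (if |v| ≤ N / 2 then 1 / |v| else (1 + L) / |v|) else 0 :=
      funext hrho
    rw [this]
    have ha : Measurable (fun v : ℝ => |v|) := measurable_id.abs
    refine Measurable.ite (measurableSet_lt ha measurable_const) measurable_const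
      (Measurable.ite (measurableSet_lt ha measurable_const)
        (Measurable.ite (measurableSet_le ha measurable_const) ?_ ?_) measurable_const)
    · exact measurable_const.div ha
    · exact measurable_const.div ha
  have hint : Integrable (rho ε N) := by
    have hI : Integrable ((Set.Icc (-(2 * N)) (2 * N)).indicator
        (fun _ : ℝ => (1 + L) / ε)) := by
      rw [integrable_indicator_iff measurableSet_Icc]
      exact integrableOn_const (by simp) (by simp)
    refine hI.mono' hmeas.aestronglyMeasurable (Filter.Eventually.of_forall fun v => ?_)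
    rw [Real.norm_of_nonneg (hnn v)]
    by_cases hv : |v| < 2 * N
    · have hmem : v ∈ Set.Icc (-(2 * N)) (2 * N) :=
        ⟨(abs_lt.mp hv).1.le, (abs_lt.mp hv).2.le⟩
      rw [Set.indicator_of_mem hmem, hrho]
      split_ifs with h1 h3
      · gcongr
        linarith
      · push Not at h1
        have : ε ≤ |v| := by linarith
        gcongr
        linarith
      · push Not at h1
        have : ε ≤ |v| := by linarith
        gcongr
    · have h1 : ¬ |v| < 2 * ε := fun h => hv (by linarith)
      rw [hrho, if_neg h1, if_neg hv]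
      exact Set.indicator_nonneg (fun _ _ => by positivity) _
  refine ⟨hnn, hint, ?_⟩
  have habs : ∫ v : ℝ, rho ε N v = 2 * ∫ v in Set.Ioi (0:ℝ), rho ε N v := by
    rw [← integral_comp_abs]
    refine integral_congr_ae (Filter.Eventually.of_forall fun v => ?_)
    simp only [hrho, abs_abs]
  have i1 : IntegrableOn ((Set.Ioc 0 (2 * ε)).indicator (fun _ : ℝ => 1 / ε))
      (Set.Ioi (0:ℝ)) := by
    apply Integrable.integrableOn
    rw [integrable_indicator_iff measurableSet_Ioc]
    exact integrableOn_const measure_Ioc_lt_top.ne (by simp)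
  have i2 : IntegrableOn ((Set.Ioc ε N).indicator (fun u : ℝ => 1 / u))
      (Set.Ioi (0:ℝ)) := by
    apply Integrable.integrableOn
    rw [integrable_indicator_iff measurableSet_Ioc, ← intervalIntegrable_iff_integrableOn_Ioc_of_le hN.le]
    apply intervalIntegral.intervalIntegrable_one_div
    · intro u hu
      rw [Set.uIcc_of_le hN.le] at hu
      have := hu.1
      intro h
      linarith
    · exact continuousOn_id
  have i3 : IntegrableOn ((Set.Ioc 0 (2 * N)).indicator (fun _ : ℝ => 2 * (1 + L) / N))
      (Set.Ioi (0:ℝ)) := by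
    apply Integrable.integrableOn
    rw [integrable_indicator_iff measurableSet_Ioc]
    exact integrableOn_const measure_Ioc_lt_top.ne (by simp)
  have v1 : ∫ u in Set.Ioi (0:ℝ), (Set.Ioc 0 (2 * ε)).indicator (fun _ : ℝ => 1 / ε) u = 2 := by
    rw [setIntegral_indicator measurableSet_Ioc, Set.inter_eq_right.mpr (fun u hu => hu.1),
      ← intervalIntegral.integral_of_le (by positivity), intervalIntegral.integral_const,
      smul_eq_mul]
    field_simp
    ring
  have v2 : ∫ u in Set.Ioi (0:ℝ), (Set.Ioc ε N).indicator (fun u : ℝ => 1 / u) u = L := by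
    have hsub : Set.Ioc ε N ⊆ Set.Ioi (0:ℝ) := fun u hu => hε.trans hu.1
    rw [setIntegral_indicator measurableSet_Ioc, Set.inter_eq_right.mpr hsub,
      ← intervalIntegral.integral_of_le hN.le, integral_one_div_of_pos hε hN0, hLdef]
  have v3 : ∫ u in Set.Ioi (0:ℝ), (Set.Ioc 0 (2 * N)).indicator
      (fun _ : ℝ => 2 * (1 + L) / N) u = 4 * (1 + L) := by
    rw [setIntegral_indicator measurableSet_Ioc, Set.inter_eq_right.mpr (fun u hu => hu.1),
      ← intervalIntegral.integral_of_le (by positivity), intervalIntegral.integral_const,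
      smul_eq_mul]
    field_simp
    ring
  have hle : ∫ v in Set.Ioi (0:ℝ), rho ε N v ≤ 2 + L + 4 * (1 + L) := by
    calc ∫ v in Set.Ioi (0:ℝ), rho ε N v
        ≤ ∫ u in Set.Ioi (0:ℝ), (((Set.Ioc 0 (2 * ε)).indicator (fun _ : ℝ => 1 / ε) u +
          (Set.Ioc ε N).indicator (fun u : ℝ => 1 / u) u) +
          (Set.Ioc 0 (2 * N)).indicator (fun _ : ℝ => 2 * (1 + L) / N) u) := by
          refine setIntegral_mono_on hint.integrableOn ((i1.add i2).add i3) measurableSet_Ioi
            fun u hu => ?_
          have hu0 : 0 < u := hu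
          have n1 : 0 ≤ (Set.Ioc 0 (2 * ε)).indicator (fun _ : ℝ => 1 / ε) u :=
            Set.indicator_nonneg (fun _ _ => by positivity) _
          have n2 : 0 ≤ (Set.Ioc ε N).indicator (fun u : ℝ => 1 / u) u := by
            by_cases h : u ∈ Set.Ioc ε N
            · rw [Set.indicator_of_mem h]; positivity
            · rw [Set.indicator_of_notMem h]
          have n3 : 0 ≤ (Set.Ioc 0 (2 * N)).indicator (fun _ : ℝ => 2 * (1 + L) / N) u :=
            Set.indicator_nonneg (fun _ _ => by positivity) _
          rw [hrho, abs_of_pos hu0]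
          split_ifs with h1 h2 h3
          · rw [Set.indicator_of_mem (show u ∈ Set.Ioc 0 (2 * ε) from ⟨hu0, h1.le⟩)]
            linarith
          · push Not at h1
            rw [Set.indicator_of_mem (show u ∈ Set.Ioc ε N from ⟨by linarith, by linarith⟩)]
            linarith
          · push Not at h3
            rw [Set.indicator_of_mem (show u ∈ Set.Ioc 0 (2 * N) from ⟨hu0, h2.le⟩)]
            have : (1 + L) / u ≤ 2 * (1 + L) / N := by
              rw [div_le_div_iff₀ hu0 hN0]
              nlinarith
            linarith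
          · linarith
      _ = 2 + L + 4 * (1 + L) := by
          have w1 := integral_add (i1.add i2) i3
          have w2 := integral_add i1 i2
          simp only [Pi.add_apply] at w1
          rw [w1, w2, v1, v2, v3]
  rw [habs]
  linarith

end TH71
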