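import Pool.Agent.Helper933.TY.Defs
import Pool.Agent.Helper933.TY.P_sl2

set_option autoImplicit false
set_option linter.unusedVariables false

open MeasureTheory

namespace TH71


theorem wg_slice (Φ : ℝ × (ℝ × ℝ) → ℝ) (hs : HasCompactSupport Φ) (w : ℝ) :
    HasCompactSupport (fun p : ℝ × ℝ => Φ (w, p)) := by
  refine HasCompactSupport.intro (K := Prod.snd '' (tsupport Φ))
    (hs.isCompact.image continuous_snd) (fun p hp => ?_)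
  by_contra h
  exact hp ⟨(w,p), subset_tsupport _ h, rfl⟩

theorem wg_conv (B r : ℝ → ℝ) (hB : Integrable B) (hr : Integrable r) :
    Integrable (fun q : ℝ × ℝ => B q.2 * r (q.1 - q.2)) ∧
    ∫ q : ℝ × ℝ, B q.2 * r (q.1 - q.2) = (∫ v, B v) * ∫ v, r v := by
  have h : Integrable (fun q : ℝ × ℝ => B q.2 * r (q.1 - q.2)) :=
    MeasureTheory.Integrable.convolution_integrand (ContinuousLinearMap.mul ℝ ℝ) hB hr
  refine ⟨h, ?_⟩
  have h2 := integral_convolution (μ := volume) (ν := volume) (ContinuousLinearMap.mul ℝ ℝ) hB hr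
  rw [Measure.volume_eq_prod] at h ⊢
  rw [integral_prod _ h]
  exact h2

theorem wg_conv' (B r : ℝ → ℝ) (hB : Integrable B) (hr : Integrable r) :
    Integrable (fun q : ℝ × ℝ => B q.1 * r (q.1 - q.2)) ∧
    ∫ q : ℝ × ℝ, B q.1 * r (q.1 - q.2) = (∫ v, B v) * ∫ v, r v := by
  obtain ⟨h1, h2⟩ := wg_conv B (fun v => r (-v)) hB hr.comp_neg
  rw [integral_neg_eq_self r volume] at h2
  rw [Measure.volume_eq_prod] at h1 h2 ⊢
  have e : (fun q : ℝ × ℝ => B q.1 * r (q.1 - q.2)) =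
      (fun q : ℝ × ℝ => B q.2 * r (-(q.1 - q.2))) ∘ Prod.swap := by
    funext q
    simp
  constructor
  · rw [e]
    exact h1.swap
  · rw [← h2, e]
    exact integral_prod_swap (fun q : ℝ × ℝ => B q.2 * r (-(q.1 - q.2)))

theorem wg_gen (Φ : ℝ × (ℝ × ℝ) → ℝ) (hc : Continuous Φ) (hs : HasCompactSupport Φ)
    (r : ℝ → ℝ) (hr0 : ∀ v, 0 ≤ r v) (hr : Integrable r) :
    Integrable (fun q : ℝ × ℝ =>
      (∫ p : ℝ × ℝ, |Φ (q.1, p) * Φ (q.2, p)| ^ 3) * r (q.1 - q.2)) ∧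
    ∫ q : ℝ × ℝ, (∫ p : ℝ × ℝ, |Φ (q.1, p) * Φ (q.2, p)| ^ 3) * r (q.1 - q.2) ≤
      (∫ v : ℝ, r v) * ∫ x : ℝ × ℝ × ℝ, |Φ x| ^ 6 := by
  have hs6 : HasCompactSupport (fun x => |Φ x| ^ 6) :=
    hs.comp_left (g := fun t : ℝ => |t| ^ 6) (by simp)
  have hc6 : Continuous (fun x => |Φ x| ^ 6) := (hc.abs).pow 6
  have hi6 : Integrable (fun x => |Φ x| ^ 6) := hc6.integrable_of_hasCompactSupport hs6
  obtain ⟨B, hB⟩ : ∃ B : ℝ → ℝ, B = fun w => ∫ p : ℝ × ℝ, |Φ (w, p)| ^ 6 := ⟨_, rfl⟩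
  have hi6' : Integrable (fun x => |Φ x| ^ 6) ((volume : Measure ℝ).prod (volume : Measure (ℝ × ℝ))) := by
    rw [← Measure.volume_eq_prod]; exact hi6
  have hBi : Integrable B := by
    rw [hB]
    exact hi6'.integral_prod_left
  have hBe : ∫ w, B w = ∫ x : ℝ × ℝ × ℝ, |Φ x| ^ 6 := by
    rw [hB, Measure.volume_eq_prod ℝ (ℝ × ℝ), integral_prod _ hi6']
  have hB0 : ∀ w, 0 ≤ B w := by
    intro w
    rw [hB]
    exact integral_nonneg fun p => by positivity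
  have hsl : ∀ w, Integrable (fun p : ℝ × ℝ => |Φ (w, p)| ^ 6) := by
    intro w
    have h1 := wg_slice Φ hs w
    have h2 : Continuous (fun p : ℝ × ℝ => Φ (w, p)) := hc.comp (by fun_prop)
    have h3 : HasCompactSupport (fun p : ℝ × ℝ => |Φ (w, p)| ^ 6) :=
      h1.comp_left (g := fun t : ℝ => |t| ^ 6) (by simp)
    have h4 : Continuous (fun p : ℝ × ℝ => |Φ (w, p)| ^ 6) := (h2.abs).pow 6
    exact h4.integrable_of_hasCompactSupport h3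
  have hA : ∀ w w', ∫ p : ℝ × ℝ, |Φ (w, p) * Φ (w', p)| ^ 3 ≤ (1/2) * (B w + B w') := by
    intro w w'
    rw [hB]
    simp only
    rw [← integral_add (hsl w) (hsl w'), ← integral_const_mul]
    refine integral_mono_of_nonneg (Filter.Eventually.of_forall fun p => by positivity)
      (((hsl w).add (hsl w')).const_mul _) (Filter.Eventually.of_forall fun p => ?_)
    simp only [Pi.add_apply]
    rw [abs_mul, mul_pow]
    have h3 := sq_nonneg (|Φ (w, p)| ^ 3 - |Φ (w', p)| ^ 3)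
    nlinarith
  have hA0 : ∀ w w', 0 ≤ ∫ p : ℝ × ℝ, |Φ (w, p) * Φ (w', p)| ^ 3 :=
    fun w w' => integral_nonneg fun p => by positivity
  obtain ⟨c1, d1⟩ := wg_conv B r hBi hr
  obtain ⟨c2, d2⟩ := wg_conv' B r hBi hr
  have hdom : Integrable (fun q : ℝ × ℝ => (1/2) * (B q.1 * r (q.1 - q.2) + B q.2 * r (q.1 - q.2))) :=
    (c2.add c1).const_mul _
  have hmeas : AEStronglyMeasurable (fun q : ℝ × ℝ =>
      (∫ p : ℝ × ℝ, |Φ (q.1, p) * Φ (q.2, p)| ^ 3) * r (q.1 - q.2)) volume := by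
    refine AEStronglyMeasurable.mul ?_ ?_
    · have h5 : Continuous (fun x : (ℝ × ℝ) × (ℝ × ℝ) => |Φ (x.1.1, x.2) * Φ (x.1.2, x.2)| ^ 3) := by
        have e1 : Continuous (fun x : (ℝ × ℝ) × (ℝ × ℝ) => Φ (x.1.1, x.2)) := hc.comp (by fun_prop)
        have e2 : Continuous (fun x : (ℝ × ℝ) × (ℝ × ℝ) => Φ (x.1.2, x.2)) := hc.comp (by fun_prop)
        exact ((e1.mul e2).abs).pow 3
      exact (h5.stronglyMeasurable.integral_prod_right').aestronglyMeasurable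
    · rw [Measure.volume_eq_prod]
      exact (hr.1.comp_quasiMeasurePreserving
        (quasiMeasurePreserving_sub_of_right_invariant volume volume))
  have hle : ∀ q : ℝ × ℝ, (∫ p : ℝ × ℝ, |Φ (q.1, p) * Φ (q.2, p)| ^ 3) * r (q.1 - q.2) ≤
      (1/2) * (B q.1 * r (q.1 - q.2) + B q.2 * r (q.1 - q.2)) := by
    intro q
    have := mul_le_mul_of_nonneg_right (hA q.1 q.2) (hr0 (q.1 - q.2))
    linarith
  have hint : Integrable (fun q : ℝ × ℝ =>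
      (∫ p : ℝ × ℝ, |Φ (q.1, p) * Φ (q.2, p)| ^ 3) * r (q.1 - q.2)) := by
    refine hdom.mono' hmeas (Filter.Eventually.of_forall fun q => ?_)
    rw [Real.norm_eq_abs, abs_of_nonneg (mul_nonneg (hA0 _ _) (hr0 _))]
    exact hle q
  refine ⟨hint, (integral_mono hint hdom hle).trans ?_⟩
  rw [integral_const_mul, integral_add c2 c1, d1, d2, hBe]
  linarith

theorem wint (g h k : ℝ → ℝ → ℝ → ℝ) (hg : tzT3 g) (hh : tzT3 h) (hk : tzT3 k)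
    (r : ℝ → ℝ) (hr0 : ∀ v, 0 ≤ r v) (hr : Integrable r) :
    Integrable (fun q : ℝ × ℝ =>
      (tzN (K2 k q.1 q.2) + tzN (G2 g q.1 q.2) + tzN (H2 h q.1 q.2)) * r (q.1 - q.2)) ∧
    ∫ q : ℝ × ℝ, (tzN (K2 k q.1 q.2) + tzN (G2 g q.1 q.2) + tzN (H2 h q.1 q.2)) * r (q.1 - q.2) ≤
      (∫ v : ℝ, r v) * (N6 k + N6 g + N6 h) := by
  -- k
  obtain ⟨k1, k2⟩ := wg_gen (fun p : ℝ × ℝ × ℝ => k p.1 p.2.1 p.2.2) hk.1 hk.2 r hr0 hr
  -- g
  let eg : (ℝ × (ℝ × ℝ)) ≃ₜ (ℝ × (ℝ × ℝ)) :=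
    (Homeomorph.prodComm ℝ (ℝ × ℝ)).trans (Homeomorph.prodAssoc ℝ ℝ ℝ)
  have heg : ∀ x, eg x = (x.2.1, (x.2.2, x.1)) := fun x => rfl
  have meg : MeasurePreserving (fun x : ℝ × (ℝ × ℝ) => (x.2.1, (x.2.2, x.1))) volume volume := by
    have h1 : MeasurePreserving (Prod.swap : ℝ × (ℝ × ℝ) → (ℝ × ℝ) × ℝ) volume volume :=
      Measure.measurePreserving_swap
    have h2 : MeasurePreserving (MeasurableEquiv.prodAssoc : (ℝ × ℝ) × ℝ ≃ᵐ ℝ × (ℝ × ℝ)) volume volume :=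
      volume_preserving_prodAssoc
    exact h2.comp h1
  let eh : (ℝ × (ℝ × ℝ)) ≃ₜ (ℝ × (ℝ × ℝ)) :=
    ((Homeomorph.prodAssoc ℝ ℝ ℝ).symm.trans
      ((Homeomorph.prodComm ℝ ℝ).prodCongr (Homeomorph.refl ℝ))).trans (Homeomorph.prodAssoc ℝ ℝ ℝ)
  have heh : ∀ x, eh x = (x.2.1, (x.1, x.2.2)) := fun x => rfl
  have meh : MeasurePreserving (fun x : ℝ × (ℝ × ℝ) => (x.2.1, (x.1, x.2.2))) volume volume := by
    have h2 : MeasurePreserving (MeasurableEquiv.prodAssoc : (ℝ × ℝ) × ℝ ≃ᵐ ℝ × (ℝ × ℝ)) volume volume :=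
      volume_preserving_prodAssoc
    have h1 : MeasurePreserving (Prod.map (Prod.swap : ℝ × ℝ → ℝ × ℝ) (id : ℝ → ℝ))
        (volume : Measure ((ℝ × ℝ) × ℝ)) volume :=
      (Measure.measurePreserving_swap (μ := (volume : Measure ℝ)) (ν := (volume : Measure ℝ))).prod
        (MeasurePreserving.id (volume : Measure ℝ))
    exact (h2.comp h1).comp h2.symm
  obtain ⟨g1, g2⟩ := wg_gen ((fun p : ℝ × ℝ × ℝ => g p.1 p.2.1 p.2.2) ∘ eg)
    (hg.1.comp eg.continuous) (hg.2.comp_homeomorph eg) r hr0 hr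
  obtain ⟨h1, h2⟩ := wg_gen ((fun p : ℝ × ℝ × ℝ => h p.1 p.2.1 p.2.2) ∘ eh)
    (hh.1.comp eh.continuous) (hh.2.comp_homeomorph eh) r hr0 hr
  have hg6 : ∫ x : ℝ × ℝ × ℝ, |((fun p : ℝ × ℝ × ℝ => g p.1 p.2.1 p.2.2) ∘ eg) x| ^ 6 = N6 g := by
    unfold N6
    have hme : MeasurableEmbedding (fun x : ℝ × (ℝ × ℝ) => (x.2.1, (x.2.2, x.1))) :=
      eg.measurableEmbedding
    exact meg.integral_comp hme (fun p : ℝ × ℝ × ℝ => |g p.1 p.2.1 p.2.2| ^ 6)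
  have hh6 : ∫ x : ℝ × ℝ × ℝ, |((fun p : ℝ × ℝ × ℝ => h p.1 p.2.1 p.2.2) ∘ eh) x| ^ 6 = N6 h := by
    unfold N6
    have hme : MeasurableEmbedding (fun x : ℝ × (ℝ × ℝ) => (x.2.1, (x.1, x.2.2))) :=
      eh.measurableEmbedding
    exact meh.integral_comp hme (fun p : ℝ × ℝ × ℝ => |h p.1 p.2.1 p.2.2| ^ 6)
  rw [hg6] at g2
  rw [hh6] at h2
  have k1' : Integrable (fun q : ℝ × ℝ => tzN (K2 k q.1 q.2) * r (q.1 - q.2)) := k1
  have k2' : ∫ q : ℝ × ℝ, tzN (K2 k q.1 q.2) * r (q.1 - q.2) ≤ (∫ v : ℝ, r v) * N6 k := k2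
  have g1' : Integrable (fun q : ℝ × ℝ => tzN (G2 g q.1 q.2) * r (q.1 - q.2)) := g1
  have g2' : ∫ q : ℝ × ℝ, tzN (G2 g q.1 q.2) * r (q.1 - q.2) ≤ (∫ v : ℝ, r v) * N6 g := g2
  have h1' : Integrable (fun q : ℝ × ℝ => tzN (H2 h q.1 q.2) * r (q.1 - q.2)) := h1
  have h2' : ∫ q : ℝ × ℝ, tzN (H2 h q.1 q.2) * r (q.1 - q.2) ≤ (∫ v : ℝ, r v) * N6 h := h2
  have e : (fun q : ℝ × ℝ =>
      (tzN (K2 k q.1 q.2) + tzN (G2 g q.1 q.2) + tzN (H2 h q.1 q.2)) * r (q.1 - q.2)) =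
      fun q : ℝ × ℝ => (tzN (K2 k q.1 q.2) * r (q.1 - q.2) + tzN (G2 g q.1 q.2) * r (q.1 - q.2)) +
        tzN (H2 h q.1 q.2) * r (q.1 - q.2) := by
    funext q
    ring
  rw [e]
  refine ⟨(k1'.add g1').add h1', ?_⟩
  have e2 : ∫ q : ℝ × ℝ, ((tzN (K2 k q.1 q.2) * r (q.1 - q.2) + tzN (G2 g q.1 q.2) * r (q.1 - q.2)) +
        tzN (H2 h q.1 q.2) * r (q.1 - q.2)) =
      (∫ q : ℝ × ℝ, tzN (K2 k q.1 q.2) * r (q.1 - q.2)) +
      (∫ q : ℝ × ℝ, tzN (G2 g q.1 q.2) * r (q.1 - q.2)) +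
      ∫ q : ℝ × ℝ, tzN (H2 h q.1 q.2) * r (q.1 - q.2) := by
    rw [← integral_add k1' g1']
    exact integral_add (k1'.add g1') h1'
  rw [e2]
  linarith

end TH71
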