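import Pool.Agent.Helper933.TY.Defs
import Pool.Agent.Helper933.TY.P_sl2
import Pool.Agent.Helper933.TY.P_bw
import Pool.Agent.Helper933.TY.P_MMsq
import Pool.Agent.Helper933.TY.P_rhoint
import Pool.Agent.Helper933.TY.P_wint

set_option autoImplicit false
set_option linter.unusedVariables false

open MeasureTheory

namespace TH71


theorem MMsum (g h k : ℝ → ℝ → ℝ → ℝ) (hg : tzT3 g) (hh : tzT3 h) (hk : tzT3 k)
    (ε N : ℝ) (hε : 0 < ε) (hN : ε < N) :
    ∫ x : ℝ × ℝ × ℝ, (MM g h k ε N x) ^ 2 ≤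
      48000000000 * (1 + Real.log (N / ε)) * (N6 g + N6 h + N6 k) := by
  rw [MMsq g h k hg hh hk ε N hε hN]
  obtain ⟨hr0, hr1, hr2⟩ := rhoint ε N hε hN
  obtain ⟨hw1, hw2⟩ := wint g h k hg hh hk (rho ε N) hr0 hr1
  have hN6 : ∀ f : ℝ → ℝ → ℝ → ℝ, 0 ≤ N6 f := fun f => by
    unfold N6
    exact integral_nonneg fun p => by positivity
  have h1 : ‖∫ q : ℝ × ℝ, ∫ s : ℝ, kap ε N (s + q.1) * kap ε N (s + q.2) *
        tzTT (K2 k q.1 q.2) (G2 g q.1 q.2) (H2 h q.1 q.2) s‖ ≤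
      ∫ q : ℝ × ℝ, 2400000000 *
        ((tzN (K2 k q.1 q.2) + tzN (G2 g q.1 q.2) + tzN (H2 h q.1 q.2)) * rho ε N (q.1 - q.2)) := by
    refine norm_integral_le_of_norm_le (hw1.const_mul 2400000000) ?_
    refine Filter.Eventually.of_forall fun q => ?_
    have := bw g h k hg hh hk ε N hε hN q.1 q.2
    rw [Real.norm_eq_abs, ← mul_assoc]
    exact this
  rw [MeasureTheory.integral_const_mul] at h1
  have h2 := (Real.le_norm_self _).trans h1
  refine h2.trans ?_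
  have h3 : (∫ v : ℝ, rho ε N v) * (N6 k + N6 g + N6 h) ≤
      20 * (1 + Real.log (N / ε)) * (N6 k + N6 g + N6 h) :=
    mul_le_mul_of_nonneg_right hr2 (add_nonneg (add_nonneg (hN6 k) (hN6 g)) (hN6 h))
  have h4 := hw2.trans h3
  calc 2400000000 * ∫ q : ℝ × ℝ,
        (tzN (K2 k q.1 q.2) + tzN (G2 g q.1 q.2) + tzN (H2 h q.1 q.2)) * rho ε N (q.1 - q.2)
      ≤ 2400000000 * (20 * (1 + Real.log (N / ε)) * (N6 k + N6 g + N6 h)) := by
        exact mul_le_mul_of_nonneg_left h4 (by norm_num)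
    _ = 48000000000 * (1 + Real.log (N / ε)) * (N6 g + N6 h + N6 k) := by ring

end TH71
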