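import Pool.Agent.Helper933.TY.Defs
import Pool.Agent.Helper933.TY.P_homog
import Pool.Agent.Helper933.TY.P_MMsum

set_option autoImplicit false
set_option linter.unusedVariables false

open MeasureTheory

namespace TH71


theorem tyT3_smulM (g : ℝ → ℝ → ℝ → ℝ) (hg : tzT3 g) (c : ℝ) : tzT3 (fun x y z => c * g x y z) :=
  ⟨hg.1.const_mul c, hg.2.mul_left⟩

theorem N6_smul (g : ℝ → ℝ → ℝ → ℝ) (u : ℝ) (hu : 0 < u) :
    N6 (fun x y z => Real.sqrt u * g x y z) = u ^ 3 * N6 g := by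
  unfold N6
  rw [← integral_const_mul]
  refine integral_congr_ae (Filter.Eventually.of_forall (fun p => ?_))
  show |Real.sqrt u * g p.1 p.2.1 p.2.2| ^ 6 = u ^ 3 * |g p.1 p.2.1 p.2.2| ^ 6
  rw [abs_mul, mul_pow, abs_of_nonneg (Real.sqrt_nonneg u)]
  have h : Real.sqrt u ^ 6 = u ^ 3 := by
    have h2 : Real.sqrt u ^ 2 = u := Real.sq_sqrt hu.le
    calc Real.sqrt u ^ 6 = (Real.sqrt u ^ 2) ^ 3 := by ring
      _ = u ^ 3 := by rw [h2]
  rw [h]

theorem MM_smul (g h k : ℝ → ℝ → ℝ → ℝ) (a b c ε N : ℝ) (x : ℝ × ℝ × ℝ) :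
    MM (fun x y z => a * g x y z) (fun x y z => b * h x y z) (fun x y z => c * k x y z) ε N x =
      (a * b * c) * MM g h k ε N x := by
  unfold MM
  rw [← integral_const_mul]
  refine integral_congr_ae (Filter.Eventually.of_forall (fun w => ?_))
  ring

theorem MMprod (g h k : ℝ → ℝ → ℝ → ℝ) (hg : tzT3 g) (hh : tzT3 h) (hk : tzT3 k)
    (ε N : ℝ) (hε : 0 < ε) (hN : ε < N) :
    ∫ x : ℝ × ℝ × ℝ, (MM g h k ε N x) ^ 2 ≤
      144000000000 * (1 + Real.log (N / ε)) *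
        ((N6 g) ^ ((1:ℝ)/3) * (N6 h) ^ ((1:ℝ)/3) * (N6 k) ^ ((1:ℝ)/3)) := by
  have hN6 : ∀ f : ℝ → ℝ → ℝ → ℝ, 0 ≤ N6 f := fun f => integral_nonneg (fun p => by positivity)
  have hlog : 0 ≤ Real.log (N / ε) := Real.log_nonneg (by rw [le_div_iff₀ hε]; linarith)
  have hA : 0 ≤ ∫ x : ℝ × ℝ × ℝ, (MM g h k ε N x) ^ 2 := integral_nonneg (fun p => sq_nonneg _)
  have hmain := homog (∫ x : ℝ × ℝ × ℝ, (MM g h k ε N x) ^ 2) (N6 g) (N6 h) (N6 k)
    (48000000000 * (1 + Real.log (N / ε))) (hN6 g) (hN6 h) (hN6 k) (by positivity) (by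
      intro u v w hu hv hw
      have h1 := MMsum (fun x y z => Real.sqrt u * g x y z) (fun x y z => Real.sqrt v * h x y z)
        (fun x y z => Real.sqrt w * k x y z) (tyT3_smulM g hg _) (tyT3_smulM h hh _)
        (tyT3_smulM k hk _) ε N hε hN
      rw [N6_smul g u hu, N6_smul h v hv, N6_smul k w hw] at h1
      have h2 : ∫ x : ℝ × ℝ × ℝ, (MM (fun x y z => Real.sqrt u * g x y z)
          (fun x y z => Real.sqrt v * h x y z) (fun x y z => Real.sqrt w * k x y z) ε N x) ^ 2 =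
          u * v * w * ∫ x : ℝ × ℝ × ℝ, (MM g h k ε N x) ^ 2 := by
        rw [← integral_const_mul]
        refine integral_congr_ae (Filter.Eventually.of_forall (fun x => ?_))
        show (MM (fun x y z => Real.sqrt u * g x y z)
          (fun x y z => Real.sqrt v * h x y z) (fun x y z => Real.sqrt w * k x y z) ε N x) ^ 2 =
          u * v * w * (MM g h k ε N x) ^ 2
        rw [MM_smul]
        have e1 := Real.sq_sqrt hu.le
        have e2 := Real.sq_sqrt hv.le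
        have e3 := Real.sq_sqrt hw.le
        calc (Real.sqrt u * Real.sqrt v * Real.sqrt w * MM g h k ε N x) ^ 2 =
            (Real.sqrt u ^ 2) * (Real.sqrt v ^ 2) * (Real.sqrt w ^ 2) * (MM g h k ε N x) ^ 2 := by
              ring
          _ = u * v * w * (MM g h k ε N x) ^ 2 := by rw [e1, e2, e3]
      rw [h2] at h1
      rw [abs_of_nonneg (by positivity)]
      exact h1)
  rw [abs_of_nonneg hA] at hmain
  calc ∫ x : ℝ × ℝ × ℝ, (MM g h k ε N x) ^ 2 ≤ _ := hmain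
    _ = _ := by ring

end TH71
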