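import Pool.Agent.Helper933.TY.Defs
import Pool.Agent.Helper933.TY.P_MM_test
import Pool.Agent.Helper933.TY.P_MMprod
import Pool.Agent.Helper933.TY.P_Lam4_MM

set_option autoImplicit false
set_option linter.unusedVariables false

open MeasureTheory

namespace TH71


theorem est1 (f g h k : ℝ → ℝ → ℝ → ℝ) (hf : tzT3 f) (hg : tzT3 g) (hh : tzT3 h)
    (hk : tzT3 k) (ε N : ℝ) (hε : 0 < ε) (hN : ε < N) :
    |Lam4 f g h k ε N| ≤ 1000000 * Real.sqrt (1 + Real.log (N / ε)) *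
      ((N2 f) ^ ((1:ℝ)/2) * (N6 g) ^ ((1:ℝ)/6) * (N6 h) ^ ((1:ℝ)/6) * (N6 k) ^ ((1:ℝ)/6)) := by
  obtain ⟨hMc, hMs⟩ := MM_test g h k hg hh hk ε N hε hN
  set M : ℝ × ℝ × ℝ → ℝ := MM g h k ε N with hM
  set F : ℝ × ℝ × ℝ → ℝ := fun x => f x.1 x.2.1 x.2.2 with hF
  have hL : 0 ≤ 1 + Real.log (N / ε) := by
    have h1 : 1 ≤ N / ε := by rw [le_div_iff₀ hε]; linarith
    have := Real.log_nonneg h1
    linarith
  have hFc : Continuous F := hf.1
  have hFs : HasCompactSupport F := hf.2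
  have hFm : MemLp (fun x => |F x|) (ENNReal.ofReal 2) volume :=
    (hFc.abs).memLp_of_hasCompactSupport (hFs.comp_left (g := fun y : ℝ => |y|) abs_zero)
  have hMm : MemLp (fun x => |M x|) (ENNReal.ofReal 2) volume :=
    (hMc.abs).memLp_of_hasCompactSupport (hMs.comp_left (g := fun y : ℝ => |y|) abs_zero)
  have hh1 : |Lam4 f g h k ε N| ≤ ∫ x, |F x| * |M x| := by
    rw [Lam4_MM f g h k hf hg hh hk ε N hε hN]
    have h1 := norm_integral_le_integral_norm (μ := volume) (fun x : ℝ × ℝ × ℝ => F x * M x)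
    simp only [Real.norm_eq_abs, abs_mul] at h1
    exact h1
  have hh2 := MeasureTheory.integral_mul_le_Lp_mul_Lq_of_nonneg (μ := volume)
    Real.HolderConjugate.two_two
    (f := fun x => |F x|) (g := fun x => |M x|)
    (Filter.Eventually.of_forall fun x => abs_nonneg _)
    (Filter.Eventually.of_forall fun x => abs_nonneg _) hFm hMm
  have hF2 : ∫ x, |F x| ^ (2:ℝ) = N2 f := by
    unfold N2
    refine integral_congr_ae (Filter.Eventually.of_forall fun x => ?_)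
    show |F x| ^ (2:ℝ) = |f x.1 x.2.1 x.2.2| ^ 2
    rw [Real.rpow_two]
  have hM2 : ∫ x, |M x| ^ (2:ℝ) = ∫ x, M x ^ 2 := by
    refine integral_congr_ae (Filter.Eventually.of_forall fun x => ?_)
    show |M x| ^ (2:ℝ) = M x ^ 2
    rw [Real.rpow_two, sq_abs]
  rw [hF2, hM2] at hh2
  have hMM := MMprod g h k hg hh hk ε N hε hN
  have hN2 : 0 ≤ N2 f := integral_nonneg fun x => by positivity
  have hg6 : 0 ≤ N6 g := integral_nonneg fun x => by positivity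
  have hh6 : 0 ≤ N6 h := integral_nonneg fun x => by positivity
  have hk6 : 0 ≤ N6 k := integral_nonneg fun x => by positivity
  have hM0 : 0 ≤ ∫ x, M x ^ 2 := integral_nonneg fun x => by positivity
  have hsix : ∀ a : ℝ, 0 ≤ a → (a ^ ((1:ℝ)/3)) ^ ((1:ℝ)/2) = a ^ ((1:ℝ)/6) := by
    intro a ha
    rw [← Real.rpow_mul ha]
    norm_num
  have hP : (∫ x, M x ^ 2) ^ ((1:ℝ)/2) ≤ 1000000 * Real.sqrt (1 + Real.log (N / ε)) *
      ((N6 g) ^ ((1:ℝ)/6) * (N6 h) ^ ((1:ℝ)/6) * (N6 k) ^ ((1:ℝ)/6)) := by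
    have h1 : ∫ x, M x ^ 2 ≤ (1000000:ℝ) ^ 2 * (1 + Real.log (N / ε)) *
        ((N6 g) ^ ((1:ℝ)/3) * (N6 h) ^ ((1:ℝ)/3) * (N6 k) ^ ((1:ℝ)/3)) := by
      refine hMM.trans ?_
      apply mul_le_mul_of_nonneg_right _ (by positivity)
      apply mul_le_mul_of_nonneg_right _ hL
      norm_num
    refine (Real.rpow_le_rpow hM0 h1 (by norm_num)).trans (le_of_eq ?_)
    rw [Real.mul_rpow (by positivity) (by positivity), Real.mul_rpow (by positivity) hL,
      Real.mul_rpow (by positivity) (by positivity), Real.mul_rpow (by positivity) (by positivity),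
      hsix _ hg6, hsix _ hh6, hsix _ hk6, ← Real.sqrt_eq_rpow, ← Real.sqrt_eq_rpow,
      Real.sqrt_sq (by norm_num)]
  calc |Lam4 f g h k ε N| ≤ ∫ x, |F x| * |M x| := hh1
    _ ≤ (N2 f) ^ ((1:ℝ)/2) * (∫ x, M x ^ 2) ^ ((1:ℝ)/2) := hh2
    _ ≤ (N2 f) ^ ((1:ℝ)/2) * (1000000 * Real.sqrt (1 + Real.log (N / ε)) *
      ((N6 g) ^ ((1:ℝ)/6) * (N6 h) ^ ((1:ℝ)/6) * (N6 k) ^ ((1:ℝ)/6))) :=
        mul_le_mul_of_nonneg_left hP (by positivity)
    _ = _ := by ring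

end TH71
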