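import Pool.Agent.Helper933.TY.Defs

set_option autoImplicit false
set_option linter.unusedVariables false

open MeasureTheory

namespace TH71


theorem cl_cont (i : ℤ) : Continuous (cl i) := by
  unfold cl
  fun_prop

theorem cl_zero (i : ℤ) : cl i 0 = 0 := by
  unfold cl
  have h : (0:ℝ) < (2:ℝ) ^ i := zpow_pos (by norm_num) i
  rw [min_eq_left h.le, max_eq_right (by linarith)]

theorem piece_test (i : ℤ) (f : ℝ → ℝ → ℝ → ℝ) (hf : tzT3 f) :
    tzT3 (piece i f) ∧ tzT3 (low i f) := by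
  obtain ⟨hc, hs⟩ := hf
  refine ⟨⟨?_, ?_⟩, ⟨?_, ?_⟩⟩
  · exact ((cl_cont (i + 1)).comp hc).sub ((cl_cont i).comp hc)
  · exact hs.comp_left (g := fun u => cl (i + 1) u - cl i u) (by simp [cl_zero])
  · exact (cl_cont i).comp hc
  · exact hs.comp_left (g := cl i) (cl_zero i)

end TH71
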