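import Pool.Agent.Helper933.TY.Defs
import Pool.Agent.Helper933.TY.P_piece_test

set_option autoImplicit false
set_option linter.unusedVariables false

open MeasureTheory

namespace TH71


theorem lwn_cl (i : ℤ) (u : ℝ) : |cl i u| ≤ |u| ∧ |cl i u| ≤ (2:ℝ) ^ i ∧ |u - cl i u| ≤ |u| := by
  have h2 : (0:ℝ) < (2:ℝ) ^ i := by positivity
  unfold cl
  rcases le_total u ((2:ℝ) ^ i) with h | h
  · rw [min_eq_left h]
    rcases le_total (-(2:ℝ) ^ i) u with h' | h'
    · rw [max_eq_right h']
      refine ⟨le_refl _, abs_le.2 ⟨h', h⟩, ?_⟩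
      rw [sub_self, abs_zero]
      exact abs_nonneg _
    · rw [max_eq_left h']
      have hu : u ≤ 0 := by linarith
      rw [abs_neg, abs_of_pos h2, abs_of_nonpos hu]
      refine ⟨by linarith, le_refl _, ?_⟩
      rw [abs_le]
      constructor <;> linarith
  · rw [min_eq_right h, max_eq_right (by linarith)]
    have hu : 0 ≤ u := by linarith
    rw [abs_of_pos h2, abs_of_nonneg hu]
    refine ⟨h, le_refl _, ?_⟩
    rw [abs_le]
    constructor <;> linarith

theorem low_N (f : ℝ → ℝ → ℝ → ℝ) (hf : tzT3 f) :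
    ∃ V : ℝ, 0 ≤ V ∧ ∀ i : ℤ, N2 (low i f) ≤ V * ((2:ℝ) ^ i) ^ 2 ∧ N6 (low i f) ≤ N6 f ∧
      N6 (fun x y z => f x y z - low i f x y z) ≤ N6 f := by
  obtain ⟨hc, hs⟩ := hf
  have hint6 : Integrable (fun p : ℝ × ℝ × ℝ => |f p.1 p.2.1 p.2.2| ^ 6) := by
    refine Continuous.integrable_of_hasCompactSupport (hc.abs.pow 6) ?_
    exact hs.comp_left (g := fun u : ℝ => |u| ^ 6) (by norm_num)
  set K : Set (ℝ × ℝ × ℝ) := tsupport (fun p : ℝ × ℝ × ℝ => f p.1 p.2.1 p.2.2) with hK
  have hKc : IsCompact K := hs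
  have hKm : MeasurableSet K := hKc.isClosed.measurableSet
  refine ⟨(volume : Measure (ℝ × ℝ × ℝ)).real K, measureReal_nonneg, fun i => ⟨?_, ?_, ?_⟩⟩
  · unfold N2
    have h1 : ∫ p : ℝ × ℝ × ℝ, |low i f p.1 p.2.1 p.2.2| ^ 2 ≤
        ∫ p : ℝ × ℝ × ℝ, K.indicator (fun _ => ((2:ℝ) ^ i) ^ 2) p := by
      refine integral_mono_of_nonneg (Filter.Eventually.of_forall fun p => by positivity) ?_
        (Filter.Eventually.of_forall fun p => ?_)
      · exact (integrable_indicator_iff hKm).2 (integrableOn_const hKc.measure_lt_top.ne)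
      · by_cases hp : p ∈ K
        · simp only [Set.indicator_of_mem hp]
          exact pow_le_pow_left₀ (abs_nonneg _) (lwn_cl i _).2.1 2
        · simp only [Set.indicator_of_notMem hp]
          have h0 : f p.1 p.2.1 p.2.2 = 0 :=
            image_eq_zero_of_notMem_tsupport (f := fun p : ℝ × ℝ × ℝ => f p.1 p.2.1 p.2.2) hp
          have h3 := (lwn_cl i (f p.1 p.2.1 p.2.2)).1
          rw [h0, abs_zero] at h3
          have h4 : |low i f p.1 p.2.1 p.2.2| = 0 := by
            unfold low
            rw [h0]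
            exact le_antisymm h3 (abs_nonneg _)
          rw [h4]
          norm_num
    rw [integral_indicator_const _ hKm, smul_eq_mul] at h1
    exact h1
  · unfold N6
    refine integral_mono_of_nonneg (Filter.Eventually.of_forall fun p => by positivity) hint6
        (Filter.Eventually.of_forall fun p => ?_)
    exact pow_le_pow_left₀ (abs_nonneg _) (lwn_cl i _).1 6
  · unfold N6
    refine integral_mono_of_nonneg (Filter.Eventually.of_forall fun p => by positivity) hint6
        (Filter.Eventually.of_forall fun p => ?_)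
    exact pow_le_pow_left₀ (abs_nonneg _) (lwn_cl i _).2.2 6

end TH71
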