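import Pool.Agent.Helper933.TY.Defs

set_option autoImplicit false
set_option linter.unusedVariables false

open MeasureTheory

namespace TH71


theorem smul4 (f g h k : ℝ → ℝ → ℝ → ℝ) (t u v w ε N : ℝ) :
    Lam4 (fun x y z => t * f x y z) (fun x y z => u * g x y z) (fun x y z => v * h x y z)
      (fun x y z => w * k x y z) ε N = t * u * v * w * Lam4 f g h k ε N := by
  unfold Lam4
  rw [← integral_const_mul]
  congr 1
  funext x
  ring

end TH71
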