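import Pool.Agent.Helper933.TY.Defs
import Pool.Agent.Helper933.TY.P_est1
import Pool.Agent.Helper933.TY.P_cyc
import Pool.Agent.Helper933.TY.P_add1
import Pool.Agent.Helper933.TY.P_smul4
import Pool.Agent.Helper933.TY.P_piece_test
import Pool.Agent.Helper933.TY.P_decomp
import Pool.Agent.Helper933.TY.P_low_N

set_option autoImplicit false
set_option linter.unusedVariables false

open MeasureTheory

namespace TH71


theorem N2_nonneg' (f : ℝ → ℝ → ℝ → ℝ) : 0 ≤ N2 f := by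
  unfold N2
  exact integral_nonneg fun p => by positivity

theorem N6_nonneg' (f : ℝ → ℝ → ℝ → ℝ) : 0 ≤ N6 f := by
  unfold N6
  exact integral_nonneg fun p => by positivity

/-- high part -/
noncomputable def hiP (i : ℤ) (f : ℝ → ℝ → ℝ → ℝ) : ℝ → ℝ → ℝ → ℝ :=
  fun x y z => f x y z - low i f x y z

theorem hiP_test (i : ℤ) (f : ℝ → ℝ → ℝ → ℝ) (hf : tzT3 f) : tzT3 (hiP i f) := by
  obtain ⟨h1, h2⟩ := (piece_test i f hf).2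
  refine ⟨hf.1.sub h1, ?_⟩
  have h3 := hf.2.add h2.neg
  have h4 : (fun p : ℝ × ℝ × ℝ => hiP i f p.1 p.2.1 p.2.2) =
      (fun p : ℝ × ℝ × ℝ => f p.1 p.2.1 p.2.2) + -fun p : ℝ × ℝ × ℝ => low i f p.1 p.2.1 p.2.2 := by
    funext p
    simp only [hiP, Pi.add_apply, Pi.neg_apply]
    ring
  rw [h4]
  exact h3

theorem split1 (f g h k : ℝ → ℝ → ℝ → ℝ) (hf : tzT3 f) (hg : tzT3 g) (hh : tzT3 h)
    (hk : tzT3 k) (ε N : ℝ) (hε : 0 < ε) (hN : ε < N) (L : ℤ) :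
    Lam4 f g h k ε N = Lam4 (low L f) g h k ε N + Lam4 (hiP L f) g h k ε N := by
  rw [← add1 (low L f) (hiP L f) g h k (piece_test L f hf).2 (hiP_test L f hf) hg hh hk ε N hε hN]
  congr 1
  funext x y z
  unfold hiP
  ring

theorem estlow (f g h k g' h' k' : ℝ → ℝ → ℝ → ℝ) (hf : tzT3 f) (hg : tzT3 g') (hh : tzT3 h')
    (hk : tzT3 k') (ε N : ℝ) (hε : 0 < ε) (hN : ε < N) (L : ℤ) (V : ℝ) (hV : 0 ≤ V)
    (hV2 : N2 (low L f) ≤ V * ((2:ℝ) ^ L) ^ 2) (hg6 : N6 g' ≤ N6 g) (hh6 : N6 h' ≤ N6 h)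
    (hk6 : N6 k' ≤ N6 k) :
    |Lam4 (low L f) g' h' k' ε N| ≤ 1000000 * Real.sqrt (1 + Real.log (N / ε)) *
      (V ^ ((1:ℝ)/2) * (N6 g) ^ ((1:ℝ)/6) * (N6 h) ^ ((1:ℝ)/6) * (N6 k) ^ ((1:ℝ)/6)) *
        (2:ℝ) ^ L := by
  have h0 := est1 (low L f) g' h' k' (piece_test L f hf).2 hg hh hk ε N hε hN
  refine h0.trans ?_
  rw [mul_assoc (1000000 * Real.sqrt (1 + Real.log (N / ε))) _ ((2:ℝ) ^ L)]
  apply mul_le_mul_of_nonneg_left _ (by positivity)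
  have e1 : (N2 (low L f)) ^ ((1:ℝ)/2) ≤ V ^ ((1:ℝ)/2) * (2:ℝ) ^ L := by
    have hp : (0:ℝ) < (2:ℝ) ^ L := by positivity
    calc (N2 (low L f)) ^ ((1:ℝ)/2) ≤ (V * ((2:ℝ) ^ L) ^ 2) ^ ((1:ℝ)/2) :=
          Real.rpow_le_rpow (N2_nonneg' _) hV2 (by norm_num)
      _ = V ^ ((1:ℝ)/2) * (2:ℝ) ^ L := by
          rw [Real.mul_rpow hV (by positivity)]
          congr 1
          rw [← Real.sqrt_eq_rpow, Real.sqrt_sq hp.le]
  have e2 : (N6 g') ^ ((1:ℝ)/6) ≤ (N6 g) ^ ((1:ℝ)/6) :=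
    Real.rpow_le_rpow (N6_nonneg' _) hg6 (by norm_num)
  have e3 : (N6 h') ^ ((1:ℝ)/6) ≤ (N6 h) ^ ((1:ℝ)/6) :=
    Real.rpow_le_rpow (N6_nonneg' _) hh6 (by norm_num)
  have e4 : (N6 k') ^ ((1:ℝ)/6) ≤ (N6 k) ^ ((1:ℝ)/6) :=
    Real.rpow_le_rpow (N6_nonneg' _) hk6 (by norm_num)
  have p0 : 0 ≤ (N2 (low L f)) ^ ((1:ℝ)/2) := Real.rpow_nonneg (N2_nonneg' _) _
  have p1 : 0 ≤ (N6 g') ^ ((1:ℝ)/6) := Real.rpow_nonneg (N6_nonneg' _) _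
  have p2 : 0 ≤ (N6 h') ^ ((1:ℝ)/6) := Real.rpow_nonneg (N6_nonneg' _) _
  have p3 : 0 ≤ (N6 k') ^ ((1:ℝ)/6) := Real.rpow_nonneg (N6_nonneg' _) _
  calc (N2 (low L f)) ^ ((1:ℝ)/2) * (N6 g') ^ ((1:ℝ)/6) * (N6 h') ^ ((1:ℝ)/6) *
        (N6 k') ^ ((1:ℝ)/6)
      ≤ (V ^ ((1:ℝ)/2) * (2:ℝ) ^ L) * (N6 g) ^ ((1:ℝ)/6) * (N6 h) ^ ((1:ℝ)/6) *
        (N6 k) ^ ((1:ℝ)/6) := by
        have hq : 0 ≤ V ^ ((1:ℝ)/2) * (2:ℝ) ^ L := by positivity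
        have hq1 : 0 ≤ V ^ ((1:ℝ)/2) * (2:ℝ) ^ L * (N6 g) ^ ((1:ℝ)/6) :=
          mul_nonneg hq (p1.trans e2)
        have hq2 : 0 ≤ V ^ ((1:ℝ)/2) * (2:ℝ) ^ L * (N6 g) ^ ((1:ℝ)/6) * (N6 h) ^ ((1:ℝ)/6) :=
          mul_nonneg hq1 (p2.trans e3)
        exact mul_le_mul (mul_le_mul (mul_le_mul e1 e2 p1 hq) e3 p2 hq1) e4 p3 hq2
    _ = _ := by ring

/-- removing the low parts -/
theorem limL (f g h k : ℝ → ℝ → ℝ → ℝ) (hf : tzT3 f) (hg : tzT3 g) (hh : tzT3 h)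
    (hk : tzT3 k) (ε N : ℝ) (hε : 0 < ε) (hN : ε < N) (B : ℝ)
    (hB : ∀ L I : ℤ, |Lam4 (fun x y z => ∑ i ∈ Finset.Ico L I, piece i f x y z)
      (fun x y z => ∑ i ∈ Finset.Ico L I, piece i g x y z)
      (fun x y z => ∑ i ∈ Finset.Ico L I, piece i h x y z)
      (fun x y z => ∑ i ∈ Finset.Ico L I, piece i k x y z) ε N| ≤ B) :
    |Lam4 f g h k ε N| ≤ B := by
  obtain ⟨Vf, hVf0, hVf⟩ := low_N f hf
  obtain ⟨Vg, hVg0, hVg⟩ := low_N g hg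
  obtain ⟨Vh, hVh0, hVh⟩ := low_N h hh
  obtain ⟨Vk, hVk0, hVk⟩ := low_N k hk
  obtain ⟨If, hIf⟩ := decomp f hf
  obtain ⟨Ig, hIg⟩ := decomp g hg
  obtain ⟨Ih, hIh⟩ := decomp h hh
  obtain ⟨Ik, hIk⟩ := decomp k hk
  obtain ⟨D, hD⟩ : ∃ D : ℝ, ∀ L : ℤ, |Lam4 f g h k ε N| ≤ B + D * (2:ℝ) ^ L := by
    refine ⟨1000000 * Real.sqrt (1 + Real.log (N / ε)) *
      (Vf ^ ((1:ℝ)/2) * (N6 g) ^ ((1:ℝ)/6) * (N6 h) ^ ((1:ℝ)/6) * (N6 k) ^ ((1:ℝ)/6)) +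
      1000000 * Real.sqrt (1 + Real.log (N / ε)) *
      (Vg ^ ((1:ℝ)/2) * (N6 h) ^ ((1:ℝ)/6) * (N6 k) ^ ((1:ℝ)/6) * (N6 f) ^ ((1:ℝ)/6)) +
      1000000 * Real.sqrt (1 + Real.log (N / ε)) *
      (Vh ^ ((1:ℝ)/2) * (N6 k) ^ ((1:ℝ)/6) * (N6 f) ^ ((1:ℝ)/6) * (N6 g) ^ ((1:ℝ)/6)) +
      1000000 * Real.sqrt (1 + Real.log (N / ε)) *
      (Vk ^ ((1:ℝ)/2) * (N6 f) ^ ((1:ℝ)/6) * (N6 g) ^ ((1:ℝ)/6) * (N6 h) ^ ((1:ℝ)/6)), ?_⟩
    intro L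
    have tf := hiP_test L f hf
    have tg := hiP_test L g hg
    have th := hiP_test L h hh
    have a1 := split1 f g h k hf hg hh hk ε N hε hN L
    have a2 := cyc (hiP L f) g h k ε N
    have a3 := split1 g h k (hiP L f) hg hh hk tf ε N hε hN L
    have a4 := cyc (hiP L g) h k (hiP L f) ε N
    have a5 := split1 h k (hiP L f) (hiP L g) hh hk tf tg ε N hε hN L
    have a6 := cyc (hiP L h) k (hiP L f) (hiP L g) ε N
    have a7 := split1 k (hiP L f) (hiP L g) (hiP L h) hk tf tg th ε N hε hN L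
    have a8 := cyc (hiP L k) (hiP L f) (hiP L g) (hiP L h) ε N
    have b1 := estlow f g h k g h k hf hg hh hk ε N hε hN L Vf hVf0 (hVf L).1 le_rfl le_rfl le_rfl
    have b2 := estlow g h k f h k (hiP L f) hg hh hk tf ε N hε hN L Vg hVg0 (hVg L).1 le_rfl
      le_rfl (hVf L).2.2
    have b3 := estlow h k f g k (hiP L f) (hiP L g) hh hk tf tg ε N hε hN L Vh hVh0 (hVh L).1
      le_rfl (hVf L).2.2 (hVg L).2.2
    have b4 := estlow k f g h (hiP L f) (hiP L g) (hiP L h) hk tf tg th ε N hε hN L Vk hVk0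
      (hVk L).1 (hVf L).2.2 (hVg L).2.2 (hVh L).2.2
    have hI : ∃ I : ℤ, If ≤ I ∧ Ig ≤ I ∧ Ih ≤ I ∧ Ik ≤ I ∧ L ≤ I :=
      ⟨max (max (max If Ig) (max Ih Ik)) L, by simp, by simp, by simp, by simp, by simp⟩
    obtain ⟨I, i1, i2, i3, i4, i5⟩ := hI
    have c1 : hiP L f = fun x y z => ∑ i ∈ Finset.Ico L I, piece i f x y z := by
      funext x y z
      have := hIf I i1 L i5 x y z
      unfold hiP
      linarith
    have c2 : hiP L g = fun x y z => ∑ i ∈ Finset.Ico L I, piece i g x y z := by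
      funext x y z
      have := hIg I i2 L i5 x y z
      unfold hiP
      linarith
    have c3 : hiP L h = fun x y z => ∑ i ∈ Finset.Ico L I, piece i h x y z := by
      funext x y z
      have := hIh I i3 L i5 x y z
      unfold hiP
      linarith
    have c4 : hiP L k = fun x y z => ∑ i ∈ Finset.Ico L I, piece i k x y z := by
      funext x y z
      have := hIk I i4 L i5 x y z
      unfold hiP
      linarith
    have d := hB L I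
    rw [← c1, ← c2, ← c3, ← c4] at d
    have e : Lam4 f g h k ε N = Lam4 (low L f) g h k ε N + (Lam4 (low L g) h k (hiP L f) ε N +
        (Lam4 (low L h) k (hiP L f) (hiP L g) ε N +
        (Lam4 (low L k) (hiP L f) (hiP L g) (hiP L h) ε N +
          Lam4 (hiP L f) (hiP L g) (hiP L h) (hiP L k) ε N))) := by
      rw [← a8, ← a7, ← a6, ← a5, ← a4, ← a3, ← a2, ← a1]
    rw [abs_le] at b1 b2 b3 b4 d ⊢
    rw [e]
    constructor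
    · linarith [b1.1, b2.1, b3.1, b4.1, d.1]
    · linarith [b1.2, b2.2, b3.2, b4.2, d.2]
  apply le_of_forall_pos_le_add
  intro δ hδ
  have hpos : (0:ℝ) < |D| + 1 := by positivity
  obtain ⟨n, hn⟩ := exists_pow_lt_of_lt_one (div_pos hδ hpos) (show (1/2 : ℝ) < 1 by norm_num)
  have h1 := hD (-(n:ℤ))
  have h2 : (2:ℝ) ^ (-(n:ℤ)) = (1/2) ^ n := by
    rw [zpow_neg, zpow_natCast, one_div, inv_pow]
  rw [h2] at h1
  have h3 : D * (1/2:ℝ) ^ n ≤ δ := by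
    have h4 : (1/2:ℝ) ^ n * (|D| + 1) < δ := by
      rw [lt_div_iff₀ hpos] at hn
      exact hn
    have h5 : (0:ℝ) < (1/2:ℝ) ^ n := by positivity
    have h6 := le_abs_self D
    nlinarith
  linarith

end TH71
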