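import Pool.Agent.Helper933.TY.Defs

set_option autoImplicit false
set_option linter.unusedVariables false

open MeasureTheory

namespace TH71

theorem aa_sum_pt (u : ℝ) (L : ℤ) : ∀ I : ℤ, L ≤ I →
    (∑ i ∈ Finset.Ico L I, (if (2:ℝ) ^ i < |u| then ((2:ℝ) ^ i) ^ 4 else 0) ≤ ((2:ℝ) ^ I) ^ 4 / 15) ∧
    (∑ i ∈ Finset.Ico L I, (if (2:ℝ) ^ i < |u| then ((2:ℝ) ^ i) ^ 4 else 0) ≤ (16 / 15) * |u| ^ 4) := by
  intro I hI
  induction I, hI using Int.le_induction with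
  | base =>
    simp only [Finset.Ico_self, Finset.sum_empty]
    constructor <;> positivity
  | succ I hI ih =>
    obtain ⟨h1, h2⟩ := ih
    have hIco : Finset.Ico L (I + 1) = insert I (Finset.Ico L I) := by
      ext x
      simp only [Finset.mem_insert, Finset.mem_Ico]
      omega
    have hp : ((2:ℝ) ^ (I + 1)) ^ 4 = 16 * ((2:ℝ) ^ I) ^ 4 := by
      rw [zpow_add₀ (by norm_num), zpow_one, mul_pow]
      norm_num
      ring
    have hpos : (0:ℝ) < (2:ℝ) ^ I := by positivity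
    rw [hIco, Finset.sum_insert (by simp), hp]
    split_ifs with h
    · constructor
      · linarith
      · have h3 : ((2:ℝ) ^ I) ^ 4 ≤ |u| ^ 4 := pow_le_pow_left₀ hpos.le h.le 4
        linarith
    · constructor
      · have : 0 < ((2:ℝ) ^ I) ^ 4 := by positivity
        linarith
      · linarith

theorem aa_sum (f : ℝ → ℝ → ℝ → ℝ) (hf : tzT3 f) (L I : ℤ) :
    ∑ i ∈ Finset.Ico L I, aa i f ≤ 2 * N4 f := by
  obtain ⟨hc, hs⟩ := hf
  have hN : 0 ≤ N4 f := by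
    unfold N4
    exact integral_nonneg fun p => by positivity
  rcases lt_or_ge I L with hIL | hIL
  · rw [Finset.Ico_eq_empty (by omega), Finset.sum_empty]
    linarith
  have hint4 : Integrable (fun p : ℝ × ℝ × ℝ => |f p.1 p.2.1 p.2.2| ^ 4) := by
    refine Continuous.integrable_of_hasCompactSupport ?_ ?_
    · exact (continuous_abs.comp hc).pow 4
    · exact hs.comp_left (g := fun u : ℝ => |u| ^ 4) (by simp)
  have hS : ∀ i : ℤ, MeasurableSet {p : ℝ × ℝ × ℝ | (2:ℝ) ^ i < |f p.1 p.2.1 p.2.2|} := fun i =>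
    measurableSet_lt measurable_const (continuous_abs.comp hc).measurable
  have hfin : ∀ i : ℤ, volume {p : ℝ × ℝ × ℝ | (2:ℝ) ^ i < |f p.1 p.2.1 p.2.2|} < ⊤ := by
    intro i
    refine lt_of_le_of_lt (measure_mono ?_) (IsCompact.measure_lt_top hs)
    intro p hp
    apply subset_tsupport
    rw [Function.mem_support]
    intro h0
    have hp' : (2:ℝ) ^ i < |f p.1 p.2.1 p.2.2| := hp
    have h0' : f p.1 p.2.1 p.2.2 = 0 := h0
    rw [h0', abs_zero] at hp'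
    have : (0:ℝ) < (2:ℝ) ^ i := by positivity
    linarith
  have hind : ∀ i : ℤ, Integrable (Set.indicator {p : ℝ × ℝ × ℝ | (2:ℝ) ^ i < |f p.1 p.2.1 p.2.2|}
      (fun _ => ((2:ℝ) ^ i) ^ 4)) := by
    intro i
    rw [integrable_indicator_iff (hS i)]
    exact integrableOn_const (hfin i).ne
  have haa : ∀ i : ℤ, aa i f = ∫ p : ℝ × ℝ × ℝ,
      Set.indicator {p : ℝ × ℝ × ℝ | (2:ℝ) ^ i < |f p.1 p.2.1 p.2.2|}
      (fun _ => ((2:ℝ) ^ i) ^ 4) p := by
    intro i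
    rw [integral_indicator_const _ (hS i)]
    unfold aa
    rw [smul_eq_mul, mul_comm]
    rfl
  simp only [haa]
  rw [← integral_finset_sum _ (fun i _ => hind i)]
  unfold N4
  rw [← integral_const_mul]
  refine integral_mono (integrable_finset_sum _ fun i _ => hind i) (hint4.const_mul 2) ?_
  intro p
  have h1 := (aa_sum_pt (f p.1 p.2.1 p.2.2) L I hIL).2
  have h2 : ∑ i ∈ Finset.Ico L I, Set.indicator {p : ℝ × ℝ × ℝ | (2:ℝ) ^ i < |f p.1 p.2.1 p.2.2|}
      (fun _ => ((2:ℝ) ^ i) ^ 4) p =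
      ∑ i ∈ Finset.Ico L I, (if (2:ℝ) ^ i < |f p.1 p.2.1 p.2.2| then ((2:ℝ) ^ i) ^ 4 else 0) := by
    refine Finset.sum_congr rfl fun i _ => ?_
    simp only [Set.indicator_apply, Set.mem_setOf_eq]
  show ∑ i ∈ Finset.Ico L I, Set.indicator {p : ℝ × ℝ × ℝ | (2:ℝ) ^ i < |f p.1 p.2.1 p.2.2|}
      (fun _ => ((2:ℝ) ^ i) ^ 4) p ≤ 2 * |f p.1 p.2.1 p.2.2| ^ 4
  rw [h2]
  have h3 : 0 ≤ |f p.1 p.2.1 p.2.2| ^ 4 := by positivity
  linarith

end TH71
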