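import Pool.Agent.Helper933.TY.Defs

set_option autoImplicit false
set_option linter.unusedVariables false

open MeasureTheory

namespace TH71


/-- the one-sided weight -/
noncomputable def wC (n : ℤ) : ℝ := if 0 ≤ n then (2:ℝ) ^ (-(n:ℝ) / 3) else 0

theorem wC_nonneg (n : ℤ) : 0 ≤ wC n := by
  unfold wC
  split_ifs
  · positivity
  · exact le_refl _

theorem rC_bound : (2:ℝ) ^ (-(1:ℝ) / 3) ≤ 77 / 97 := by
  have h0 : 0 ≤ (2:ℝ) ^ (-(1:ℝ) / 3) := by positivity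
  have h1 : ((2:ℝ) ^ (-(1:ℝ) / 3)) ^ 3 = 1 / 2 := by
    rw [← Real.rpow_natCast, ← Real.rpow_mul (by norm_num)]
    norm_num
  by_contra hcon
  push Not at hcon
  have h2 : ((77:ℝ) / 97) ^ 3 < ((2:ℝ) ^ (-(1:ℝ) / 3)) ^ 3 :=
    pow_lt_pow_left₀ hcon (by norm_num) (by norm_num)
  rw [h1] at h2
  norm_num at h2

theorem wC_sum (s : Finset ℤ) (f : ℤ → ℤ) (hf : Function.Injective f) :
    ∑ x ∈ s, wC (f x) ≤ 97 / 20 := by
  classical
  set r : ℝ := (2:ℝ) ^ (-(1:ℝ) / 3) with hr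
  have hr0 : 0 ≤ r := by rw [hr]; positivity
  have hr1 : r ≤ 77 / 97 := rC_bound
  have hr2 : r < 1 := lt_of_le_of_lt hr1 (by norm_num)
  have h1 : ∑ x ∈ s, wC (f x) = ∑ x ∈ s.filter (fun x => 0 ≤ f x), r ^ (f x).toNat := by
    rw [Finset.sum_filter]
    refine Finset.sum_congr rfl fun x _ => ?_
    unfold wC
    split_ifs with h
    · rw [hr, ← Real.rpow_natCast, ← Real.rpow_mul (by norm_num)]
      congr 1
      have : (((f x).toNat : ℕ) : ℝ) = ((f x : ℤ) : ℝ) := by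
        exact_mod_cast Int.toNat_of_nonneg h
      rw [this]
      ring
    · rfl
  have h2 : ∑ x ∈ s.filter (fun x => 0 ≤ f x), r ^ (f x).toNat =
      ∑ n ∈ (s.filter (fun x => 0 ≤ f x)).image (fun x => (f x).toNat), r ^ n := by
    rw [Finset.sum_image]
    intro x hx y hy hxy
    have hx' := (Finset.mem_filter.mp (Finset.mem_coe.mp hx)).2
    have hy' := (Finset.mem_filter.mp (Finset.mem_coe.mp hy)).2
    have hxy' : (f x).toNat = (f y).toNat := hxy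
    apply hf
    omega
  rw [h1, h2]
  have h3 : Summable fun n : ℕ => r ^ n := summable_geometric_of_lt_one hr0 hr2
  refine (h3.sum_le_tsum _ fun n _ => pow_nonneg hr0 n).trans ?_
  rw [tsum_geometric_of_lt_one hr0 hr2]
  rw [inv_le_comm₀ (by linarith) (by norm_num)]
  norm_num
  linarith

theorem comb_inner (s : Finset ℤ) (i : ℤ) (A : ℝ) (b c d : ℤ → ℝ) :
    ∑ j ∈ s, ∑ k ∈ s, ∑ l ∈ s, wC (i - j) * wC (i - k) * wC (i - l) *
      (A / 2 + b j / 6 + c k / 6 + d l / 6) =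
    A / 2 * (∑ j ∈ s, wC (i - j)) ^ 3 +
      ((∑ j ∈ s, wC (i - j) * b j) + (∑ j ∈ s, wC (i - j) * c j) +
        (∑ j ∈ s, wC (i - j) * d j)) / 6 * (∑ j ∈ s, wC (i - j)) ^ 2 := by
  set P := ∑ j ∈ s, wC (i - j) with hP
  set Qb := ∑ j ∈ s, wC (i - j) * b j with hQb
  set Qc := ∑ j ∈ s, wC (i - j) * c j with hQc
  set Qd := ∑ j ∈ s, wC (i - j) * d j with hQd
  have s1 : ∀ j k, ∑ l ∈ s, wC (i - j) * wC (i - k) * wC (i - l) *
      (A / 2 + b j / 6 + c k / 6 + d l / 6) =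
      wC (i - j) * wC (i - k) * (A / 2 + b j / 6 + c k / 6) * P +
        wC (i - j) * wC (i - k) / 6 * Qd := by
    intro j k
    rw [hP, hQd, Finset.mul_sum, Finset.mul_sum, ← Finset.sum_add_distrib]
    exact Finset.sum_congr rfl fun l _ => by ring
  have s2 : ∀ j, ∑ k ∈ s, (wC (i - j) * wC (i - k) * (A / 2 + b j / 6 + c k / 6) * P +
        wC (i - j) * wC (i - k) / 6 * Qd) =
      (wC (i - j) * (A / 2 + b j / 6) * P + wC (i - j) / 6 * Qd) * P +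
        wC (i - j) / 6 * P * Qc := by
    intro j
    calc ∑ k ∈ s, (wC (i - j) * wC (i - k) * (A / 2 + b j / 6 + c k / 6) * P +
          wC (i - j) * wC (i - k) / 6 * Qd)
        = ∑ k ∈ s, ((wC (i - j) * (A / 2 + b j / 6) * P + wC (i - j) / 6 * Qd) * wC (i - k) +
          wC (i - j) / 6 * P * (wC (i - k) * c k)) :=
          Finset.sum_congr rfl fun k _ => by ring
      _ = _ := by rw [Finset.sum_add_distrib, ← Finset.mul_sum, ← Finset.mul_sum]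
  have s3 : ∑ j ∈ s, ((wC (i - j) * (A / 2 + b j / 6) * P + wC (i - j) / 6 * Qd) * P +
        wC (i - j) / 6 * P * Qc) =
      (A / 2 * P ^ 2 + Qd / 6 * P + Qc / 6 * P) * P + P ^ 2 / 6 * Qb := by
    calc ∑ j ∈ s, ((wC (i - j) * (A / 2 + b j / 6) * P + wC (i - j) / 6 * Qd) * P +
          wC (i - j) / 6 * P * Qc)
        = ∑ j ∈ s, ((A / 2 * P ^ 2 + Qd / 6 * P + Qc / 6 * P) * wC (i - j) +
          P ^ 2 / 6 * (wC (i - j) * b j)) :=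
          Finset.sum_congr rfl fun k _ => by ring
      _ = _ := by rw [Finset.sum_add_distrib, ← Finset.mul_sum, ← Finset.mul_sum]
  simp_rw [s1, s2, s3]
  ring

theorem comb_gen (s : Finset ℤ) (a b c d : ℤ → ℝ) (ha : ∀ i, 0 ≤ a i) (hb : ∀ i, 0 ≤ b i)
    (hc : ∀ i, 0 ≤ c i) (hd : ∀ i, 0 ≤ d i) (sa : ∑ i ∈ s, a i ≤ 2)
    (sb : ∑ i ∈ s, b i ≤ 2) (sc : ∑ i ∈ s, c i ≤ 2) (sd : ∑ i ∈ s, d i ≤ 2) :
    ∑ i ∈ s, ∑ j ∈ s, ∑ k ∈ s, ∑ l ∈ s, wC (i - j) * wC (i - k) * wC (i - l) *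
      (a i / 2 + b j / 6 + c k / 6 + d l / 6) ≤ 2 * (97 / 20) ^ 3 := by
  have hP0 : ∀ i, 0 ≤ ∑ j ∈ s, wC (i - j) := fun i => Finset.sum_nonneg fun j _ => wC_nonneg _
  have hP : ∀ i, ∑ j ∈ s, wC (i - j) ≤ 97 / 20 := fun i =>
    wC_sum s (fun j => i - j) (fun x y h => by
      have h' : i - x = i - y := h
      omega)
  have hQ0 : ∀ (b : ℤ → ℝ), (∀ i, 0 ≤ b i) → ∀ i, 0 ≤ ∑ j ∈ s, wC (i - j) * b j :=
    fun b hb i => Finset.sum_nonneg fun j _ => mul_nonneg (wC_nonneg _) (hb j)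
  have hQ : ∀ (b : ℤ → ℝ), (∀ i, 0 ≤ b i) → ∑ i ∈ s, b i ≤ 2 →
      ∑ i ∈ s, ∑ j ∈ s, wC (i - j) * b j ≤ 97 / 10 := by
    intro b hb sb
    rw [Finset.sum_comm]
    calc ∑ j ∈ s, ∑ i ∈ s, wC (i - j) * b j = ∑ j ∈ s, (∑ i ∈ s, wC (i - j)) * b j :=
          Finset.sum_congr rfl fun j _ => by rw [Finset.sum_mul]
      _ ≤ ∑ j ∈ s, (97 / 20) * b j := by
          refine Finset.sum_le_sum fun j _ => ?_
          refine mul_le_mul_of_nonneg_right ?_ (hb j)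
          exact wC_sum s (fun i => i - j) (fun x y h => by
            have h' : x - j = y - j := h
            omega)
      _ = (97 / 20) * ∑ j ∈ s, b j := by rw [Finset.mul_sum]
      _ ≤ 97 / 10 := by linarith
  simp_rw [comb_inner]
  calc ∑ i ∈ s, (a i / 2 * (∑ j ∈ s, wC (i - j)) ^ 3 +
      ((∑ j ∈ s, wC (i - j) * b j) + (∑ j ∈ s, wC (i - j) * c j) +
        (∑ j ∈ s, wC (i - j) * d j)) / 6 * (∑ j ∈ s, wC (i - j)) ^ 2)
      ≤ ∑ i ∈ s, (a i / 2 * (97 / 20) ^ 3 +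
      ((∑ j ∈ s, wC (i - j) * b j) + (∑ j ∈ s, wC (i - j) * c j) +
        (∑ j ∈ s, wC (i - j) * d j)) / 6 * (97 / 20) ^ 2) := by
        refine Finset.sum_le_sum fun i _ => ?_
        have e1 : (∑ j ∈ s, wC (i - j)) ^ 3 ≤ (97 / 20 : ℝ) ^ 3 := pow_le_pow_left₀ (hP0 i) (hP i) 3
        have e2 : (∑ j ∈ s, wC (i - j)) ^ 2 ≤ (97 / 20 : ℝ) ^ 2 := pow_le_pow_left₀ (hP0 i) (hP i) 2
        have e3 := hQ0 b hb i
        have e4 := hQ0 c hc i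
        have e5 := hQ0 d hd i
        have e6 := ha i
        exact add_le_add (mul_le_mul_of_nonneg_left e1 (by linarith))
          (mul_le_mul_of_nonneg_left e2 (by linarith))
    _ = (97 / 20) ^ 3 / 2 * (∑ i ∈ s, a i) + (97 / 20) ^ 2 / 6 *
        ((∑ i ∈ s, ∑ j ∈ s, wC (i - j) * b j) + (∑ i ∈ s, ∑ j ∈ s, wC (i - j) * c j) +
          (∑ i ∈ s, ∑ j ∈ s, wC (i - j) * d j)) := by
        rw [← Finset.sum_add_distrib, ← Finset.sum_add_distrib, Finset.mul_sum, Finset.mul_sum,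
          ← Finset.sum_add_distrib]
        exact Finset.sum_congr rfl fun i _ => by ring
    _ ≤ 2 * (97 / 20) ^ 3 := by
        have f1 := hQ b hb sb
        have f2 := hQ c hc sc
        have f3 := hQ d hd sd
        nlinarith

theorem comb_term (a b c d : ℝ) (ha : 0 ≤ a) (hb : 0 ≤ b) (hc : 0 ≤ c) (hd : 0 ≤ d)
    (i j k l : ℤ) (hj : j ≤ i) (hk : k ≤ i) (hl : l ≤ i) :
    (2:ℝ) ^ (-(i:ℝ) + ((j:ℝ) + k + l) / 3) *
      (a ^ ((1:ℝ)/2) * b ^ ((1:ℝ)/6) * c ^ ((1:ℝ)/6) * d ^ ((1:ℝ)/6)) ≤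
    wC (i - j) * wC (i - k) * wC (i - l) * (a / 2 + b / 6 + c / 6 + d / 6) := by
  have h1 : wC (i - j) * wC (i - k) * wC (i - l) = (2:ℝ) ^ (-(i:ℝ) + ((j:ℝ) + k + l) / 3) := by
    unfold wC
    rw [if_pos (by omega), if_pos (by omega), if_pos (by omega),
      ← Real.rpow_add (by norm_num), ← Real.rpow_add (by norm_num)]
    congr 1
    push_cast
    ring
  rw [h1]
  refine mul_le_mul_of_nonneg_left ?_ (by positivity)
  have h2 := Real.geom_mean_le_arith_mean4_weighted (w₁ := 1/2) (w₂ := 1/6) (w₃ := 1/6)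
    (w₄ := 1/6) (by norm_num) (by norm_num) (by norm_num) (by norm_num) ha hb hc hd (by norm_num)
  linarith

/-- combinatorial summation -/
theorem comb4 (a b c d : ℤ → ℝ) (ha : ∀ i, 0 ≤ a i) (hb : ∀ i, 0 ≤ b i) (hc : ∀ i, 0 ≤ c i)
    (hd : ∀ i, 0 ≤ d i) (L I : ℤ) (sa : ∑ i ∈ Finset.Ico L I, a i ≤ 2)
    (sb : ∑ i ∈ Finset.Ico L I, b i ≤ 2) (sc : ∑ i ∈ Finset.Ico L I, c i ≤ 2)
    (sd : ∑ i ∈ Finset.Ico L I, d i ≤ 2) (X : ℤ → ℤ → ℤ → ℤ → ℝ)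
    (h1 : ∀ i j k l, X i j k l ≤ (2:ℝ) ^ (-(i:ℝ) + ((j:ℝ) + k + l) / 3) *
      ((a i) ^ ((1:ℝ)/2) * (b j) ^ ((1:ℝ)/6) * (c k) ^ ((1:ℝ)/6) * (d l) ^ ((1:ℝ)/6)))
    (h2 : ∀ i j k l, X i j k l ≤ (2:ℝ) ^ (-(j:ℝ) + ((i:ℝ) + k + l) / 3) *
      ((a i) ^ ((1:ℝ)/6) * (b j) ^ ((1:ℝ)/2) * (c k) ^ ((1:ℝ)/6) * (d l) ^ ((1:ℝ)/6)))
    (h3 : ∀ i j k l, X i j k l ≤ (2:ℝ) ^ (-(k:ℝ) + ((i:ℝ) + j + l) / 3) *
      ((a i) ^ ((1:ℝ)/6) * (b j) ^ ((1:ℝ)/6) * (c k) ^ ((1:ℝ)/2) * (d l) ^ ((1:ℝ)/6)))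
    (h4 : ∀ i j k l, X i j k l ≤ (2:ℝ) ^ (-(l:ℝ) + ((i:ℝ) + j + k) / 3) *
      ((a i) ^ ((1:ℝ)/6) * (b j) ^ ((1:ℝ)/6) * (c k) ^ ((1:ℝ)/6) * (d l) ^ ((1:ℝ)/2))) :
    ∑ i ∈ Finset.Ico L I, ∑ j ∈ Finset.Ico L I, ∑ k ∈ Finset.Ico L I, ∑ l ∈ Finset.Ico L I,
      X i j k l ≤ 1000 := by
  classical
  set s := Finset.Ico L I with hs
  -- the four nonnegative bounds
  have n1 : ∀ i j k l : ℤ, 0 ≤ wC (i - j) * wC (i - k) * wC (i - l) *
      (a i / 2 + b j / 6 + c k / 6 + d l / 6) := fun i j k l => by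
    have := ha i; have := hb j; have := hc k; have := hd l
    exact mul_nonneg (mul_nonneg (mul_nonneg (wC_nonneg _) (wC_nonneg _)) (wC_nonneg _))
      (by linarith)
  have n2 : ∀ i j k l : ℤ, 0 ≤ wC (j - i) * wC (j - k) * wC (j - l) *
      (b j / 2 + a i / 6 + c k / 6 + d l / 6) := fun i j k l => by
    have := ha i; have := hb j; have := hc k; have := hd l
    exact mul_nonneg (mul_nonneg (mul_nonneg (wC_nonneg _) (wC_nonneg _)) (wC_nonneg _))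
      (by linarith)
  have n3 : ∀ i j k l : ℤ, 0 ≤ wC (k - i) * wC (k - j) * wC (k - l) *
      (c k / 2 + a i / 6 + b j / 6 + d l / 6) := fun i j k l => by
    have := ha i; have := hb j; have := hc k; have := hd l
    exact mul_nonneg (mul_nonneg (mul_nonneg (wC_nonneg _) (wC_nonneg _)) (wC_nonneg _))
      (by linarith)
  have n4 : ∀ i j k l : ℤ, 0 ≤ wC (l - i) * wC (l - j) * wC (l - k) *
      (d l / 2 + a i / 6 + b j / 6 + c k / 6) := fun i j k l => by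
    have := ha i; have := hb j; have := hc k; have := hd l
    exact mul_nonneg (mul_nonneg (mul_nonneg (wC_nonneg _) (wC_nonneg _)) (wC_nonneg _))
      (by linarith)
  have hX : ∀ i j k l : ℤ, X i j k l ≤
      (wC (i - j) * wC (i - k) * wC (i - l) * (a i / 2 + b j / 6 + c k / 6 + d l / 6) +
        wC (j - i) * wC (j - k) * wC (j - l) * (b j / 2 + a i / 6 + c k / 6 + d l / 6)) +
      (wC (k - i) * wC (k - j) * wC (k - l) * (c k / 2 + a i / 6 + b j / 6 + d l / 6) +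
        wC (l - i) * wC (l - j) * wC (l - k) * (d l / 2 + a i / 6 + b j / 6 + c k / 6)) := by
    intro i j k l
    have m1 := n1 i j k l
    have m2 := n2 i j k l
    have m3 := n3 i j k l
    have m4 := n4 i j k l
    by_cases c1 : j ≤ i ∧ k ≤ i ∧ l ≤ i
    · have := (h1 i j k l).trans (comb_term (a i) (b j) (c k) (d l) (ha i) (hb j) (hc k) (hd l)
        i j k l c1.1 c1.2.1 c1.2.2)
      linarith
    by_cases c2 : i ≤ j ∧ k ≤ j ∧ l ≤ j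
    · have h := comb_term (b j) (a i) (c k) (d l) (hb j) (ha i) (hc k) (hd l)
        j i k l c2.1 c2.2.1 c2.2.2
      have h' := h2 i j k l
      have e : (a i) ^ ((1:ℝ)/6) * (b j) ^ ((1:ℝ)/2) * (c k) ^ ((1:ℝ)/6) * (d l) ^ ((1:ℝ)/6) =
        (b j) ^ ((1:ℝ)/2) * (a i) ^ ((1:ℝ)/6) * (c k) ^ ((1:ℝ)/6) * (d l) ^ ((1:ℝ)/6) := by ring
      rw [e] at h'
      linarith
    by_cases c3 : i ≤ k ∧ j ≤ k ∧ l ≤ k
    · have h := comb_term (c k) (a i) (b j) (d l) (hc k) (ha i) (hb j) (hd l)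
        k i j l c3.1 c3.2.1 c3.2.2
      have h' := h3 i j k l
      have e : (a i) ^ ((1:ℝ)/6) * (b j) ^ ((1:ℝ)/6) * (c k) ^ ((1:ℝ)/2) * (d l) ^ ((1:ℝ)/6) =
        (c k) ^ ((1:ℝ)/2) * (a i) ^ ((1:ℝ)/6) * (b j) ^ ((1:ℝ)/6) * (d l) ^ ((1:ℝ)/6) := by ring
      rw [e] at h'
      linarith
    have c4 : i ≤ l ∧ j ≤ l ∧ k ≤ l := by omega
    have h := comb_term (d l) (a i) (b j) (c k) (hd l) (ha i) (hb j) (hc k)
        l i j k c4.1 c4.2.1 c4.2.2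
    have h' := h4 i j k l
    have e : (a i) ^ ((1:ℝ)/6) * (b j) ^ ((1:ℝ)/6) * (c k) ^ ((1:ℝ)/6) * (d l) ^ ((1:ℝ)/2) =
      (d l) ^ ((1:ℝ)/2) * (a i) ^ ((1:ℝ)/6) * (b j) ^ ((1:ℝ)/6) * (c k) ^ ((1:ℝ)/6) := by ring
    rw [e] at h'
    linarith
  have g1 := comb_gen s a b c d ha hb hc hd sa sb sc sd
  have g2 := comb_gen s b a c d hb ha hc hd sb sa sc sd
  have g3 := comb_gen s c a b d hc ha hb hd sc sa sb sd
  have g4 := comb_gen s d a b c hd ha hb hc sd sa sb sc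
  have g2' : ∑ i ∈ s, ∑ j ∈ s, ∑ k ∈ s, ∑ l ∈ s, wC (j - i) * wC (j - k) * wC (j - l) *
      (b j / 2 + a i / 6 + c k / 6 + d l / 6) ≤ 2 * (97 / 20) ^ 3 := by
    rw [Finset.sum_comm]
    exact g2
  have g3' : ∑ i ∈ s, ∑ j ∈ s, ∑ k ∈ s, ∑ l ∈ s, wC (k - i) * wC (k - j) * wC (k - l) *
      (c k / 2 + a i / 6 + b j / 6 + d l / 6) ≤ 2 * (97 / 20) ^ 3 := by
    have e : ∑ i ∈ s, ∑ j ∈ s, ∑ k ∈ s, ∑ l ∈ s, wC (k - i) * wC (k - j) * wC (k - l) *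
      (c k / 2 + a i / 6 + b j / 6 + d l / 6) =
      ∑ k ∈ s, ∑ i ∈ s, ∑ j ∈ s, ∑ l ∈ s, wC (k - i) * wC (k - j) * wC (k - l) *
      (c k / 2 + a i / 6 + b j / 6 + d l / 6) := by
      rw [Finset.sum_comm (s := s) (t := s) (f := fun k i => ∑ j ∈ s, ∑ l ∈ s,
        wC (k - i) * wC (k - j) * wC (k - l) * (c k / 2 + a i / 6 + b j / 6 + d l / 6))]
      exact Finset.sum_congr rfl fun i _ => Finset.sum_comm
    rw [e]
    exact g3
  have g4' : ∑ i ∈ s, ∑ j ∈ s, ∑ k ∈ s, ∑ l ∈ s, wC (l - i) * wC (l - j) * wC (l - k) *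
      (d l / 2 + a i / 6 + b j / 6 + c k / 6) ≤ 2 * (97 / 20) ^ 3 := by
    have e : ∑ i ∈ s, ∑ j ∈ s, ∑ k ∈ s, ∑ l ∈ s, wC (l - i) * wC (l - j) * wC (l - k) *
      (d l / 2 + a i / 6 + b j / 6 + c k / 6) =
      ∑ l ∈ s, ∑ i ∈ s, ∑ j ∈ s, ∑ k ∈ s, wC (l - i) * wC (l - j) * wC (l - k) *
      (d l / 2 + a i / 6 + b j / 6 + c k / 6) := by
      rw [Finset.sum_comm (s := s) (t := s) (f := fun l i => ∑ j ∈ s, ∑ k ∈ s,
        wC (l - i) * wC (l - j) * wC (l - k) * (d l / 2 + a i / 6 + b j / 6 + c k / 6))]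
      refine Finset.sum_congr rfl fun i _ => ?_
      rw [Finset.sum_comm (s := s) (t := s) (f := fun l j => ∑ k ∈ s,
        wC (l - i) * wC (l - j) * wC (l - k) * (d l / 2 + a i / 6 + b j / 6 + c k / 6))]
      exact Finset.sum_congr rfl fun j _ => Finset.sum_comm
    rw [e]
    exact g4
  calc ∑ i ∈ s, ∑ j ∈ s, ∑ k ∈ s, ∑ l ∈ s, X i j k l
      ≤ ∑ i ∈ s, ∑ j ∈ s, ∑ k ∈ s, ∑ l ∈ s,
      ((wC (i - j) * wC (i - k) * wC (i - l) * (a i / 2 + b j / 6 + c k / 6 + d l / 6) +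
        wC (j - i) * wC (j - k) * wC (j - l) * (b j / 2 + a i / 6 + c k / 6 + d l / 6)) +
      (wC (k - i) * wC (k - j) * wC (k - l) * (c k / 2 + a i / 6 + b j / 6 + d l / 6) +
        wC (l - i) * wC (l - j) * wC (l - k) * (d l / 2 + a i / 6 + b j / 6 + c k / 6))) :=
        Finset.sum_le_sum fun i _ => Finset.sum_le_sum fun j _ => Finset.sum_le_sum fun k _ =>
          Finset.sum_le_sum fun l _ => hX i j k l
    _ = ((∑ i ∈ s, ∑ j ∈ s, ∑ k ∈ s, ∑ l ∈ s, wC (i - j) * wC (i - k) * wC (i - l) *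
          (a i / 2 + b j / 6 + c k / 6 + d l / 6)) +
        (∑ i ∈ s, ∑ j ∈ s, ∑ k ∈ s, ∑ l ∈ s, wC (j - i) * wC (j - k) * wC (j - l) *
          (b j / 2 + a i / 6 + c k / 6 + d l / 6))) +
        ((∑ i ∈ s, ∑ j ∈ s, ∑ k ∈ s, ∑ l ∈ s, wC (k - i) * wC (k - j) * wC (k - l) *
          (c k / 2 + a i / 6 + b j / 6 + d l / 6)) +
        (∑ i ∈ s, ∑ j ∈ s, ∑ k ∈ s, ∑ l ∈ s, wC (l - i) * wC (l - j) * wC (l - k) *
          (d l / 2 + a i / 6 + b j / 6 + c k / 6))) := by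
        simp only [Finset.sum_add_distrib]
    _ ≤ 1000 := by
        norm_num at g1 g2' g3' g4' ⊢
        linarith

end TH71
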