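import Pool.Agent.Helper933.TY.Defs
import Pool.Agent.Helper933.TY.P_piece_test

set_option autoImplicit false
set_option linter.unusedVariables false

open MeasureTheory

namespace TH71


theorem cl_diff640 (i : ℤ) (u : ℝ) : |cl (i + 1) u - cl i u| ≤ (2:ℝ) ^ i := by
  have ha : (0:ℝ) < (2:ℝ) ^ i := by positivity
  have h2 : (2:ℝ) ^ (i + 1) = (2:ℝ) ^ i * 2 := zpow_add_one₀ two_ne_zero i
  unfold cl
  rw [h2]
  rw [abs_le]
  constructor <;> simp only [max_def, min_def] <;> split_ifs <;> linarith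

theorem cl_zero640 (i : ℤ) (u : ℝ) (hu : |u| ≤ (2:ℝ) ^ i) : cl (i + 1) u - cl i u = 0 := by
  have ha : (0:ℝ) < (2:ℝ) ^ i := by positivity
  have h2 : (2:ℝ) ^ (i + 1) = (2:ℝ) ^ i * 2 := zpow_add_one₀ two_ne_zero i
  rw [abs_le] at hu
  unfold cl
  rw [h2]
  rw [min_eq_left hu.2, max_eq_right hu.1, min_eq_left (by linarith [hu.2]),
    max_eq_right (by linarith [hu.1])]
  ring

theorem piece_int640 (i : ℤ) (f : ℝ → ℝ → ℝ → ℝ) (hf : tzT3 f) (k : ℕ) (hk : k ≠ 0) :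
    ∫ p : ℝ × ℝ × ℝ, |piece i f p.1 p.2.1 p.2.2| ^ k ≤
      ((2:ℝ) ^ i) ^ k * (volume {p : ℝ × ℝ × ℝ | (2:ℝ) ^ i < |f p.1 p.2.1 p.2.2|}).toReal := by
  have ha : (0:ℝ) < (2:ℝ) ^ i := by positivity
  have hmeas : MeasurableSet {p : ℝ × ℝ × ℝ | (2:ℝ) ^ i < |f p.1 p.2.1 p.2.2|} :=
    (isOpen_lt continuous_const hf.1.abs).measurableSet
  have hfin : volume {p : ℝ × ℝ × ℝ | (2:ℝ) ^ i < |f p.1 p.2.1 p.2.2|} < ⊤ := by
    refine lt_of_le_of_lt (measure_mono ?_) (IsCompact.measure_lt_top hf.2)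
    intro p hp
    apply subset_tsupport
    rw [Function.mem_support]
    intro h0
    have hp' : (2:ℝ) ^ i < |f p.1 p.2.1 p.2.2| := hp
    rw [h0, abs_zero] at hp'
    linarith
  have hint : Integrable (Set.indicator {p : ℝ × ℝ × ℝ | (2:ℝ) ^ i < |f p.1 p.2.1 p.2.2|}
      (fun _ => ((2:ℝ) ^ i) ^ k)) volume := by
    rw [integrable_indicator_iff hmeas]
    exact integrableOn_const hfin.ne
  have hle : ∫ p : ℝ × ℝ × ℝ, |piece i f p.1 p.2.1 p.2.2| ^ k ≤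
      ∫ p : ℝ × ℝ × ℝ, Set.indicator {p : ℝ × ℝ × ℝ | (2:ℝ) ^ i < |f p.1 p.2.1 p.2.2|}
      (fun _ => ((2:ℝ) ^ i) ^ k) p := by
    refine integral_mono_of_nonneg (Filter.Eventually.of_forall fun p => by positivity) hint
      (Filter.Eventually.of_forall fun p => ?_)
    by_cases hp : p ∈ {p : ℝ × ℝ × ℝ | (2:ℝ) ^ i < |f p.1 p.2.1 p.2.2|}
    · rw [Set.indicator_of_mem hp]
      exact pow_le_pow_left₀ (abs_nonneg _) (cl_diff640 i _) k
    · rw [Set.indicator_of_notMem hp]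
      have hp' : |f p.1 p.2.1 p.2.2| ≤ (2:ℝ) ^ i := by
        simpa using hp
      have : piece i f p.1 p.2.1 p.2.2 = 0 := cl_zero640 i _ hp'
      simp only [this, abs_zero]
      rw [zero_pow hk]
  rw [integral_indicator hmeas, setIntegral_const, smul_eq_mul, mul_comm] at hle
  exact hle

theorem piece_N (i : ℤ) (f : ℝ → ℝ → ℝ → ℝ) (hf : tzT3 f) :
    0 ≤ aa i f ∧ N2 (piece i f) ≤ ((2:ℝ) ^ i)⁻¹ ^ 2 * aa i f ∧
      N6 (piece i f) ≤ ((2:ℝ) ^ i) ^ 2 * aa i f := by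
  have ha : (0:ℝ) < (2:ℝ) ^ i := by positivity
  refine ⟨by unfold aa; positivity, ?_, ?_⟩
  · have h := piece_int640 i f hf 2 (by norm_num)
    unfold N2 aa
    refine h.trans (le_of_eq ?_)
    field_simp
  · have h := piece_int640 i f hf 6 (by norm_num)
    unfold N6 aa
    refine h.trans (le_of_eq ?_)
    ring

end TH71
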