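import Pool.Agent.Helper933.TY.Defs
import Pool.Agent.Helper933.TY.P_est1
import Pool.Agent.Helper933.TY.P_piece_test
import Pool.Agent.Helper933.TY.P_piece_N

set_option autoImplicit false
set_option linter.unusedVariables false

open MeasureTheory

namespace TH71


theorem pb_two (i : ℤ) (x a : ℝ) (hx : 0 ≤ x) (ha : 0 ≤ a) (h : x ≤ ((2:ℝ) ^ i)⁻¹ ^ 2 * a) :
    x ^ ((1:ℝ)/2) ≤ (2:ℝ) ^ (-(i:ℝ)) * a ^ ((1:ℝ)/2) := by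
  have h0 : (0:ℝ) < (2:ℝ) ^ i := by positivity
  have h1 : (0:ℝ) ≤ ((2:ℝ) ^ i)⁻¹ := by positivity
  calc x ^ ((1:ℝ)/2) ≤ (((2:ℝ) ^ i)⁻¹ ^ 2 * a) ^ ((1:ℝ)/2) :=
        Real.rpow_le_rpow hx h (by norm_num)
    _ = (((2:ℝ) ^ i)⁻¹ ^ 2) ^ ((1:ℝ)/2) * a ^ ((1:ℝ)/2) :=
        Real.mul_rpow (by positivity) ha
    _ = (2:ℝ) ^ (-(i:ℝ)) * a ^ ((1:ℝ)/2) := by
        congr 1
        rw [← Real.rpow_natCast, ← Real.rpow_mul h1]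
        norm_num
        rw [Real.rpow_neg (by norm_num), Real.rpow_intCast]

theorem pb_six (i : ℤ) (x a : ℝ) (hx : 0 ≤ x) (ha : 0 ≤ a) (h : x ≤ ((2:ℝ) ^ i) ^ 2 * a) :
    x ^ ((1:ℝ)/6) ≤ (2:ℝ) ^ ((i:ℝ)/3) * a ^ ((1:ℝ)/6) := by
  have h0 : (0:ℝ) < (2:ℝ) ^ i := by positivity
  calc x ^ ((1:ℝ)/6) ≤ (((2:ℝ) ^ i) ^ 2 * a) ^ ((1:ℝ)/6) :=
        Real.rpow_le_rpow hx h (by norm_num)
    _ = (((2:ℝ) ^ i) ^ 2) ^ ((1:ℝ)/6) * a ^ ((1:ℝ)/6) :=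
        Real.mul_rpow (by positivity) ha
    _ = (2:ℝ) ^ ((i:ℝ)/3) * a ^ ((1:ℝ)/6) := by
        congr 1
        rw [← Real.rpow_natCast, ← Real.rpow_mul h0.le, ← Real.rpow_intCast,
          ← Real.rpow_mul (by norm_num)]
        congr 1
        push_cast
        ring

theorem pb_N2 (f : ℝ → ℝ → ℝ → ℝ) : 0 ≤ N2 f := by
  unfold N2
  exact integral_nonneg fun p => by positivity

theorem pb_N6 (f : ℝ → ℝ → ℝ → ℝ) : 0 ≤ N6 f := by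
  unfold N6
  exact integral_nonneg fun p => by positivity

/-- the term of four pieces -/
theorem pieces_bound (f g h k : ℝ → ℝ → ℝ → ℝ) (hf : tzT3 f) (hg : tzT3 g) (hh : tzT3 h)
    (hk : tzT3 k) (ε N : ℝ) (hε : 0 < ε) (hN : ε < N) (i j m l : ℤ) :
    |Lam4 (piece i f) (piece j g) (piece m h) (piece l k) ε N| ≤
      1000000 * Real.sqrt (1 + Real.log (N / ε)) * ((2:ℝ) ^ (-(i:ℝ) + ((j:ℝ) + m + l) / 3) *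
      ((aa i f) ^ ((1:ℝ)/2) * (aa j g) ^ ((1:ℝ)/6) * (aa m h) ^ ((1:ℝ)/6) *
        (aa l k) ^ ((1:ℝ)/6))) := by
  obtain ⟨a1, b1, c1⟩ := piece_N i f hf
  obtain ⟨a2, b2, c2⟩ := piece_N j g hg
  obtain ⟨a3, b3, c3⟩ := piece_N m h hh
  obtain ⟨a4, b4, c4⟩ := piece_N l k hk
  have e := est1 (piece i f) (piece j g) (piece m h) (piece l k) (piece_test i f hf).1
    (piece_test j g hg).1 (piece_test m h hh).1 (piece_test l k hk).1 ε N hε hN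
  refine e.trans ?_
  have t1 := pb_two i _ _ (pb_N2 (piece i f)) a1 b1
  have t2 := pb_six j _ _ (pb_N6 (piece j g)) a2 c2
  have t3 := pb_six m _ _ (pb_N6 (piece m h)) a3 c3
  have t4 := pb_six l _ _ (pb_N6 (piece l k)) a4 c4
  have n1 : 0 ≤ (N2 (piece i f)) ^ ((1:ℝ)/2) := Real.rpow_nonneg (pb_N2 _) _
  have n2 : 0 ≤ (N6 (piece j g)) ^ ((1:ℝ)/6) := Real.rpow_nonneg (pb_N6 _) _
  have n3 : 0 ≤ (N6 (piece m h)) ^ ((1:ℝ)/6) := Real.rpow_nonneg (pb_N6 _) _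
  have n4 : 0 ≤ (N6 (piece l k)) ^ ((1:ℝ)/6) := Real.rpow_nonneg (pb_N6 _) _
  have q1 : 0 ≤ (aa i f) ^ ((1:ℝ)/2) := Real.rpow_nonneg a1 _
  have q2 : 0 ≤ (aa j g) ^ ((1:ℝ)/6) := Real.rpow_nonneg a2 _
  have q3 : 0 ≤ (aa m h) ^ ((1:ℝ)/6) := Real.rpow_nonneg a3 _
  have hpow : (2:ℝ) ^ (-(i:ℝ) + ((j:ℝ) + m + l) / 3) =
      (2:ℝ) ^ (-(i:ℝ)) * (2:ℝ) ^ ((j:ℝ)/3) * (2:ℝ) ^ ((m:ℝ)/3) * (2:ℝ) ^ ((l:ℝ)/3) := by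
    rw [← Real.rpow_add (by norm_num), ← Real.rpow_add (by norm_num),
      ← Real.rpow_add (by norm_num)]
    congr 1
    ring
  have hmain : (N2 (piece i f)) ^ ((1:ℝ)/2) * (N6 (piece j g)) ^ ((1:ℝ)/6) *
      (N6 (piece m h)) ^ ((1:ℝ)/6) * (N6 (piece l k)) ^ ((1:ℝ)/6) ≤
      ((2:ℝ) ^ (-(i:ℝ)) * (aa i f) ^ ((1:ℝ)/2)) * ((2:ℝ) ^ ((j:ℝ)/3) * (aa j g) ^ ((1:ℝ)/6)) *
      ((2:ℝ) ^ ((m:ℝ)/3) * (aa m h) ^ ((1:ℝ)/6)) * ((2:ℝ) ^ ((l:ℝ)/3) * (aa l k) ^ ((1:ℝ)/6)) := by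
    gcongr
  have hC : 0 ≤ 1000000 * Real.sqrt (1 + Real.log (N / ε)) := by positivity
  refine (mul_le_mul_of_nonneg_left hmain hC).trans (le_of_eq ?_)
  rw [hpow]
  ring

end TH71
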