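import Pool.Agent.Helper933.TY.Defs
import Pool.Agent.Helper933.TY.P_cyc
import Pool.Agent.Helper933.TY.P_piece_test
import Pool.Agent.Helper933.TY.P_piece_N
import Pool.Agent.Helper933.TY.P_aa_sum
import Pool.Agent.Helper933.TY.P_comb4
import Pool.Agent.Helper933.TY.P_pieces_bound

set_option autoImplicit false
set_option linter.unusedVariables false

open MeasureTheory

namespace TH71


theorem mainsum (f g h k : ℝ → ℝ → ℝ → ℝ) (hf : tzT3 f) (hg : tzT3 g) (hh : tzT3 h)
    (hk : tzT3 k) (nf : N4 f ≤ 1) (ng : N4 g ≤ 1) (nh : N4 h ≤ 1) (nk : N4 k ≤ 1)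
    (ε N : ℝ) (hε : 0 < ε) (hN : ε < N) (L I : ℤ) :
    |∑ i ∈ Finset.Ico L I, ∑ j ∈ Finset.Ico L I, ∑ m ∈ Finset.Ico L I, ∑ l ∈ Finset.Ico L I,
      Lam4 (piece i f) (piece j g) (piece m h) (piece l k) ε N| ≤
      1000000000 * Real.sqrt (1 + Real.log (N / ε)) := by
  have hlog : 0 < Real.log (N / ε) := Real.log_pos ((one_lt_div hε).mpr hN)
  obtain ⟨D, hD⟩ : ∃ D, D = 1000000 * Real.sqrt (1 + Real.log (N / ε)) := ⟨_, rfl⟩
  have hD0 : 0 < D := by rw [hD]; positivity
  have key := comb4 (fun i => aa i f) (fun i => aa i g) (fun i => aa i h) (fun i => aa i k)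
    (fun i => (piece_N i f hf).1) (fun i => (piece_N i g hg).1) (fun i => (piece_N i h hh).1)
    (fun i => (piece_N i k hk).1) L I
    ((aa_sum f hf L I).trans (by linarith)) ((aa_sum g hg L I).trans (by linarith))
    ((aa_sum h hh L I).trans (by linarith)) ((aa_sum k hk L I).trans (by linarith))
    (fun i j m l => |Lam4 (piece i f) (piece j g) (piece m h) (piece l k) ε N| / D)
    (fun i j m l => by
      have h1 := pieces_bound f g h k hf hg hh hk ε N hε hN i j m l
      rw [← hD] at h1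
      rw [div_le_iff₀ hD0]
      refine h1.trans (le_of_eq ?_)
      ring)
    (fun i j m l => by
      have h1 := pieces_bound g h k f hg hh hk hf ε N hε hN j m l i
      rw [← hD, ← cyc] at h1
      rw [div_le_iff₀ hD0]
      refine h1.trans (le_of_eq ?_)
      have e : -(j:ℝ) + ((m:ℝ) + l + i) / 3 = -(j:ℝ) + ((i:ℝ) + m + l) / 3 := by ring
      rw [e]
      ring)
    (fun i j m l => by
      have h1 := pieces_bound h k f g hh hk hf hg ε N hε hN m l i j
      rw [← hD, ← cyc, ← cyc] at h1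
      rw [div_le_iff₀ hD0]
      refine h1.trans (le_of_eq ?_)
      have e : -(m:ℝ) + ((l:ℝ) + i + j) / 3 = -(m:ℝ) + ((i:ℝ) + j + l) / 3 := by ring
      rw [e]
      ring)
    (fun i j m l => by
      have h1 := pieces_bound k f g h hk hf hg hh ε N hε hN l i j m
      rw [← hD, ← cyc, ← cyc, ← cyc] at h1
      rw [div_le_iff₀ hD0]
      refine h1.trans (le_of_eq ?_)
      ring)
  have h2 : |∑ i ∈ Finset.Ico L I, ∑ j ∈ Finset.Ico L I, ∑ m ∈ Finset.Ico L I,
      ∑ l ∈ Finset.Ico L I, Lam4 (piece i f) (piece j g) (piece m h) (piece l k) ε N| ≤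
      ∑ i ∈ Finset.Ico L I, ∑ j ∈ Finset.Ico L I, ∑ m ∈ Finset.Ico L I,
      ∑ l ∈ Finset.Ico L I, |Lam4 (piece i f) (piece j g) (piece m h) (piece l k) ε N| := by
    refine (Finset.abs_sum_le_sum_abs _ _).trans (Finset.sum_le_sum fun i _ => ?_)
    refine (Finset.abs_sum_le_sum_abs _ _).trans (Finset.sum_le_sum fun j _ => ?_)
    refine (Finset.abs_sum_le_sum_abs _ _).trans (Finset.sum_le_sum fun m _ => ?_)
    exact Finset.abs_sum_le_sum_abs _ _
  refine h2.trans ?_
  simp only [← Finset.sum_div] at key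
  rw [div_le_iff₀ hD0] at key
  refine key.trans (le_of_eq ?_)
  rw [hD]
  ring

end TH71
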