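import Pool.Agent.Helper933.TY.Defs
import Pool.Agent.Helper933.TY.P_cyc
import Pool.Agent.Helper933.TY.P_add1
import Pool.Agent.Helper933.TY.P_smul4
import Pool.Agent.Helper933.TY.P_piece_test

set_option autoImplicit false
set_option linter.unusedVariables false

open MeasureTheory

namespace TH71


theorem multi_add {f g : ℝ → ℝ → ℝ → ℝ} (hf : tzT3 f) (hg : tzT3 g) :
    tzT3 (fun x y z => f x y z + g x y z) :=
  ⟨hf.1.add hg.1, hf.2.add hg.2⟩

theorem multi_zero : tzT3 (fun _ _ _ => (0 : ℝ)) :=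
  ⟨continuous_const, HasCompactSupport.zero⟩

theorem multi_test (F : ℤ → ℝ → ℝ → ℝ → ℝ) (hF : ∀ i, tzT3 (F i)) (s : Finset ℤ) :
    tzT3 (fun x y z => ∑ i ∈ s, F i x y z) := by
  classical
  induction s using Finset.induction_on with
  | empty => simpa using multi_zero
  | insert a s ha ih =>
    simp only [Finset.sum_insert ha]
    exact multi_add (hF a) ih

theorem multi_sum1 (F : ℤ → ℝ → ℝ → ℝ → ℝ) (hF : ∀ i, tzT3 (F i)) (s : Finset ℤ)
    (g h k : ℝ → ℝ → ℝ → ℝ) (hg : tzT3 g) (hh : tzT3 h) (hk : tzT3 k) (ε N : ℝ) (hε : 0 < ε)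
    (hN : ε < N) :
    Lam4 (fun x y z => ∑ i ∈ s, F i x y z) g h k ε N = ∑ i ∈ s, Lam4 (F i) g h k ε N := by
  classical
  induction s using Finset.induction_on with
  | empty => simp [Lam4]
  | insert a s ha ih =>
    simp only [Finset.sum_insert ha]
    rw [add1 (F a) (fun x y z => ∑ i ∈ s, F i x y z) g h k (hF a) (multi_test F hF s) hg hh hk
      ε N hε hN, ih]

/-- expansion of the form in the pieces -/
theorem multi (f g h k : ℝ → ℝ → ℝ → ℝ) (hf : tzT3 f) (hg : tzT3 g) (hh : tzT3 h)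
    (hk : tzT3 k) (ε N : ℝ) (hε : 0 < ε) (hN : ε < N) (L I : ℤ) :
    Lam4 (fun x y z => ∑ i ∈ Finset.Ico L I, piece i f x y z)
      (fun x y z => ∑ i ∈ Finset.Ico L I, piece i g x y z)
      (fun x y z => ∑ i ∈ Finset.Ico L I, piece i h x y z)
      (fun x y z => ∑ i ∈ Finset.Ico L I, piece i k x y z) ε N =
    ∑ i ∈ Finset.Ico L I, ∑ j ∈ Finset.Ico L I, ∑ m ∈ Finset.Ico L I, ∑ l ∈ Finset.Ico L I,
      Lam4 (piece i f) (piece j g) (piece m h) (piece l k) ε N := by
  have pf : ∀ i, tzT3 (piece i f) := fun i => (piece_test i f hf).1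
  have pg : ∀ i, tzT3 (piece i g) := fun i => (piece_test i g hg).1
  have ph : ∀ i, tzT3 (piece i h) := fun i => (piece_test i h hh).1
  have pk : ∀ i, tzT3 (piece i k) := fun i => (piece_test i k hk).1
  have sg := multi_test (fun i => piece i g) pg (Finset.Ico L I)
  have sh := multi_test (fun i => piece i h) ph (Finset.Ico L I)
  have sk := multi_test (fun i => piece i k) pk (Finset.Ico L I)
  rw [multi_sum1 (fun i => piece i f) pf (Finset.Ico L I) _ _ _ sg sh sk ε N hε hN]
  apply Finset.sum_congr rfl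
  intro i _
  rw [cyc, multi_sum1 (fun i => piece i g) pg (Finset.Ico L I) _ _ _ sh sk (pf i) ε N hε hN]
  apply Finset.sum_congr rfl
  intro j _
  rw [cyc, multi_sum1 (fun i => piece i h) ph (Finset.Ico L I) _ _ _ sk (pf i) (pg j) ε N hε hN]
  apply Finset.sum_congr rfl
  intro m _
  rw [cyc, multi_sum1 (fun i => piece i k) pk (Finset.Ico L I) _ _ _ (pf i) (pg j) (ph m) ε N hε hN]
  apply Finset.sum_congr rfl
  intro l _
  rw [cyc]

end TH71
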