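import Pool.Agent.Helper933.TY.Defs
import Pool.Agent.Helper933.TY.P_smul4
import Pool.Agent.Helper933.TY.P_mainsum
import Pool.Agent.Helper933.TY.P_multi
import Pool.Agent.Helper933.TY.P_limL
import Pool.Agent.Helper933.TY.P_homog4

set_option autoImplicit false
set_option linter.unusedVariables false

open MeasureTheory

namespace TH71


theorem tzT3_smul' {f : ℝ → ℝ → ℝ → ℝ} (hf : tzT3 f) (t : ℝ) :
    tzT3 (fun x y z => t * f x y z) :=
  ⟨continuous_const.mul hf.1, hf.2.mul_left (f := fun _ => t)⟩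

theorem N4_smul' (f : ℝ → ℝ → ℝ → ℝ) (t : ℝ) :
    N4 (fun x y z => t * f x y z) = t ^ 4 * N4 f := by
  unfold N4
  rw [← integral_const_mul]
  congr 1
  ext p
  have : |t| ^ 4 = t ^ 4 := Even.pow_abs (by decide) t
  rw [abs_mul, mul_pow, this]

theorem N4_nonneg' (f : ℝ → ℝ → ℝ → ℝ) : 0 ≤ N4 f := by
  unfold N4
  exact integral_nonneg fun p => by positivity

theorem L4log (f g h k : ℝ → ℝ → ℝ → ℝ) (hf : tzT3 f) (hg : tzT3 g) (hh : tzT3 h)
    (hk : tzT3 k) (ε N : ℝ) (hε : 0 < ε) (hN : ε < N) :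
    |Lam4 f g h k ε N| ≤ 1000000000 * Real.sqrt (1 + Real.log (N / ε)) *
      ((N4 f) ^ ((1:ℝ)/4) * (N4 g) ^ ((1:ℝ)/4) * (N4 h) ^ ((1:ℝ)/4) * (N4 k) ^ ((1:ℝ)/4)) := by
  refine homog4 (Lam4 f g h k ε N) (N4 f) (N4 g) (N4 h) (N4 k) _ (N4_nonneg' f) (N4_nonneg' g)
    (N4_nonneg' h) (N4_nonneg' k) (by positivity) ?_
  intro t u v w _ _ _ _ h1 h2 h3 h4
  rw [← smul4]
  have hf' := tzT3_smul' hf t
  have hg' := tzT3_smul' hg u
  have hh' := tzT3_smul' hh v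
  have hk' := tzT3_smul' hk w
  refine limL _ _ _ _ hf' hg' hh' hk' ε N hε hN _ ?_
  intro L I
  rw [multi _ _ _ _ hf' hg' hh' hk' ε N hε hN L I]
  exact mainsum _ _ _ _ hf' hg' hh' hk' (by rw [N4_smul']; exact h1) (by rw [N4_smul']; exact h2)
    (by rw [N4_smul']; exact h3) (by rw [N4_smul']; exact h4) ε N hε hN L I

end TH71
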